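import Pool.Agent.E8helper43.SL.Triple
import Pool.Agent.H510R2.Div

set_option autoImplicit false
set_option maxHeartbeats 4000000

namespace Pool.Agent.E8helper43.SL

open Finset

/-- the number of zero-sum quadruples in the ball of radius `R` is `≪ R^(4+ε)` -/
theorem triple_asym (ε : ℝ) (hε : 0 < ε) : ∃ C : ℝ, 0 < C ∧ ∀ R : ℕ, 1 ≤ R →
    ∀ S : Finset (M2 × M2 × M2),
    (∀ x ∈ S, InB R x.1 ∧ InB R x.2.1 ∧ InB R x.2.2 ∧ InB R (-x.1 - x.2.1 - x.2.2)) →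
    (S.card : ℝ) ≤ C * (R : ℝ) ^ (4 + ε) := by
  set η : ℝ := ε / 112 with hη
  have hη0 : 0 < η := by positivity
  obtain ⟨C0, hC0, hdiv⟩ := Pool.Agent.H510R2.divisor_bound η hη0
  obtain ⟨C1, hC1, hlog⟩ := Pool.Agent.H510R2.prime_pow_aux η hη0
  obtain ⟨K0, hK0⟩ := exists_nat_ge (24 / ε)
  set K : ℕ := K0 + 3 with hK
  have hK3 : 3 ≤ K := by omega
  set CT : ℝ := C0 * (1024:ℝ) ^ η + 1 with hCT
  have hCT0 : 0 < CT := by positivity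
  set CL : ℝ := C1 * (8 * ((K:ℝ) + 1) ^ 2) ^ η with hCL
  have hCL0 : 0 < CL := by positivity
  set CE : ℝ := (1024:ℝ) ^ (ε / 12) with hCE
  have hCE1 : 1 ≤ CE := Real.one_le_rpow (by norm_num) (by positivity)
  set CC : ℝ := 61236 * CT ^ 3 + (K + 1) * (2808 * CT ^ 8 * (4 * (K + 1) ^ 2) * CL *
      (((24 + 224 * (K:ℝ) ^ 3 * (K.factorial : ℝ) ^ 3) * CE) * (516 * CT * 8))) with hCC
  refine ⟨CC, by positivity, ?_⟩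
  intro R hR S hS
  have hr : (1:ℝ) ≤ R := by exact_mod_cast hR
  have hr0 : (0:ℝ) < R := by linarith
  set u : ℝ := (R:ℝ) ^ η with hu
  have hu1 : 1 ≤ u := Real.one_le_rpow hr hη0.le
  have hupow : ∀ n : ℕ, u ^ n = (R:ℝ) ^ (η * n) := by
    intro n
    rw [hu, ← Real.rpow_natCast, ← Real.rpow_mul hr0.le]
  set T : ℕ := ⌈C0 * ((1024 * (R:ℝ) ^ 6)) ^ η⌉₊ with hT
  have hTpos : 1 ≤ T := by
    rw [hT]; exact Nat.one_le_ceil_iff.2 (by positivity)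
  have h6 : ((1024 * (R:ℝ) ^ 6)) ^ η = (1024:ℝ) ^ η * u ^ 6 := by
    rw [Real.mul_rpow (by norm_num) (by positivity), hupow 6, ← Real.rpow_natCast (R:ℝ) 6,
      ← Real.rpow_mul hr0.le]
    congr 2
    push_cast; ring
  have hTle : (T : ℝ) ≤ CT * u ^ 6 := by
    have h1 := (Nat.ceil_lt_add_one (a := C0 * ((1024 * (R:ℝ) ^ 6)) ^ η) (by positivity)).le
    rw [← hT, h6] at h1
    have h2 : 1 ≤ u ^ 6 := one_le_pow₀ hu1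
    calc (T:ℝ) ≤ C0 * ((1024:ℝ) ^ η * u ^ 6) + 1 := h1
      _ ≤ C0 * ((1024:ℝ) ^ η * u ^ 6) + u ^ 6 := by linarith
      _ = CT * u ^ 6 := by rw [hCT]; ring
  have hTd : ∀ n : ℕ, 0 < n → n ≤ 1024 * R ^ 6 → n.divisors.card ≤ T := by
    intro n h1 h2
    have h3 := hdiv n h1
    have h4 : (n:ℝ) ≤ 1024 * (R:ℝ) ^ 6 := by exact_mod_cast h2
    have h5 : (n.divisors.card : ℝ) ≤ C0 * ((1024 * (R:ℝ) ^ 6)) ^ η := by
      refine h3.trans ?_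
      gcongr
    have h7 : (n.divisors.card : ℝ) ≤ (T:ℝ) := h5.trans (Nat.le_ceil _)
    exact_mod_cast h7
  have main := triple_count K hK3 R T hR hTpos hTd S hS
  -- logarithm
  have hlogle : ((Nat.log 2 ⌊2 * (((K:ℝ) + 1) * (2 * (R:ℝ))) ^ 2⌋₊ : ℕ) : ℝ) + 1 ≤ CL * u ^ 2 := by
    set n := ⌊2 * (((K:ℝ) + 1) * (2 * (R:ℝ))) ^ 2⌋₊ with hn
    have hbig : (1:ℝ) ≤ 2 * (((K:ℝ) + 1) * (2 * (R:ℝ))) ^ 2 := by
      have h1 : (1:ℝ) ≤ ((K:ℝ) + 1) * (2 * (R:ℝ)) := by nlinarith [Nat.cast_nonneg (α := ℝ) K]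
      nlinarith
    have hnpos : n ≠ 0 := by
      have := Nat.le_floor (α := ℝ) (n := 1) (by simpa using hbig)
      omega
    have h1 := hlog 2 le_rfl (Nat.log 2 n)
    refine h1.trans ?_
    have h2 : ((2:ℕ):ℝ) ^ (Nat.log 2 n) ≤ 8 * ((K:ℝ) + 1) ^ 2 * (R:ℝ) ^ 2 := by
      have h3 : ((2 ^ (Nat.log 2 n) : ℕ) : ℝ) ≤ n := by exact_mod_cast Nat.pow_log_le_self 2 hnpos
      have h4 : (n:ℝ) ≤ 2 * (((K:ℝ) + 1) * (2 * (R:ℝ))) ^ 2 := Nat.floor_le (by positivity)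
      push_cast at h3 ⊢
      calc (2:ℝ) ^ (Nat.log 2 n) ≤ n := h3
        _ ≤ _ := h4
        _ = 8 * ((K:ℝ) + 1) ^ 2 * (R:ℝ) ^ 2 := by ring
    have h5 : (((2:ℕ):ℝ) ^ (Nat.log 2 n)) ^ η ≤ (8 * ((K:ℝ) + 1) ^ 2) ^ η * u ^ 2 := by
      calc (((2:ℕ):ℝ) ^ (Nat.log 2 n)) ^ η ≤ (8 * ((K:ℝ) + 1) ^ 2 * (R:ℝ) ^ 2) ^ η :=
            Real.rpow_le_rpow (by positivity) h2 hη0.le
        _ = (8 * ((K:ℝ) + 1) ^ 2) ^ η * u ^ 2 := by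
            rw [Real.mul_rpow (by positivity) (by positivity), hupow 2,
              ← Real.rpow_natCast (R:ℝ) 2, ← Real.rpow_mul hr0.le]
            congr 2
            push_cast; ring
    calc C1 * (((2:ℕ):ℝ) ^ (Nat.log 2 n)) ^ η ≤ C1 * ((8 * ((K:ℝ) + 1) ^ 2) ^ η * u ^ 2) := by
          apply mul_le_mul_of_nonneg_left h5 (by linarith)
      _ = CL * u ^ 2 := by rw [hCL]; ring
  -- the content loss
  have hEle : ((1024 * R ^ 6 : ℕ) : ℝ) ^ ((2:ℝ) / ((K:ℝ) - 2)) ≤ CE * u ^ 56 := by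
    have hKr : 24 / ε ≤ (K:ℝ) - 2 := by
      rw [hK]; push_cast; linarith
    have h24 : 0 < 24 / ε := by positivity
    have hexp : (2:ℝ) / ((K:ℝ) - 2) ≤ ε / 12 := by
      rw [div_le_iff₀ (by linarith)]
      have : ε / 12 * (24 / ε) = 2 := by field_simp; norm_num
      calc (2:ℝ) = ε / 12 * (24 / ε) := this.symm
        _ ≤ ε / 12 * ((K:ℝ) - 2) := mul_le_mul_of_nonneg_left hKr (by positivity)
    have hbase : (1:ℝ) ≤ ((1024 * R ^ 6 : ℕ) : ℝ) := by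
      have : 1 ≤ 1024 * R ^ 6 := by
        have : 1 ≤ R ^ 6 := Nat.one_le_pow _ _ hR
        omega
      exact_mod_cast this
    calc ((1024 * R ^ 6 : ℕ) : ℝ) ^ ((2:ℝ) / ((K:ℝ) - 2)) ≤ ((1024 * R ^ 6 : ℕ) : ℝ) ^ (ε / 12) :=
          Real.rpow_le_rpow_of_exponent_le hbase hexp
      _ = CE * u ^ 56 := by
          push_cast
          rw [Real.mul_rpow (by norm_num) (by positivity), hupow 56, ← Real.rpow_natCast (R:ℝ) 6,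
            ← Real.rpow_mul hr0.le]
          congr 2
          rw [hη]; push_cast; ring
  have hu56 : 1 ≤ CE * u ^ 56 := by
    have : 1 ≤ u ^ 56 := one_le_pow₀ hu1
    nlinarith
  have hT0 : (0:ℝ) ≤ T := by positivity
  have hF : 24 + 224 * (K:ℝ) ^ 3 * (K.factorial : ℝ) ^ 3 *
      ((1024 * R ^ 6 : ℕ) : ℝ) ^ ((2:ℝ) / ((K:ℝ) - 2)) ≤
      (24 + 224 * (K:ℝ) ^ 3 * (K.factorial : ℝ) ^ 3) * CE * u ^ 56 := by
    have h1 : 224 * (K:ℝ) ^ 3 * (K.factorial : ℝ) ^ 3 *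
      ((1024 * R ^ 6 : ℕ) : ℝ) ^ ((2:ℝ) / ((K:ℝ) - 2)) ≤
      224 * (K:ℝ) ^ 3 * (K.factorial : ℝ) ^ 3 * (CE * u ^ 56) :=
      mul_le_mul_of_nonneg_left hEle (by positivity)
    have h2 : (24:ℝ) ≤ 24 * (CE * u ^ 56) := by linarith
    calc 24 + 224 * (K:ℝ) ^ 3 * (K.factorial : ℝ) ^ 3 *
      ((1024 * R ^ 6 : ℕ) : ℝ) ^ ((2:ℝ) / ((K:ℝ) - 2)) ≤ 24 * (CE * u ^ 56) +
        224 * (K:ℝ) ^ 3 * (K.factorial : ℝ) ^ 3 * (CE * u ^ 56) := add_le_add h2 h1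
      _ = _ := by ring
  have hA : 61236 * (T:ℝ) ^ 3 * R ^ 4 ≤ 61236 * CT ^ 3 * (u ^ 112 * (R:ℝ) ^ 4) := by
    have h1 : (T:ℝ) ^ 3 ≤ (CT * u ^ 6) ^ 3 := pow_le_pow_left₀ hT0 hTle 3
    have h2 : u ^ 18 ≤ u ^ 112 := pow_le_pow_right₀ hu1 (by norm_num)
    calc 61236 * (T:ℝ) ^ 3 * R ^ 4 ≤ 61236 * (CT * u ^ 6) ^ 3 * R ^ 4 := by gcongr
      _ = 61236 * CT ^ 3 * (u ^ 18 * (R:ℝ) ^ 4) := by ring
      _ ≤ 61236 * CT ^ 3 * (u ^ 112 * (R:ℝ) ^ 4) := by gcongr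
  have hB : ((K:ℝ) + 1) * (2808 * (T:ℝ) ^ 8 * ((K + 1) * (2 * R)) ^ 2 *
      (((Nat.log 2 ⌊2 * (((K:ℝ) + 1) * (2 * (R:ℝ))) ^ 2⌋₊ : ℕ) : ℝ) + 1) *
      ((24 + 224 * (K:ℝ) ^ 3 * (K.factorial : ℝ) ^ 3 *
        ((1024 * R ^ 6 : ℕ) : ℝ) ^ ((2:ℝ) / ((K:ℝ) - 2))) * (516 * T * (8 * R ^ 2)))) ≤
      ((K:ℝ) + 1) * (2808 * (CT * u ^ 6) ^ 8 * ((K + 1) * (2 * R)) ^ 2 * (CL * u ^ 2) *
      (((24 + 224 * (K:ℝ) ^ 3 * (K.factorial : ℝ) ^ 3) * CE * u ^ 56) *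
        (516 * (CT * u ^ 6) * (8 * R ^ 2)))) := by
    gcongr
  have hfin : (u ^ 112 * (R:ℝ) ^ 4) = (R:ℝ) ^ (4 + ε) := by
    rw [hupow 112, ← Real.rpow_natCast (R:ℝ) 4, ← Real.rpow_add hr0]
    congr 1
    rw [hη]; push_cast; ring
  rw [← hfin]
  have e : CC * (u ^ 112 * (R:ℝ) ^ 4) = 61236 * CT ^ 3 * (u ^ 112 * (R:ℝ) ^ 4) +
      ((K:ℝ) + 1) * (2808 * (CT * u ^ 6) ^ 8 * ((K + 1) * (2 * R)) ^ 2 * (CL * u ^ 2) *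
      (((24 + 224 * (K:ℝ) ^ 3 * (K.factorial : ℝ) ^ 3) * CE * u ^ 56) *
        (516 * (CT * u ^ 6) * (8 * R ^ 2)))) := by
    rw [hCC]; ring
  rw [e]
  linarith

end Pool.Agent.E8helper43.SL
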