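import Mathlib

set_option autoImplicit false

namespace Pool.Agent.E8helper43.SL

/-- two solutions of `p Y^2 + q Z^2 = 0 (mod n)` with the same invariants relative to a base
solution are `2B`-orthogonal modulo `n` -/
theorem key (n : ℤ) (hn : 0 < n) (p q Y0 Z0 Y1 Z1 Y2 Z2 : ℤ)
    (e0 : n ∣ p * Y0 ^ 2 + q * Z0 ^ 2) (e1 : n ∣ p * Y1 ^ 2 + q * Z1 ^ 2)
    (e2 : n ∣ p * Y2 ^ 2 + q * Z2 ^ 2)
    (h1 : Int.gcd n (p * Y1 ^ 2) = Int.gcd n (p * Y0 ^ 2))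
    (h2 : Int.gcd n (p * Y2 ^ 2) = Int.gcd n (p * Y0 ^ 2))
    (hg : Int.gcd n (p * Y0 * Y1 + q * Z0 * Z1) = Int.gcd n (p * Y0 * Y2 + q * Z0 * Z2)) :
    n ∣ 2 * (p * Y1 * Y2 + q * Z1 * Z2) := by
  set h : ℤ := (Int.gcd n (p * Y0 ^ 2) : ℤ) with hh
  have hpos : 0 < h := by
    have : 0 < Int.gcd n (p * Y0 ^ 2) := Int.gcd_pos_of_ne_zero_left _ hn.ne'
    rw [hh]; exact_mod_cast this
  have hne : h ≠ 0 := hpos.ne'
  -- general facts for one solution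
  have fact : ∀ Y Z : ℤ, n ∣ p * Y ^ 2 + q * Z ^ 2 → (Int.gcd n (p * Y ^ 2) : ℤ) = h →
      ∃ N μ ν : ℤ, n = h * N ∧ p * Y ^ 2 = h * μ ∧ q * Z ^ 2 = h * ν ∧ IsCoprime N μ ∧
        N ∣ μ + ν := by
    intro Y Z e hY
    have hgp : 0 < Int.gcd n (p * Y ^ 2) := Int.gcd_pos_of_ne_zero_left _ hn.ne'
    obtain ⟨N, hN⟩ : h ∣ n := by rw [← hY]; exact Int.gcd_dvd_left _ _
    obtain ⟨μ, hμ⟩ : h ∣ p * Y ^ 2 := by rw [← hY]; exact Int.gcd_dvd_right _ _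
    obtain ⟨ν, hν⟩ : h ∣ q * Z ^ 2 := by
      have : h ∣ p * Y ^ 2 + q * Z ^ 2 := (Dvd.intro _ hN.symm).trans e
      rw [hμ] at this
      exact (Int.dvd_add_right (Dvd.intro _ rfl)).1 this
    refine ⟨N, μ, ν, hN, hμ, hν, ?_, ?_⟩
    · rw [Int.isCoprime_iff_gcd_eq_one]
      have : (Int.gcd (h * N) (h * μ) : ℤ) = h := by rw [← hN, ← hμ]; exact hY
      rw [Int.gcd_mul_left] at this
      push_cast at this
      rw [abs_of_pos hpos] at this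
      have : (Int.gcd N μ : ℤ) = 1 := by
        have h4 : h * (Int.gcd N μ : ℤ) = h * 1 := by rw [this, mul_one]
        exact mul_left_cancel₀ hne h4
      exact_mod_cast this
    · rw [hN, hμ, hν, ← mul_add] at e
      exact (mul_dvd_mul_iff_left hne).1 e
  obtain ⟨N, μ0, ν0, hN, hμ0, hν0, cop, d0⟩ := fact Y0 Z0 e0 rfl
  obtain ⟨N', μ1, ν1, hN', hμ1, hν1, -, d1⟩ := fact Y1 Z1 e1 (by rw [h1])
  obtain ⟨N'', μ2, ν2, hN'', hμ2, hν2, -, d2⟩ := fact Y2 Z2 e2 (by rw [h2])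
  have eN' : N' = N := mul_left_cancel₀ hne (hN'.symm.trans hN)
  have eN'' : N'' = N := mul_left_cancel₀ hne (hN''.symm.trans hN)
  rw [eN'] at d1; rw [eN''] at d2
  have dv : ∀ u a b : ℤ, u ^ 2 = (h * a) * (h * b) → ∃ U, u = h * U := by
    intro u a b hu
    have : h ^ 2 ∣ u ^ 2 := ⟨a * b, by rw [hu]; ring⟩
    have := (Int.pow_dvd_pow_iff (by norm_num)).1 this
    exact this
  obtain ⟨U1, hU1⟩ := dv (p * Y0 * Y1) μ0 μ1 (by rw [← hμ0, ← hμ1]; ring)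
  obtain ⟨U2, hU2⟩ := dv (p * Y0 * Y2) μ0 μ2 (by rw [← hμ0, ← hμ2]; ring)
  obtain ⟨U3, hU3⟩ := dv (p * Y1 * Y2) μ1 μ2 (by rw [← hμ1, ← hμ2]; ring)
  obtain ⟨V1, hV1⟩ := dv (q * Z0 * Z1) ν0 ν1 (by rw [← hν0, ← hν1]; ring)
  obtain ⟨V2, hV2⟩ := dv (q * Z0 * Z2) ν0 ν2 (by rw [← hν0, ← hν2]; ring)
  obtain ⟨V3, hV3⟩ := dv (q * Z1 * Z2) ν1 ν2 (by rw [← hν1, ← hν2]; ring)
  have hh2 : h ^ 2 ≠ 0 := pow_ne_zero _ hne
  have cU : U1 * U2 = μ0 * U3 := by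
    apply mul_left_cancel₀ hh2
    calc h ^ 2 * (U1 * U2) = (h * U1) * (h * U2) := by ring
      _ = (p * Y0 ^ 2) * (p * Y1 * Y2) := by rw [← hU1, ← hU2]; ring
      _ = _ := by rw [hμ0, hU3]; ring
  have cV : V1 * V2 = ν0 * V3 := by
    apply mul_left_cancel₀ hh2
    calc h ^ 2 * (V1 * V2) = (h * V1) * (h * V2) := by ring
      _ = (q * Z0 ^ 2) * (q * Z1 * Z2) := by rw [← hV1, ← hV2]; ring
      _ = _ := by rw [hν0, hV3]; ring
  have sU1 : U1 ^ 2 = μ0 * μ1 := by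
    apply mul_left_cancel₀ hh2
    calc h ^ 2 * U1 ^ 2 = (h * U1) ^ 2 := by ring
      _ = (p * Y0 ^ 2) * (p * Y1 ^ 2) := by rw [← hU1]; ring
      _ = _ := by rw [hμ0, hμ1]; ring
  have sU2 : U2 ^ 2 = μ0 * μ2 := by
    apply mul_left_cancel₀ hh2
    calc h ^ 2 * U2 ^ 2 = (h * U2) ^ 2 := by ring
      _ = (p * Y0 ^ 2) * (p * Y2 ^ 2) := by rw [← hU2]; ring
      _ = _ := by rw [hμ0, hμ2]; ring
  have sV1 : V1 ^ 2 = ν0 * ν1 := by
    apply mul_left_cancel₀ hh2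
    calc h ^ 2 * V1 ^ 2 = (h * V1) ^ 2 := by ring
      _ = (q * Z0 ^ 2) * (q * Z1 ^ 2) := by rw [← hV1]; ring
      _ = _ := by rw [hν0, hν1]; ring
  have sV2 : V2 ^ 2 = ν0 * ν2 := by
    apply mul_left_cancel₀ hh2
    calc h ^ 2 * V2 ^ 2 = (h * V2) ^ 2 := by ring
      _ = (q * Z0 ^ 2) * (q * Z2 ^ 2) := by rw [← hV2]; ring
      _ = _ := by rw [hν0, hν2]; ring
  -- products
  have hNpos : 0 < N := by
    have : 0 < h * N := hN ▸ hn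
    exact (mul_pos_iff_of_pos_left hpos).1 this
  have pr : ∀ U V μ ν : ℤ, U ^ 2 = μ0 * μ → V ^ 2 = ν0 * ν → N ∣ μ + ν →
      N ∣ (U + V) * (U - V) := by
    intro U V μ ν a b c
    have : (U + V) * (U - V) = μ0 * (μ + ν) - ν * (μ0 + ν0) := by
      have : (U + V) * (U - V) = U ^ 2 - V ^ 2 := by ring
      rw [this, a, b]; ring
    rw [this]
    exact dvd_sub (Dvd.dvd.mul_left c _) (Dvd.dvd.mul_left d0 _)
  have p1 := pr U1 V1 μ1 ν1 sU1 sV1 d1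
  have p2 := pr U2 V2 μ2 ν2 sU2 sV2 d2
  have g1 : (Int.gcd n (p * Y0 * Y1 + q * Z0 * Z1)) = h.natAbs * Int.gcd N (U1 + V1) := by
    rw [hU1, hV1, hN, ← mul_add, Int.gcd_mul_left]
  have g2 : (Int.gcd n (p * Y0 * Y2 + q * Z0 * Z2)) = h.natAbs * Int.gcd N (U2 + V2) := by
    rw [hU2, hV2, hN, ← mul_add, Int.gcd_mul_left]
  have geq : Int.gcd N (U1 + V1) = Int.gcd N (U2 + V2) := by
    rw [g1, g2] at hg
    exact Nat.eq_of_mul_eq_mul_left (Int.natAbs_pos.2 hne) hg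
  set g : ℤ := (Int.gcd N (U1 + V1) : ℤ) with hgdef
  have gpos : 0 < g := by
    have : 0 < Int.gcd N (U1 + V1) := Int.gcd_pos_of_ne_zero_left _ hNpos.ne'
    rw [hgdef]; exact_mod_cast this
  obtain ⟨M, hM⟩ : g ∣ N := Int.gcd_dvd_left _ _
  have star : ∀ U V : ℤ, (Int.gcd N (U + V) : ℤ) = g → N ∣ (U + V) * (U - V) → M ∣ U - V := by
    intro U V hgg hd
    obtain ⟨b, hb⟩ : g ∣ U + V := by rw [← hgg]; exact Int.gcd_dvd_right _ _
    have hc : IsCoprime M b := by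
      rw [Int.isCoprime_iff_gcd_eq_one]
      have : (Int.gcd (g * M) (g * b) : ℤ) = g := by rw [← hM, ← hb]; exact hgg
      rw [Int.gcd_mul_left] at this
      push_cast at this
      rw [abs_of_pos gpos] at this
      have : (Int.gcd M b : ℤ) = 1 := by
        have h4 : g * (Int.gcd M b : ℤ) = g * 1 := by rw [this, mul_one]
        exact mul_left_cancel₀ gpos.ne' h4
      exact_mod_cast this
    rw [hM, hb, mul_assoc] at hd
    have := (mul_dvd_mul_iff_left gpos.ne').1 hd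
    exact hc.dvd_of_dvd_mul_left this
  have s1 := star U1 V1 rfl p1
  have s2 := star U2 V2 (by rw [hgdef, geq]) p2
  have t1 : g ∣ U1 + V1 := Int.gcd_dvd_right _ _
  have t2 : g ∣ U2 + V2 := by rw [hgdef, geq]; exact Int.gcd_dvd_right _ _
  have w1 : N ∣ (U1 + V1) * (U2 - V2) := by rw [hM]; exact mul_dvd_mul t1 s2
  have w2 : N ∣ (U2 + V2) * (U1 - V1) := by rw [hM]; exact mul_dvd_mul t2 s1
  have w3 : N ∣ μ0 * (2 * (U3 + V3)) := by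
    have : μ0 * (2 * (U3 + V3)) = (U1 + V1) * (U2 - V2) + (U2 + V2) * (U1 - V1)
        + (2 * V3) * (μ0 + ν0) := by
      have : (U1 + V1) * (U2 - V2) + (U2 + V2) * (U1 - V1) = 2 * (U1 * U2) - 2 * (V1 * V2) := by
        ring
      rw [this, cU, cV]; ring
    rw [this]
    exact dvd_add (dvd_add w1 w2) (Dvd.dvd.mul_left d0 _)
  have w4 : N ∣ 2 * (U3 + V3) := cop.dvd_of_dvd_mul_left w3
  rw [hU3, hV3, hN]
  have : 2 * (h * U3 + h * V3) = h * (2 * (U3 + V3)) := by ring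
  rw [this]
  exact mul_dvd_mul_left h w4

end Pool.Agent.E8helper43.SL
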