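import Pool.Agent.E8helper43.SL.Sep
import Pool.Agent.E8helper43.SL.Key

set_option autoImplicit false

namespace Pool.Agent.E8helper43.SL

open Finset

/-- invariants separating the classes of solutions of a binary quadratic congruence -/
theorem class_fun {ι : Type*} (S : Finset ι) (n : ℤ) (hn : 0 < n) (p q : ℤ) (Y Z : ι → ℤ)
    (e : ∀ x ∈ S, n ∣ p * (Y x) ^ 2 + q * (Z x) ^ 2) :
    ∃ f : ι → ℕ × ℕ, (∀ x ∈ S, f x ∈ n.natAbs.divisors ×ˢ n.natAbs.divisors) ∧
      ∀ x ∈ S, ∀ y ∈ S, f x = f y → n ∣ 2 * (p * Y x * Y y + q * Z x * Z y) := by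
  classical
  -- base points
  have hb : ∀ h : ℕ, ∃ b : ι → Prop, True := fun _ => ⟨fun _ => True, trivial⟩
  let base : ℕ → ℤ × ℤ := fun h =>
    if H : ∃ x ∈ S, Int.gcd n (p * (Y x) ^ 2) = h then (Y H.choose, Z H.choose) else (0, 0)
  have hbase : ∀ x ∈ S, ∃ b ∈ S, Int.gcd n (p * (Y b) ^ 2) = Int.gcd n (p * (Y x) ^ 2) ∧
      base (Int.gcd n (p * (Y x) ^ 2)) = (Y b, Z b) := by
    intro x hx
    have H : ∃ y ∈ S, Int.gcd n (p * (Y y) ^ 2) = Int.gcd n (p * (Y x) ^ 2) := ⟨x, hx, rfl⟩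
    refine ⟨H.choose, H.choose_spec.1, H.choose_spec.2, ?_⟩
    simp only [base]
    rw [dif_pos H]
  refine ⟨fun x => (Int.gcd n (p * (Y x) ^ 2),
    Int.gcd n (p * (base (Int.gcd n (p * (Y x) ^ 2))).1 * Y x +
      q * (base (Int.gcd n (p * (Y x) ^ 2))).2 * Z x)), ?_, ?_⟩
  · intro x _
    rw [Finset.mem_product]
    have hne : n.natAbs ≠ 0 := Int.natAbs_ne_zero.2 hn.ne'
    refine ⟨Nat.mem_divisors.2 ⟨?_, hne⟩, Nat.mem_divisors.2 ⟨?_, hne⟩⟩
    · exact Int.gcd_dvd_natAbs_left _ _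
    · exact Int.gcd_dvd_natAbs_left _ _
  · intro x hx y hy hxy
    obtain ⟨h1, h2⟩ := Prod.mk.inj hxy
    obtain ⟨b, hbS, hb1, hb2⟩ := hbase x hx
    rw [← h1] at h2
    rw [hb2] at h2
    simp only at h2
    exact key n hn p q (Y b) (Z b) (Y x) (Z x) (Y y) (Z y) (e b hbS) (e x hx) (e y hy)
      hb1.symm (by rw [← h1]; exact hb1.symm) h2

/-- points on a conic `α x² + β y² = γ z²` -/
theorem conic_class {ι : Type*} (S : Finset ι) (x y z : ι → ℤ) (α β γ : ℤ) (hα : 0 < α)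
    (hβ : 0 < β) (hγ : 0 < γ) (T L : ℝ) (hT : 0 < T) (hL : 0 < L)
    (hS : ∀ i ∈ S, α * x i ^ 2 + β * y i ^ 2 = γ * z i ^ 2)
    (hz : ∀ i ∈ S, 0 < z i) (hzT : ∀ i ∈ S, (z i : ℝ) ≤ T)
    (hnp : ∀ i ∈ S, ∀ j ∈ S, i ≠ j → ¬ (x i * z j = x j * z i ∧ y i * z j = y j * z i))
    (hB : ∀ i ∈ S, ∀ j ∈ S, i ≠ j → α * x i * x j + β * y i * y j - γ * z i * z j ≠ 0 →
      L ≤ |2 * ((α * x i * x j + β * y i * y j - γ * z i * z j : ℤ) : ℝ)|) :
    (S.card : ℝ) ≤ 12 * T * Real.sqrt (γ / L) + 4 := by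
  have hα' : (0:ℝ) < α := by exact_mod_cast hα
  have hβ' : (0:ℝ) < β := by exact_mod_cast hβ
  have hγ' : (0:ℝ) < γ := by exact_mod_cast hγ
  set δ : ℝ := Real.sqrt (L / γ) / T with hδ
  have hδ0 : 0 < δ := by rw [hδ]; positivity
  have hmain := circ S (fun i => Real.sqrt (α / γ) * ((x i : ℝ) / z i))
    (fun i => Real.sqrt (β / γ) * ((y i : ℝ) / z i)) δ hδ0 ?_ ?_
  · refine hmain.trans (le_of_eq ?_)
    congr 1
    rw [hδ, Real.sqrt_div hL.le, Real.sqrt_div hγ'.le]
    have h1 : Real.sqrt L ≠ 0 := (Real.sqrt_pos.2 hL).ne'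
    have h2 : Real.sqrt (γ : ℝ) ≠ 0 := (Real.sqrt_pos.2 hγ').ne'
    field_simp
  · intro i hi
    have hzi : (0:ℝ) < z i := by exact_mod_cast hz i hi
    have h1 : (α:ℝ) * x i ^ 2 + β * y i ^ 2 = γ * z i ^ 2 := by exact_mod_cast hS i hi
    rw [mul_pow, mul_pow, Real.sq_sqrt (by positivity), Real.sq_sqrt (by positivity)]
    field_simp
    linarith
  · intro i hi j hj hij
    have hzi : (0:ℝ) < z i := by exact_mod_cast hz i hi
    have hzj : (0:ℝ) < z j := by exact_mod_cast hz j hj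
    have e1 := hS i hi
    have e2 := hS j hj
    set B : ℤ := α * x i * x j + β * y i * y j - γ * z i * z j with hBdef
    have hid : α * (x i * z j - x j * z i) ^ 2 + β * (y i * z j - y j * z i) ^ 2
        = - (2 * z i * z j * B) := by
      have : α * (x i * z j - x j * z i) ^ 2 + β * (y i * z j - y j * z i) ^ 2
        = (α * x i ^ 2 + β * y i ^ 2) * z j ^ 2 + (α * x j ^ 2 + β * y j ^ 2) * z i ^ 2
          - 2 * z i * z j * (α * x i * x j + β * y i * y j) := by ring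
      rw [this, e1, e2, hBdef]; ring
    have hpos : 0 < α * (x i * z j - x j * z i) ^ 2 + β * (y i * z j - y j * z i) ^ 2 := by
      by_contra hcon
      push Not at hcon
      have a1 : 0 ≤ α * (x i * z j - x j * z i) ^ 2 := by positivity
      have a2 : 0 ≤ β * (y i * z j - y j * z i) ^ 2 := by positivity
      have b1 : α * (x i * z j - x j * z i) ^ 2 = 0 := by linarith
      have b2 : β * (y i * z j - y j * z i) ^ 2 = 0 := by linarith
      have c1 : x i * z j - x j * z i = 0 := by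
        rcases mul_eq_zero.1 b1 with h | h
        · exact absurd h hα.ne'
        · exact pow_eq_zero_iff (by norm_num) |>.1 h
      have c2 : y i * z j - y j * z i = 0 := by
        rcases mul_eq_zero.1 b2 with h | h
        · exact absurd h hβ.ne'
        · exact pow_eq_zero_iff (by norm_num) |>.1 h
      exact hnp i hi j hj hij ⟨by linarith, by linarith⟩
    have hBne : B ≠ 0 := by
      intro h0
      rw [hid, h0] at hpos
      simp at hpos
    have hLB := hB i hi j hj hij hBne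
    have hBneg : (B:ℝ) < 0 := by
      have : B < 0 := by
        rw [hid] at hpos
        have h3 : 0 < 2 * z i * z j := by
          have := hz i hi; have := hz j hj; positivity
        nlinarith
      exact_mod_cast this
    have hLB' : L ≤ - (2 * (B:ℝ)) := by
      rw [abs_of_neg (by linarith)] at hLB; exact hLB
    have hidR : (α:ℝ) * (x i * z j - x j * z i) ^ 2 + β * (y i * z j - y j * z i) ^ 2
        = - (2 * z i * z j * B) := by exact_mod_cast hid
    have hδ2 : δ ^ 2 = L / γ / T ^ 2 := by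
      rw [hδ, div_pow, Real.sq_sqrt (by positivity)]
    have e3 : (Real.sqrt (α / γ) * ((x i : ℝ) / z i) - Real.sqrt (α / γ) * ((x j : ℝ) / z j)) ^ 2 +
        (Real.sqrt (β / γ) * ((y i : ℝ) / z i) - Real.sqrt (β / γ) * ((y j : ℝ) / z j)) ^ 2
        = (α * (x i * z j - x j * z i) ^ 2 + β * (y i * z j - y j * z i) ^ 2)
          / (γ * (z i ^ 2 * z j ^ 2)) := by
      rw [← mul_sub, ← mul_sub, mul_pow, mul_pow, Real.sq_sqrt (by positivity),
        Real.sq_sqrt (by positivity)]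
      field_simp
    rw [e3, hidR, hδ2]
    have hz1 := hzT i hi
    have hz2 := hzT j hj
    have h5 : (z i : ℝ) * z j ≤ T ^ 2 := by nlinarith
    have h6 : L * (z i * z j) ≤ - (2 * z i * z j * B) := by nlinarith [mul_pos hzi hzj]
    rw [div_div, div_le_div_iff₀ (by positivity) (by positivity)]
    calc L * (γ * ((z i:ℝ) ^ 2 * z j ^ 2)) = γ * (z i * z j) * (L * (z i * z j)) := by ring
      _ ≤ γ * (z i * z j) * (- (2 * z i * z j * B)) := by
          apply mul_le_mul_of_nonneg_left h6; positivity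
      _ ≤ γ * T ^ 2 * (- (2 * z i * z j * B)) := by
          apply mul_le_mul_of_nonneg_right
          · apply mul_le_mul_of_nonneg_left h5 hγ'.le
          · exact (mul_nonneg hL.le (mul_pos hzi hzj).le).trans h6
      _ = - (2 * z i * z j * B) * (γ * T ^ 2) := by ring

/-- number of (pairwise non-proportional) solutions of a diagonal conic -/
theorem conic_count {ι : Type*} (S : Finset ι) (x y z : ι → ℤ) (α β γ : ℤ) (hα : 0 < α)
    (hβ : 0 < β) (hγ : 0 < γ) (T L : ℝ) (hT : 0 < T) (hL : 0 < L)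
    (hLl : ∀ m : ℤ, m ≠ 0 → α ∣ m → β ∣ m → γ ∣ m → L ≤ |(m : ℝ)|)
    (hS : ∀ i ∈ S, α * x i ^ 2 + β * y i ^ 2 = γ * z i ^ 2)
    (hz : ∀ i ∈ S, 0 < z i) (hzT : ∀ i ∈ S, (z i : ℝ) ≤ T)
    (hnp : ∀ i ∈ S, ∀ j ∈ S, i ≠ j → ¬ (x i * z j = x j * z i ∧ y i * z j = y j * z i)) :
    (S.card : ℝ) ≤ ((α.natAbs.divisors.card : ℝ) * (β.natAbs.divisors.card) *
      (γ.natAbs.divisors.card)) ^ 2 * (12 * T * Real.sqrt (γ / L) + 4) := by
  classical
  obtain ⟨f1, hf1, hf1'⟩ := class_fun S α hα β (-γ) y z (fun i hi => by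
    have := hS i hi
    refine ⟨- x i ^ 2, ?_⟩; linarith)
  obtain ⟨f2, hf2, hf2'⟩ := class_fun S β hβ α (-γ) x z (fun i hi => by
    have := hS i hi
    refine ⟨- y i ^ 2, ?_⟩; linarith)
  obtain ⟨f3, hf3, hf3'⟩ := class_fun S γ hγ α β x y (fun i hi => by
    have := hS i hi
    refine ⟨z i ^ 2, ?_⟩; linarith)
  set F : ι → (ℕ × ℕ) × (ℕ × ℕ) × (ℕ × ℕ) := fun i => (f1 i, f2 i, f3 i) with hF
  set D : Finset ((ℕ × ℕ) × (ℕ × ℕ) × (ℕ × ℕ)) :=
    (α.natAbs.divisors ×ˢ α.natAbs.divisors) ×ˢ ((β.natAbs.divisors ×ˢ β.natAbs.divisors) ×ˢ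
      (γ.natAbs.divisors ×ˢ γ.natAbs.divisors)) with hD
  have hmap : ∀ i ∈ S, F i ∈ D := by
    intro i hi
    rw [hD, Finset.mem_product]
    refine ⟨hf1 i hi, ?_⟩
    rw [Finset.mem_product]
    exact ⟨hf2 i hi, hf3 i hi⟩
  have hsum := Finset.card_eq_sum_card_fiberwise (f := F) (s := S) (t := D) hmap
  have hfib : ∀ a ∈ D, (((S.filter (fun i => F i = a)).card : ℕ) : ℝ) ≤
      12 * T * Real.sqrt (γ / L) + 4 := by
    intro a _
    apply conic_class (S.filter (fun i => F i = a)) x y z α β γ hα hβ hγ T L hT hL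
    · intro i hi; exact hS i (Finset.mem_filter.1 hi).1
    · intro i hi; exact hz i (Finset.mem_filter.1 hi).1
    · intro i hi; exact hzT i (Finset.mem_filter.1 hi).1
    · intro i hi j hj; exact hnp i (Finset.mem_filter.1 hi).1 j (Finset.mem_filter.1 hj).1
    · intro i hi j hj hij hne
      obtain ⟨hi1, hi2⟩ := Finset.mem_filter.1 hi
      obtain ⟨hj1, hj2⟩ := Finset.mem_filter.1 hj
      have heq : F i = F j := hi2.trans hj2.symm
      simp only [hF, Prod.mk.injEq] at heq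
      obtain ⟨q1, q2, q3⟩ := heq
      have d1 := hf1' i hi1 j hj1 q1
      have d2 := hf2' i hi1 j hj1 q2
      have d3 := hf3' i hi1 j hj1 q3
      have := hLl (2 * (α * x i * x j + β * y i * y j - γ * z i * z j))
        (mul_ne_zero (by norm_num) hne) ?_ ?_ ?_
      · push_cast at this ⊢
        exact this
      · have e : 2 * (α * x i * x j + β * y i * y j - γ * z i * z j) =
            2 * (β * y i * y j + -γ * z i * z j) + α * (2 * x i * x j) := by ring
        rw [e]; exact dvd_add d1 (Dvd.intro _ rfl)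
      · have e : 2 * (α * x i * x j + β * y i * y j - γ * z i * z j) =
            2 * (α * x i * x j + -γ * z i * z j) + β * (2 * y i * y j) := by ring
        rw [e]; exact dvd_add d2 (Dvd.intro _ rfl)
      · have e : 2 * (α * x i * x j + β * y i * y j - γ * z i * z j) =
            2 * (α * x i * x j + β * y i * y j) + γ * (-(2 * z i * z j)) := by ring
        rw [e]; exact dvd_add d3 (Dvd.intro _ rfl)
  have hDcard : (D.card : ℝ) = ((α.natAbs.divisors.card : ℝ) * (β.natAbs.divisors.card) *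
      (γ.natAbs.divisors.card)) ^ 2 := by
    rw [hD]; simp only [Finset.card_product]; push_cast; ring
  calc (S.card : ℝ) = ∑ a ∈ D, (((S.filter (fun i => F i = a)).card : ℕ) : ℝ) := by
        exact_mod_cast hsum
    _ ≤ ∑ _a ∈ D, (12 * T * Real.sqrt (γ / L) + 4) := Finset.sum_le_sum hfib
    _ = D.card * (12 * T * Real.sqrt (γ / L) + 4) := by rw [Finset.sum_const, nsmul_eq_mul]
    _ = _ := by rw [hDcard]

end Pool.Agent.E8helper43.SL
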