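import Pool.Agent.E8helper43.SL.Frame

set_option autoImplicit false

namespace Pool.Agent.E8helper43.SL

open Finset

theorem wcore (a1 a2 a3 c1 c2 c3 p1 p2 p3 q1 q2 q3 : ℤ)
    (hD : a1 * c2 - a2 * c1 ≠ 0)
    (E11 : a1 * q1 - p1 * c1 = 0) (E22 : a2 * q2 - p2 * c2 = 0)
    (E12 : a1 * q2 + a2 * q1 - p1 * c2 - p2 * c1 = 0)
    (E13 : a1 * q3 + a3 * q1 - p1 * c3 - p3 * c1 = 0)
    (E23 : a2 * q3 + a3 * q2 - p2 * c3 - p3 * c2 = 0) :
    ∃ μ : ℤ, ((a1 * c2 - a2 * c1) * p1 = μ * a1 ∧ (a1 * c2 - a2 * c1) * q1 = μ * c1) ∧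
      ((a1 * c2 - a2 * c1) * p2 = μ * a2 ∧ (a1 * c2 - a2 * c1) * q2 = μ * c2) ∧
      ((a1 * c2 - a2 * c1) * p3 = μ * a3 ∧ (a1 * c2 - a2 * c1) * q3 = μ * c3) := by
  have h1 : (a1 * c2 - a2 * c1) * p1 = (p1 * c2 - q1 * a2) * a1 := by
    linear_combination a2 * E11
  have h2 : (a1 * c2 - a2 * c1) * q1 = (p1 * c2 - q1 * a2) * c1 := by
    linear_combination c2 * E11
  have h3 : (a1 * c2 - a2 * c1) * p2 = (p1 * c2 - q1 * a2) * a2 := by
    linear_combination (-a1) * E22 + a2 * E12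
  have h4 : (a1 * c2 - a2 * c1) * q2 = (p1 * c2 - q1 * a2) * c2 := by
    linear_combination (-c1) * E22 + c2 * E12
  refine ⟨p1 * c2 - q1 * a2, ⟨h1, h2⟩, ⟨h3, h4⟩, ?_, ?_⟩
  · apply mul_left_cancel₀ hD
    have e1 : (a1 * c2 - a2 * c1) * p3 = (a3 * q2 - p2 * c3) * a1 + (p1 * c3 - a3 * q1) * a2 := by
      linear_combination (-a1) * E23 + a2 * E13
    have e2 : (a1 * c2 - a2 * c1) * ((a1 * c2 - a2 * c1) * p3) =
        (a3 * ((a1 * c2 - a2 * c1) * q2) - ((a1 * c2 - a2 * c1) * p2) * c3) * a1 +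
        (((a1 * c2 - a2 * c1) * p1) * c3 - a3 * ((a1 * c2 - a2 * c1) * q1)) * a2 := by
      rw [e1]; ring
    rw [e2, h1, h2, h3, h4]; ring
  · apply mul_left_cancel₀ hD
    have e1 : (a1 * c2 - a2 * c1) * q3 = (a3 * q2 - p2 * c3) * c1 + (p1 * c3 - a3 * q1) * c2 := by
      linear_combination (-c1) * E23 + c2 * E13
    have e2 : (a1 * c2 - a2 * c1) * ((a1 * c2 - a2 * c1) * q3) =
        (a3 * ((a1 * c2 - a2 * c1) * q2) - ((a1 * c2 - a2 * c1) * p2) * c3) * c1 +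
        (((a1 * c2 - a2 * c1) * p1) * c3 - a3 * ((a1 * c2 - a2 * c1) * q1)) * c2 := by
      rw [e1]; ring
    rw [e2, h1, h2, h3, h4]; ring

theorem fin3_ne12 : ∀ i : Fin 3, i + 1 ≠ i + 2 := by decide
theorem fin3_ne10 : ∀ i : Fin 3, i + 1 ≠ i := by decide
theorem fin3_ne20 : ∀ i : Fin 3, i + 2 ≠ i := by decide

theorem fin3_sum (i : Fin 3) (f : Fin 3 → ℤ) : f 0 + f 1 + f 2 = f (i + 1) + f (i + 2) + f i := by
  fin_cases i
  · show f 0 + f 1 + f 2 = f 1 + f 2 + f 0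
    ring
  · show f 0 + f 1 + f 2 = f 2 + f 0 + f 1
    ring
  · show f 0 + f 1 + f 2 = f 0 + f 1 + f 2
    ring

/-- two completions of the same first columns differ by a half-integral multiple -/
theorem wdiff {a b c d b' d' s : Fin 3 → ℤ} (h : Frame a b c d s) (h' : Frame a b' c d' s)
    (hne : cr a c ≠ 0) :
    ∃ m : ℤ, ∀ i, 2 * (b i - b' i) = m * a i ∧ 2 * (d i - d' i) = m * c i := by
  obtain ⟨i, hi⟩ := Function.ne_iff.1 hne
  have hi' : a (i + 1) * c (i + 2) - a (i + 2) * c (i + 1) ≠ 0 := hi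
  have n12 : i + 1 ≠ i + 2 := fin3_ne12 i
  have n10 : i + 1 ≠ i := fin3_ne10 i
  have n20 : i + 2 ≠ i := fin3_ne20 i
  have S := fun j => sub_eq_zero.2 ((h.hs j).trans (h'.hs j).symm)
  have O := fun j k hjk => sub_eq_zero.2 ((h.ho j k hjk).trans (h'.ho j k hjk).symm)
  obtain ⟨μ, ⟨k1, k2⟩, ⟨k3, k4⟩, k5, k6⟩ := wcore (a (i + 1)) (a (i + 2)) (a i) (c (i + 1))
    (c (i + 2)) (c i) (b (i + 1) - b' (i + 1)) (b (i + 2) - b' (i + 2)) (b i - b' i)
    (d (i + 1) - d' (i + 1)) (d (i + 2) - d' (i + 2)) (d i - d' i) hi'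
    (by linear_combination S (i + 1)) (by linear_combination S (i + 2))
    (by linear_combination O (i + 1) (i + 2) n12) (by linear_combination O (i + 1) i n10)
    (by linear_combination O (i + 2) i n20)
  obtain ⟨α, β, γ, δ, e1, e2, -, e4, -⟩ := h.hd
  have hall : ∀ j, (a (i + 1) * c (i + 2) - a (i + 2) * c (i + 1)) * (b j - b' j) = μ * a j ∧
      (a (i + 1) * c (i + 2) - a (i + 2) * c (i + 1)) * (d j - d' j) = μ * c j := by
    intro j
    rcases fin3_split i j with hj | hj | hj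
    · rw [hj]; exact ⟨k5, k6⟩
    · rw [hj]; exact ⟨k1, k2⟩
    · rw [hj]; exact ⟨k3, k4⟩
  set D := a (i + 1) * c (i + 2) - a (i + 2) * c (i + 1) with hDdef
  set m : ℤ := δ * ((b 0 - b' 0) + (b 1 - b' 1) + (b 2 - b' 2)) -
    β * ((d 0 - d' 0) + (d 1 - d' 1) + (d 2 - d' 2)) with hm
  have hDm : D * m = 2 * μ := by
    rw [hm]
    linear_combination δ * ((hall 0).1 + (hall 1).1 + (hall 2).1) -
      β * ((hall 0).2 + (hall 1).2 + (hall 2).2) + μ * δ * e2 - μ * β * e4 + 2 * μ * e1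
  refine ⟨m, fun j => ⟨?_, ?_⟩⟩
  · apply mul_left_cancel₀ hi'
    linear_combination 2 * (hall j).1 - a j * hDm
  · apply mul_left_cancel₀ hi'
    linear_combination 2 * (hall j).2 - c j * hDm

/-- number of completions of given first columns to a frame with controlled second columns -/
theorem wcount (a c s : Fin 3 → ℤ) (hne : cr a c ≠ 0)
    (S : Finset ((Fin 3 → ℤ) × (Fin 3 → ℤ)))
    (hS : ∀ x ∈ S, Frame a x.1 c x.2 s ∧ ‖x.1‖ ≤ 3 * max ‖a‖ ‖c‖ ∧ ‖x.2‖ ≤ 3 * max ‖a‖ ‖c‖) :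
    (S.card : ℝ) ≤ 13 := by
  -- the coordinate of maximal size
  have hpos : ∀ i, 0 ≤ |(a i : ℝ)| := fun i => abs_nonneg _
  have main : ∀ (f : (Fin 3 → ℤ) × (Fin 3 → ℤ) → ℤ) (v : ℤ), (max ‖a‖ ‖c‖ = |(v : ℝ)|) →
      (∀ x ∈ S, |(f x : ℝ)| ≤ 3 * |(v : ℝ)|) →
      (∀ x ∈ S, ∀ y ∈ S, ∀ m : ℤ, (∀ i, 2 * (x.1 i - y.1 i) = m * a i ∧
        2 * (x.2 i - y.2 i) = m * c i) → 2 * (f x - f y) = m * v) → (S.card : ℝ) ≤ 13 := by
    intro f v hv hf hlin
    have hv0 : (0:ℝ) < |(v : ℝ)| := by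
      rw [← hv]
      by_contra hcon
      push Not at hcon
      apply hne
      have ha : ∀ i, a i = 0 := by
        intro i
        have h1 := (abs_le_norm a i).trans ((le_max_left _ _).trans hcon)
        exact_mod_cast abs_nonpos_iff.1 h1
      funext i
      simp only [cr, ha, zero_mul, sub_self, Pi.zero_apply]
    have := sep_int S f (|(v : ℝ)| / 2) (3 * |(v : ℝ)|) (by positivity) (by positivity) ?_ hf
    · refine this.trans (le_of_eq ?_)
      field_simp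
      norm_num
    · intro x hx y hy hxy
      obtain ⟨m, hm⟩ := wdiff (hS x hx).1 (hS y hy).1 hne
      have h1 := hlin x hx y hy m hm
      have hm0 : m ≠ 0 := by
        intro h0
        apply hxy
        apply Prod.ext
        · funext i
          have := (hm i).1
          rw [h0, zero_mul] at this
          omega
        · funext i
          have := (hm i).2
          rw [h0, zero_mul] at this
          omega
      have h2 : (1:ℝ) ≤ |(m:ℝ)| := by
        have := Int.one_le_abs hm0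
        exact_mod_cast this
      have h3 : 2 * |((f x - f y : ℤ) : ℝ)| = |(m:ℝ)| * |(v:ℝ)| := by
        have : |((2 * (f x - f y) : ℤ) : ℝ)| = |((m * v : ℤ) : ℝ)| := by rw [h1]
        push_cast at this ⊢
        rw [abs_mul, abs_mul] at this
        simpa using this
      nlinarith
  obtain ⟨i, hi, -⟩ := exists_norm_eq a
  obtain ⟨j, hj, -⟩ := exists_norm_eq c
  rcases le_total ‖a‖ ‖c‖ with h | h
  · rw [max_eq_right h] at *
    apply main (fun x => x.2 j) (c j) hj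
    · intro x hx
      rw [← hj]
      exact (abs_le_norm _ _).trans (hS x hx).2.2
    · intro x _ y _ m hm
      exact (hm j).2
  · rw [max_eq_left h] at *
    apply main (fun x => x.1 i) (a i) hi
    · intro x hx
      rw [← hi]
      exact (abs_le_norm _ _).trans (hS x hx).2.1
    · intro x _ y _ m hm
      exact (hm i).1

end Pool.Agent.E8helper43.SL
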