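import Pool.Agent.E8helper43.SL.G0
import Pool.Agent.E8helper43.SL.WCount

set_option autoImplicit false
set_option maxHeartbeats 4000000

namespace Pool.Agent.E8helper43.SL

open Finset

/-- integers dividing `Δ` whose triple gcds divide `H` have a small product -/
theorem prod_triples (T : Finset ℕ) (g : ℕ → ℕ) (Δ H : ℕ) (hΔ : 0 < Δ) (hH : 0 < H)
    (h1 : ∀ t ∈ T, g t ∣ Δ)
    (h3 : ∀ t1 ∈ T, ∀ t2 ∈ T, ∀ t3 ∈ T, t1 ≠ t2 → t1 ≠ t3 → t2 ≠ t3 → ∀ n, n ∣ g t1 → n ∣ g t2 →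
      n ∣ g t3 → n ∣ H) : ∏ t ∈ T, g t ∣ Δ ^ 2 * H ^ T.card := by
  have hg0 : ∀ t ∈ T, g t ≠ 0 := fun t ht h0 => by
    have := h1 t ht
    rw [h0, zero_dvd_iff] at this
    omega
  have hP : ∏ t ∈ T, g t ≠ 0 := Finset.prod_ne_zero_iff.2 hg0
  have hQ : Δ ^ 2 * H ^ T.card ≠ 0 := by positivity
  rw [← Nat.factorization_le_iff_dvd hP hQ]
  intro p
  rw [Nat.factorization_prod hg0, Finsupp.coe_finsetSum, Finset.sum_apply,
    Nat.factorization_mul (by positivity) (by positivity), Nat.factorization_pow,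
    Nat.factorization_pow]
  simp only [Finsupp.coe_add, Finsupp.coe_smul, Pi.add_apply, Pi.smul_apply, smul_eq_mul]
  by_cases hp : p.Prime
  · set B := T.filter (fun t => H.factorization p < (g t).factorization p) with hB
    have hBcard : B.card ≤ 2 := by
      by_contra hcon
      push Not at hcon
      obtain ⟨x, y, z, hx, hy, hz, hxy, hxz, hyz⟩ := Finset.two_lt_card_iff.1 hcon
      obtain ⟨x1, x2⟩ := Finset.mem_filter.1 hx
      obtain ⟨y1, y2⟩ := Finset.mem_filter.1 hy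
      obtain ⟨z1, z2⟩ := Finset.mem_filter.1 hz
      have hd : p ^ (H.factorization p + 1) ∣ H := by
        apply h3 x x1 y y1 z z1 hxy hxz hyz
        · exact (hp.pow_dvd_iff_le_factorization (hg0 x x1)).2 x2
        · exact (hp.pow_dvd_iff_le_factorization (hg0 y y1)).2 y2
        · exact (hp.pow_dvd_iff_le_factorization (hg0 z z1)).2 z2
      have := (hp.pow_dvd_iff_le_factorization hH.ne').1 hd
      omega
    have hle : ∀ t ∈ T, (g t).factorization p ≤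
        (if H.factorization p < (g t).factorization p then Δ.factorization p else 0) +
          H.factorization p := by
      intro t ht
      split_ifs with hc
      · have := (Nat.factorization_le_iff_dvd (hg0 t ht) hΔ.ne').2 (h1 t ht) p
        omega
      · omega
    calc ∑ t ∈ T, (g t).factorization p ≤ ∑ t ∈ T,
          ((if H.factorization p < (g t).factorization p then Δ.factorization p else 0) +
          H.factorization p) := Finset.sum_le_sum hle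
      _ = B.card * Δ.factorization p + T.card * H.factorization p := by
          rw [Finset.sum_add_distrib, ← Finset.sum_filter, Finset.sum_const, Finset.sum_const,
            smul_eq_mul, smul_eq_mul]
      _ ≤ _ := by gcongr
  · have : ∀ n : ℕ, n.factorization p = 0 := fun n => Nat.factorization_eq_zero_of_not_prime n hp
    simp [this]

theorem interp (x y z t1 t2 t3 : ℤ) :
    ((t1 - t2) * (t1 - t3) * (t2 - t3)) * z = (x + t1 * y + t1 ^ 2 * z) * (t2 - t3) +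
      (x + t2 * y + t2 ^ 2 * z) * (t3 - t1) + (x + t3 * y + t3 ^ 2 * z) * (t1 - t2) ∧
    ((t1 - t2) * (t1 - t3) * (t2 - t3)) * y = (x + t1 * y + t1 ^ 2 * z) * (t3 ^ 2 - t2 ^ 2) +
      (x + t2 * y + t2 ^ 2 * z) * (t1 ^ 2 - t3 ^ 2) +
      (x + t3 * y + t3 ^ 2 * z) * (t2 ^ 2 - t1 ^ 2) ∧
    ((t1 - t2) * (t1 - t3) * (t2 - t3)) * x = (x + t1 * y + t1 ^ 2 * z) * (t2 * t3 * (t2 - t3)) +
      (x + t2 * y + t2 ^ 2 * z) * (t3 * t1 * (t3 - t1)) +
      (x + t3 * y + t3 ^ 2 * z) * (t1 * t2 * (t1 - t2)) := by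
  refine ⟨?_, ?_, ?_⟩ <;> ring

/-- content of an integer vector -/
def cont (w : Fin 3 → ℤ) : ℕ := Int.gcd (Int.gcd (w 0) (w 1) : ℤ) (w 2)

theorem dvd_cont (w : Fin 3 → ℤ) (n : ℕ) : n ∣ cont w ↔ ∀ i, (n : ℤ) ∣ w i := by
  constructor
  · intro h
    have h' : (n : ℤ) ∣ ((cont w : ℕ) : ℤ) := by exact_mod_cast h
    have h2 : (n : ℤ) ∣ w 2 := h'.trans (Int.gcd_dvd_right _ _)
    have h01 : (n : ℤ) ∣ (Int.gcd (w 0) (w 1) : ℤ) := h'.trans (Int.gcd_dvd_left _ _)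
    apply fin3_cases
    · exact h01.trans (Int.gcd_dvd_left _ _)
    · exact h01.trans (Int.gcd_dvd_right _ _)
    · exact h2
  · intro h
    have := Int.dvd_coe_gcd (Int.dvd_coe_gcd (h 0) (h 1)) (h 2)
    exact Int.natCast_dvd_natCast.1 this

theorem cont_pos {w : Fin 3 → ℤ} (h : w ≠ 0) : 0 < cont w := by
  rw [Nat.pos_iff_ne_zero]
  intro h0
  apply h
  have := (dvd_cont w 0).1 (by rw [h0])
  funext i
  have := this i
  simpa using this

theorem cont_dvd (w : Fin 3 → ℤ) (i : Fin 3) : (cont w : ℤ) ∣ w i := (dvd_cont w _).1 dvd_rfl i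

theorem cont_prim {w : Fin 3 → ℤ} (h : w ≠ 0) : ∃ w' : Fin 3 → ℤ, Prim w' ∧ w = (cont w : ℤ) • w' := by
  choose w' hw' using cont_dvd w
  have hpos : (cont w : ℤ) ≠ 0 := by exact_mod_cast (cont_pos h).ne'
  refine ⟨w', ?_, ?_⟩
  · obtain ⟨u, v, r, e⟩ := bez3 (w 0) (w 1) (w 2)
    refine ⟨![u, v, r], ?_⟩
    show u * w' 0 + v * w' 1 + r * w' 2 = 1
    apply mul_left_cancel₀ hpos
    have e' : (cont w : ℤ) = w 0 * u + w 1 * v + w 2 * r := e
    linear_combination (-1) * e' - u * hw' 0 - v * hw' 1 - r * hw' 2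
  · funext i; simp only [Pi.smul_apply, smul_eq_mul]; exact hw' i

theorem dvd_mul_cont (w : Fin 3 → ℤ) (n : ℕ) (F : ℤ) (h : ∀ i, (n : ℤ) ∣ F * w i) :
    (n : ℤ) ∣ F * cont w := by
  obtain ⟨u, v, r, e⟩ := bez3 (w 0) (w 1) (w 2)
  have e' : (cont w : ℤ) = w 0 * u + w 1 * v + w 2 * r := e
  have : F * cont w = (F * w 0) * u + (F * w 1) * v + (F * w 2) * r := by rw [e']; ring
  rw [this]
  exact dvd_add (dvd_add (Dvd.dvd.mul_right (h 0) _) (Dvd.dvd.mul_right (h 1) _))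
    (Dvd.dvd.mul_right (h 2) _)

variable {a b c d s : Fin 3 → ℤ}

theorem Frame.ne_zero (h : Frame a b c d s) (hs0 : ∀ j, s j ≠ 0) : cr a c ≠ 0 := by
  intro h0
  have := h.prod
  rw [h0] at this
  simp only [Pi.zero_apply, mul_zero, zero_mul, add_zero] at this
  have h1 := mul_ne_zero (mul_ne_zero (hs0 0) (hs0 1)) (hs0 2)
  omega

theorem Frame.cont_dvd (h : Frame a b c d s) :
    cont (cr a c) ∣ (2 * (s 0 * s 1 * s 2)).natAbs := by
  rw [← Int.natCast_dvd, ← h.prod]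
  exact dvd_add (dvd_add (Dvd.dvd.mul_right (Dvd.dvd.mul_left (SL.cont_dvd _ _) _) _)
    (Dvd.dvd.mul_right (Dvd.dvd.mul_left (SL.cont_dvd _ _) _) _))
    (Dvd.dvd.mul_right (Dvd.dvd.mul_left (SL.cont_dvd _ _) _) _)

theorem vdm_dvd (K : ℕ) (t1 t2 t3 : ℕ) (h1 : t1 ≤ K) (h2 : t2 ≤ K) (h3 : t3 ≤ K)
    (h12 : t1 ≠ t2) (h13 : t1 ≠ t3) (h23 : t2 ≠ t3) :
    (((t1:ℤ) - t2) * (t1 - t3) * (t2 - t3)) ∣ ((K.factorial ^ 3 : ℕ) : ℤ) := by
  have key : ∀ x y : ℕ, x ≤ K → y ≤ K → x ≠ y → ((x : ℤ) - y) ∣ (K.factorial : ℤ) := by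
    intro x y hx hy hxy
    rw [← Int.natAbs_dvd]
    have : ((x:ℤ) - y).natAbs ∣ K.factorial := Nat.dvd_factorial (by omega) (by omega)
    exact_mod_cast this
  have e : ((K.factorial ^ 3 : ℕ) : ℤ) = (K.factorial : ℤ) * K.factorial * K.factorial := by
    push_cast; ring
  rw [e]
  exact mul_dvd_mul (mul_dvd_mul (key _ _ h1 h2 h12) (key _ _ h1 h3 h13)) (key _ _ h2 h3 h23)

theorem three_bad (K : ℕ) (hK1 : (1:ℤ) ≤ K) (x y z : ℕ) (hxK : x ≤ K) (hyK : y ≤ K) (hzK : z ≤ K)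
    (hxy : x ≠ y) (hxz : x ≠ z) (hyz : y ≠ z) (p q r D : ℤ) (hdisc' : q ^ 2 - 4 * p * r = -4 * D)
    (x2 : 49 * (K:ℤ) ^ 6 * (p + x * q + x ^ 2 * r) ^ 2 < |D|)
    (y2 : 49 * (K:ℤ) ^ 6 * (p + y * q + y ^ 2 * r) ^ 2 < |D|)
    (z2 : 49 * (K:ℤ) ^ 6 * (p + z * q + z ^ 2 * r) ^ 2 < |D|) : False := by
  obtain ⟨i1, i2, i3⟩ := interp p q r x y z
  set V : ℤ := ((x:ℤ) - y) * (x - z) * (y - z) with hV
  have hV1 : 1 ≤ |V| := by
    apply Int.one_le_abs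
    rw [hV]
    refine mul_ne_zero (mul_ne_zero ?_ ?_) ?_ <;> rw [sub_ne_zero] <;> exact_mod_cast (by assumption)
  -- the largest of the three values
  obtain ⟨F, hF0, hFx, hFy, hFz, hFs⟩ : ∃ F : ℤ, 0 ≤ F ∧ |(p + x * q + x ^ 2 * r)| ≤ F ∧
      |(p + y * q + y ^ 2 * r)| ≤ F ∧ |(p + z * q + z ^ 2 * r)| ≤ F ∧ 49 * K ^ 6 * F ^ 2 < |D| := by
    refine ⟨max |(p + x * q + x ^ 2 * r)| (max |(p + y * q + y ^ 2 * r)| |(p + z * q + z ^ 2 * r)|),
      le_max_of_le_left (abs_nonneg _), le_max_left _ _, (le_max_left _ _).trans (le_max_right _ _),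
      (le_max_right _ _).trans (le_max_right _ _), ?_⟩
    rcases max_choice |(p + x * q + x ^ 2 * r)| (max |(p + y * q + y ^ 2 * r)| |(p + z * q + z ^ 2 * r)|) with h1 | h1
    · rw [h1, sq_abs]; exact x2
    · rw [h1]
      rcases max_choice |(p + y * q + y ^ 2 * r)| |(p + z * q + z ^ 2 * r)| with h2 | h2
      · rw [h2, sq_abs]; exact y2
      · rw [h2, sq_abs]; exact z2
  have bx : (x:ℤ) ≤ K := by exact_mod_cast (by omega : x ≤ K)
  have by' : (y:ℤ) ≤ K := by exact_mod_cast (by omega : y ≤ K)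
  have bz : (z:ℤ) ≤ K := by exact_mod_cast (by omega : z ≤ K)
  have px : (0:ℤ) ≤ x := Int.natCast_nonneg _
  have py : (0:ℤ) ≤ y := Int.natCast_nonneg _
  have pz : (0:ℤ) ≤ z := Int.natCast_nonneg _
  have K3 : (1:ℤ) ≤ (K:ℤ) ^ 2 := one_le_pow₀ hK1
  have hbd : ∀ u v : ℤ, 0 ≤ u → 0 ≤ v → u ≤ K → v ≤ K → |u - v| ≤ K := by
    intro u v h1 h2 h3 h4; rw [abs_le]; constructor <;> linarith
  have hK3' : (K:ℤ) ≤ K ^ 3 := by
    calc (K:ℤ) = K * 1 := by ring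
      _ ≤ K * K ^ 2 := mul_le_mul_of_nonneg_left K3 (by linarith)
      _ = K ^ 3 := by ring
  have hbd1 : ∀ u v : ℤ, 0 ≤ u → 0 ≤ v → u ≤ K → v ≤ K → |u - v| ≤ 2 * K ^ 3 := by
    intro u v h1 h2 h3 h4
    have := hbd u v h1 h2 h3 h4
    linarith [abs_nonneg (u - v)]
  have hK23 : (K:ℤ) ^ 2 ≤ (K:ℤ) ^ 3 := by
    have e : (K:ℤ) ^ 3 = (K:ℤ) ^ 2 * K := by ring
    rw [e]
    exact le_mul_of_one_le_right (by positivity) hK1
  have hbd2 : ∀ u v : ℤ, 0 ≤ u → 0 ≤ v → u ≤ K → v ≤ K → |u ^ 2 - v ^ 2| ≤ 2 * K ^ 3 := by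
    intro u v h1 h2 h3 h4
    have e : u ^ 2 - v ^ 2 = (u - v) * (u + v) := by ring
    rw [e, abs_mul]
    have e1 := hbd u v h1 h2 h3 h4
    have e2 : |u + v| ≤ 2 * K := by rw [abs_of_nonneg (by linarith)]; linarith
    calc |u - v| * |u + v| ≤ K * (2 * K) := mul_le_mul e1 e2 (abs_nonneg _) (by linarith)
      _ = 2 * K ^ 2 := by ring
      _ ≤ 2 * K ^ 3 := by linarith
  have hbd3 : ∀ u v : ℤ, 0 ≤ u → 0 ≤ v → u ≤ K → v ≤ K → |u * v * (u - v)| ≤ 2 * K ^ 3 := by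
    intro u v h1 h2 h3 h4
    rw [abs_mul, abs_mul, abs_of_nonneg h1, abs_of_nonneg h2]
    have e1 := hbd u v h1 h2 h3 h4
    calc u * v * |u - v| ≤ K * K * K :=
          mul_le_mul (mul_le_mul h3 h4 h2 (by linarith)) e1 (abs_nonneg _) (by positivity)
      _ = K ^ 3 := by ring
      _ ≤ 2 * K ^ 3 := by linarith
  have comb : ∀ p q r p' q' r' X : ℤ, |p| ≤ F → |q| ≤ F → |r| ≤ F → |p'| ≤ 2 * (K:ℤ) ^ 3 →
      |q'| ≤ 2 * (K:ℤ) ^ 3 → |r'| ≤ 2 * (K:ℤ) ^ 3 → V * X = p * p' + q * q' + r * r' →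
      |X| ≤ 6 * K ^ 3 * F := by
    intro p q r p' q' r' X h1 h2 h3 h4 h5 h6 h7
    have e1 : |p * p'| ≤ F * (2 * K ^ 3) := by
      rw [abs_mul]; exact mul_le_mul h1 h4 (abs_nonneg _) hF0
    have e2 : |q * q'| ≤ F * (2 * K ^ 3) := by
      rw [abs_mul]; exact mul_le_mul h2 h5 (abs_nonneg _) hF0
    have e3 : |r * r'| ≤ F * (2 * K ^ 3) := by
      rw [abs_mul]; exact mul_le_mul h3 h6 (abs_nonneg _) hF0
    have e4 : |V * X| ≤ 6 * K ^ 3 * F := by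
      rw [h7]
      calc |p * p' + q * q' + r * r'| ≤ |p * p'| + |q * q'| + |r * r'| := abs_add_three _ _ _
        _ ≤ 6 * K ^ 3 * F := by linarith
    rw [abs_mul] at e4
    nlinarith [abs_nonneg X]
  have c1 := comb _ _ _ _ _ _ _ hFx hFy hFz (hbd1 y z py pz by' bz) (hbd1 z x pz px bz bx)
    (hbd1 x y px py bx by') i1
  have c2 := comb _ _ _ _ _ _ _ hFx hFy hFz (hbd2 z y pz py bz by') (hbd2 x z px pz bx bz)
    (hbd2 y x py px by' bx) i2
  have c3 := comb _ _ _ _ _ _ _ hFx hFy hFz (hbd3 y z py pz by' bz) (hbd3 z x pz px bz bx)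
    (hbd3 x y px py bx by') i3
  set Z : ℤ := 6 * K ^ 3 * F with hZ
  have hZ0 : 0 ≤ Z := by rw [hZ]; positivity
  have q1 : |q ^ 2| ≤ Z ^ 2 := by
    rw [abs_pow]; exact pow_le_pow_left₀ (abs_nonneg _) c2 2
  have q2 : |p * r| ≤ Z * Z := by
    rw [abs_mul]; exact mul_le_mul c3 c1 (abs_nonneg _) hZ0
  have q3 : 4 * |D| ≤ 5 * Z ^ 2 := by
    have : |(-4:ℤ) * (D)| = 4 * |D| := by rw [abs_mul]; norm_num
    rw [← this, ← hdisc']
    have e : q ^ 2 - 4 * p * r =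
      q ^ 2 - 4 * (p * r) := by ring
    rw [e]
    calc |q ^ 2 - 4 * (p * r)| ≤ |q ^ 2| +
          |4 * (p * r)| := abs_sub _ _
      _ ≤ Z ^ 2 + 4 * (Z * Z) := by
          rw [abs_mul 4]
          have : |(4:ℤ)| = 4 := by norm_num
          rw [this]; linarith
      _ = 5 * Z ^ 2 := by ring
  have q4 : Z ^ 2 = 36 * (K ^ 6 * F ^ 2) := by rw [hZ]; ring
  have q5 : 0 ≤ (K:ℤ) ^ 6 * F ^ 2 := by positivity
  rw [q4] at q3
  have q6 : 49 * ((K:ℤ) ^ 6 * F ^ 2) < |D| := by linarith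
  linarith


/-- selection of a good direction -/
theorem Frame.direction (h : Frame a b c d s) (hs0 : ∀ j, s j ≠ 0) (K : ℕ) (hK : 3 ≤ K) :
    ∃ t : ℕ, t ≤ K ∧
      max ‖b‖ ‖d‖ ≤ 3 * max ‖(fun i => a i + t * b i : Fin 3 → ℤ)‖ ‖(fun i => c i + t * d i : Fin 3 → ℤ)‖ ∧
      |s 1 * s 2| ≤ 49 * K ^ 6 * (cr (fun i => a i + t * b i) (fun i => c i + t * d i) 0) ^ 2 ∧
      (cont (cr (fun i => a i + t * b i) (fun i => c i + t * d i)) : ℝ) ≤
        (K.factorial : ℝ) ^ 3 * (4 * Real.sqrt (XX (s 0) (s 1) (s 2))) *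
        ((2 * (s 0 * s 1 * s 2)).natAbs : ℝ) ^ ((2:ℝ) / (K - 2)) := by
  classical
  set A : ℕ → Fin 3 → ℤ := fun t => (fun i => a i + t * b i) with hA
  set C : ℕ → Fin 3 → ℤ := fun t => (fun i => c i + t * d i) with hC
  set Δ : ℕ := (2 * (s 0 * s 1 * s 2)).natAbs with hΔ
  have hΔpos : 0 < Δ := by
    rw [hΔ, Int.natAbs_pos]
    exact mul_ne_zero (by norm_num) (mul_ne_zero (mul_ne_zero (hs0 0) (hs0 1)) (hs0 2))
  have hfr : ∀ t : ℕ, Frame (A t) b (C t) d s := fun t => h.shear t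
  set M := max ‖b‖ ‖d‖ with hM
  -- bad sets
  set B1 := (range (K + 1)).filter (fun t => ¬ (M ≤ 3 * max ‖A t‖ ‖C t‖)) with hB1
  set B2 := (range (K + 1)).filter (fun t => ¬ (|s 1 * s 2| ≤ 49 * K ^ 6 * (cr (A t) (C t) 0) ^ 2))
    with hB2
  set T := ((range (K + 1)) \ B1) \ B2 with hT
  have hB1c : B1.card ≤ 1 := by
    rw [Finset.card_le_one]
    intro t ht t' ht'
    by_contra hne
    obtain ⟨-, h1⟩ := Finset.mem_filter.1 ht
    obtain ⟨-, h2⟩ := Finset.mem_filter.1 ht'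
    push Not at h1 h2
    have hpos1 : 0 ≤ max ‖A t‖ ‖C t‖ := le_max_of_le_left (norm_nonneg _)
    have hM0 : 0 < M := by linarith
    have htt : (1:ℝ) ≤ |(t:ℝ) - t'| := by
      have : (1:ℤ) ≤ |(t:ℤ) - t'| := Int.one_le_abs (sub_ne_zero.2 (by exact_mod_cast hne))
      exact_mod_cast this
    have hb : ‖b‖ ≤ 2 / 3 * M := by
      obtain ⟨i, hi, -⟩ := exists_norm_eq b
      rw [hi]
      have e1 := (abs_le_norm (A t) i).trans (le_max_left _ ‖C t‖)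
      have e2 := (abs_le_norm (A t') i).trans (le_max_left _ ‖C t'‖)
      have e3 : ((A t i : ℤ) : ℝ) - (A t' i : ℤ) = ((t:ℝ) - t') * (b i : ℝ) := by
        simp only [hA]; push_cast; ring
      have e4 : |((t:ℝ) - t') * (b i : ℝ)| ≤ |((A t i : ℤ) : ℝ)| + |((A t' i : ℤ) : ℝ)| := by
        rw [← e3]; exact abs_sub _ _
      rw [abs_mul] at e4
      nlinarith [abs_nonneg (b i : ℝ)]
    have hd : ‖d‖ ≤ 2 / 3 * M := by
      obtain ⟨i, hi, -⟩ := exists_norm_eq d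
      rw [hi]
      have e1 := (abs_le_norm (C t) i).trans (le_max_right ‖A t‖ _)
      have e2 := (abs_le_norm (C t') i).trans (le_max_right ‖A t'‖ _)
      have e3 : ((C t i : ℤ) : ℝ) - (C t' i : ℤ) = ((t:ℝ) - t') * (d i : ℝ) := by
        simp only [hC]; push_cast; ring
      have e4 : |((t:ℝ) - t') * (d i : ℝ)| ≤ |((C t i : ℤ) : ℝ)| + |((C t' i : ℤ) : ℝ)| := by
        rw [← e3]; exact abs_sub _ _
      rw [abs_mul] at e4
      nlinarith [abs_nonneg (d i : ℝ)]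
    have : M ≤ 2 / 3 * M := max_le hb hd
    linarith
  have hsh : ∀ (t : ℕ) i, cr (A t) (C t) i = cr a c i + t * mx a b c d i + t ^ 2 * cr b d i := by
    intro t i
    have := cr_shear a b c d t i
    exact this
  have hK1 : (1:ℤ) ≤ K := by exact_mod_cast (by omega : 1 ≤ K)
  have hB2c : B2.card ≤ 2 := by
    by_contra hcon
    push Not at hcon
    obtain ⟨x, y, z, hx, hy, hz, hxy, hxz, hyz⟩ := Finset.two_lt_card_iff.1 hcon
    obtain ⟨x1, x2⟩ := Finset.mem_filter.1 hx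
    obtain ⟨y1, y2⟩ := Finset.mem_filter.1 hy
    obtain ⟨z1, z2⟩ := Finset.mem_filter.1 hz
    push Not at x2 y2 z2
    rw [Finset.mem_range] at x1 y1 z1
    have hdisc := h.disc 0
    have hdisc' : mx a b c d 0 ^ 2 - 4 * cr a c 0 * cr b d 0 = -4 * (s 1 * s 2) := by
      have : mx a b c d 0 ^ 2 - 4 * cr a c 0 * cr b d 0 = -4 * s 1 * s 2 := hdisc
      linarith
    refine three_bad K hK1 x y z (by omega) (by omega) (by omega) hxy hxz hyz (cr a c 0)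
      (mx a b c d 0) (cr b d 0) (s 1 * s 2) hdisc' ?_ ?_ ?_
    · rw [← hsh x 0]; exact x2
    · rw [← hsh y 0]; exact y2
    · rw [← hsh z 0]; exact z2
  have hTc : K - 2 ≤ T.card := by
    have e1 := Finset.le_card_sdiff B1 (range (K + 1))
    have e2 := Finset.le_card_sdiff B2 (range (K + 1) \ B1)
    rw [Finset.card_range] at e1
    rw [hT]; omega
  have hTmem : ∀ t ∈ T, t ≤ K ∧ M ≤ 3 * max ‖A t‖ ‖C t‖ ∧
      |s 1 * s 2| ≤ 49 * K ^ 6 * (cr (A t) (C t) 0) ^ 2 := by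
    intro t ht
    rw [hT, Finset.mem_sdiff, Finset.mem_sdiff, hB1, hB2, Finset.mem_filter, Finset.mem_filter] at ht
    obtain ⟨⟨h1, h2⟩, h3⟩ := ht
    rw [Finset.mem_range] at h1
    refine ⟨by omega, ?_, ?_⟩
    · by_contra hcon; exact h2 ⟨Finset.mem_range.2 h1, hcon⟩
    · by_contra hcon; exact h3 ⟨Finset.mem_range.2 h1, hcon⟩
  -- contents
  set g : ℕ → ℕ := fun t => cont (cr (A t) (C t)) with hg
  set g0 : ℕ := cont ![(cont (cr a c) : ℤ), (cont (mx a b c d) : ℤ), (cont (cr b d) : ℤ)] with hg0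
  have hne : cr a c ≠ 0 := h.ne_zero hs0
  have hg0pos : 0 < g0 := by
    apply cont_pos
    intro h0
    have := congrFun h0 0
    simp only [Matrix.cons_val_zero, Pi.zero_apply] at this
    have h1 := cont_pos hne
    omega
  have hg0d : ∀ n : ℕ, n ∣ g0 → (∀ i, (n : ℤ) ∣ cr a c i) ∧ (∀ i, (n : ℤ) ∣ mx a b c d i) ∧
      (∀ i, (n : ℤ) ∣ cr b d i) := by
    intro n hn
    have := (dvd_cont _ n).1 hn
    refine ⟨?_, ?_, ?_⟩
    · exact (dvd_cont _ n).1 (Int.natCast_dvd_natCast.1 (this 0))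
    · exact (dvd_cont _ n).1 (Int.natCast_dvd_natCast.1 (this 1))
    · exact (dvd_cont _ n).1 (Int.natCast_dvd_natCast.1 (this 2))
  have hg0b : g0 ^ 2 ≤ 16 * XX (s 0) (s 1) (s 2) := by
    obtain ⟨h1, h2, h3⟩ := hg0d g0 dvd_rfl
    exact g0_bound h hs0 g0 hg0pos h1 h2 h3
  set H : ℕ := K.factorial ^ 3 * g0 with hH
  have hHpos : 0 < H := by
    have := Nat.factorial_pos K
    positivity
  have htr : ∀ t1 ∈ T, ∀ t2 ∈ T, ∀ t3 ∈ T, t1 ≠ t2 → t1 ≠ t3 → t2 ≠ t3 → ∀ n, n ∣ g t1 → n ∣ g t2 →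
      n ∣ g t3 → n ∣ H := by
    intro t1 ht1 t2 ht2 t3 ht3 h12 h13 h23 n n1 n2 n3
    have hv := vdm_dvd K t1 t2 t3 (hTmem t1 ht1).1 (hTmem t2 ht2).1 (hTmem t3 ht3).1 h12 h13 h23
    obtain ⟨v, hv⟩ := hv
    have m1 := (dvd_cont _ n).1 n1
    have m2 := (dvd_cont _ n).1 n2
    have m3 := (dvd_cont _ n).1 n3
    have key : ∀ X p q r p' q' r' : ℤ, (n:ℤ) ∣ p → (n:ℤ) ∣ q → (n:ℤ) ∣ r →
        ((t1:ℤ) - t2) * (t1 - t3) * (t2 - t3) * X = p * p' + q * q' + r * r' →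
        (n:ℤ) ∣ ((K.factorial ^ 3 : ℕ) : ℤ) * X := by
      intro X p q r p' q' r' hp hq hr e
      rw [hv]
      have : ((t1:ℤ) - t2) * (t1 - t3) * (t2 - t3) * v * X = v * (p * p' + q * q' + r * r') := by
        rw [← e]; ring
      rw [this]
      exact Dvd.dvd.mul_left (dvd_add (dvd_add (Dvd.dvd.mul_right hp _) (Dvd.dvd.mul_right hq _))
        (Dvd.dvd.mul_right hr _)) _
    have w1 : (n:ℤ) ∣ ((K.factorial ^ 3 : ℕ) : ℤ) * cont (cr a c) := by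
      apply dvd_mul_cont
      intro i
      obtain ⟨_, _, i3⟩ := interp (cr a c i) (mx a b c d i) (cr b d i) t1 t2 t3
      rw [← hsh t1 i, ← hsh t2 i, ← hsh t3 i] at i3
      exact key _ _ _ _ _ _ _ (m1 i) (m2 i) (m3 i) i3
    have w2 : (n:ℤ) ∣ ((K.factorial ^ 3 : ℕ) : ℤ) * cont (mx a b c d) := by
      apply dvd_mul_cont
      intro i
      obtain ⟨_, i2, _⟩ := interp (cr a c i) (mx a b c d i) (cr b d i) t1 t2 t3
      rw [← hsh t1 i, ← hsh t2 i, ← hsh t3 i] at i2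
      exact key _ _ _ _ _ _ _ (m1 i) (m2 i) (m3 i) i2
    have w3 : (n:ℤ) ∣ ((K.factorial ^ 3 : ℕ) : ℤ) * cont (cr b d) := by
      apply dvd_mul_cont
      intro i
      obtain ⟨i1, _, _⟩ := interp (cr a c i) (mx a b c d i) (cr b d i) t1 t2 t3
      rw [← hsh t1 i, ← hsh t2 i, ← hsh t3 i] at i1
      exact key _ _ _ _ _ _ _ (m1 i) (m2 i) (m3 i) i1
    have w : (n:ℤ) ∣ ((K.factorial ^ 3 : ℕ) : ℤ) * g0 := by
      apply dvd_mul_cont
      apply fin3_cases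
      · exact w1
      · exact w2
      · exact w3
    rw [hH]
    exact_mod_cast w
  have hgd : ∀ t ∈ T, g t ∣ Δ := fun t _ => (hfr t).cont_dvd
  have hprod := prod_triples T g Δ H hΔpos hHpos hgd htr
  have hle := Nat.le_of_dvd (by positivity) hprod
  -- the minimum
  have hK2 : (0:ℝ) < (K:ℝ) - 2 := by
    have : (3:ℝ) ≤ K := by exact_mod_cast hK
    linarith
  have hTne : T.Nonempty := by
    rw [← Finset.card_pos]; omega
  have hmin : ∃ t ∈ T, (g t : ℝ) ≤ H * (Δ:ℝ) ^ ((2:ℝ) / (K - 2)) := by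
    by_contra hcon
    push Not at hcon
    have hΔ1 : (1:ℝ) ≤ Δ := by exact_mod_cast hΔpos
    have h1 : ∏ _t ∈ T, ((H:ℝ) * (Δ:ℝ) ^ ((2:ℝ) / (K - 2))) < ∏ t ∈ T, (g t : ℝ) := by
      apply Finset.prod_lt_prod_of_nonempty _ hcon hTne
      intro i _
      positivity
    rw [Finset.prod_const, mul_pow] at h1
    have h2 : (Δ:ℝ) ^ 2 ≤ ((Δ:ℝ) ^ ((2:ℝ) / (K - 2))) ^ T.card := by
      rw [← Real.rpow_natCast (((Δ:ℝ) ^ ((2:ℝ) / (K - 2)))), ← Real.rpow_mul (by positivity),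
        ← Real.rpow_natCast (Δ:ℝ) 2]
      apply Real.rpow_le_rpow_of_exponent_le hΔ1
      push_cast
      have h3 : (K:ℝ) - 2 ≤ T.card := by
        have : K ≤ T.card + 2 := by omega
        have : (K:ℝ) ≤ T.card + 2 := by exact_mod_cast this
        linarith
      rw [div_mul_eq_mul_div, le_div_iff₀ hK2]
      linarith
    have h4 : (∏ t ∈ T, (g t : ℝ)) ≤ (Δ:ℝ) ^ 2 * (H:ℝ) ^ T.card := by exact_mod_cast hle
    have h5 : (Δ:ℝ) ^ 2 * (H:ℝ) ^ T.card ≤ (H:ℝ) ^ T.card * ((Δ:ℝ) ^ ((2:ℝ) / (K - 2))) ^ T.card := by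
      rw [mul_comm]
      exact mul_le_mul_of_nonneg_left h2 (by positivity)
    linarith
  obtain ⟨t, htT, ht⟩ := hmin
  obtain ⟨t1, t2, t3⟩ := hTmem t htT
  refine ⟨t, t1, t2, t3, ?_⟩
  refine ht.trans ?_
  apply mul_le_mul_of_nonneg_right _ (by positivity)
  rw [hH]
  push_cast
  apply mul_le_mul_of_nonneg_left _ (by positivity)
  have h6 : (g0 : ℝ) ^ 2 ≤ 16 * (XX (s 0) (s 1) (s 2) : ℝ) := by exact_mod_cast hg0b
  have h7 : (g0 : ℝ) ≤ Real.sqrt (16 * (XX (s 0) (s 1) (s 2) : ℝ)) := Real.le_sqrt_of_sq_le h6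
  rw [Real.sqrt_mul (by norm_num)] at h7
  have h8 : Real.sqrt 16 = 4 := by
    rw [show (16:ℝ) = 4 ^ 2 by norm_num, Real.sqrt_sq (by norm_num)]
  rw [h8] at h7
  exact h7

end Pool.Agent.E8helper43.SL
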