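import Pool.Agent.E8helper43.SL.Conic
import Pool.Agent.E8helper43.SL.Dir

set_option autoImplicit false
set_option maxHeartbeats 4000000

namespace Pool.Agent.E8helper43.SL

open Finset

/-- a common multiple of three integers is at least `|s0 s1 s2| / XX` -/
theorem lcm_lower (s0 s1 s2 m : ℤ) (hm : m ≠ 0)
    (h0 : s0 ∣ m) (h1 : s1 ∣ m) (h2 : s2 ∣ m) : |s0 * s1 * s2| ≤ |m| * XX s0 s1 s2 := by
  by_cases hs : s0 * s1 * s2 = 0
  · rw [hs, abs_zero]; positivity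
  have hs0 : s0 ≠ 0 := by rintro rfl; simp at hs
  have hs1 : s1 ≠ 0 := by rintro rfl; simp at hs
  obtain ⟨m0, e0⟩ := h0
  obtain ⟨m1, e1⟩ := h1
  obtain ⟨m2, e2⟩ := h2
  have g01 := Int.gcd_eq_gcd_ab s0 s1
  have g02 := Int.gcd_eq_gcd_ab s0 s2
  have g12 := Int.gcd_eq_gcd_ab s1 s2
  set x := Int.gcdA s0 s1
  set y := Int.gcdB s0 s1
  set x' := Int.gcdA s0 s2
  set y' := Int.gcdB s0 s2
  set x'' := Int.gcdA s1 s2
  set y'' := Int.gcdB s1 s2
  have hd : s0 * s1 * s2 ∣ m * XX s0 s1 s2 := by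
    refine ⟨m2 * (s0 * x + s1 * y) * x' * x'' +
      (m1 * x + m0 * y) * (s0 * x' * y'' + s1 * y' * x'' + s2 * y' * y''), ?_⟩
    rw [XX]
    push_cast
    rw [g01, g02, g12]
    have k : m * (s0 * x + s1 * y) = s0 * s1 * (m1 * x + m0 * y) := by
      linear_combination (s0 * x) * e1 + (s1 * y) * e0
    linear_combination ((s0 * x' + s2 * y') * (s1 * x'' + s2 * y'') - s0 * s1 * x' * x'') * k +
      (s0 * x + s1 * y) * s0 * s1 * x' * x'' * e2
  have hX : (XX s0 s1 s2 : ℤ) ≠ 0 := by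
    rw [XX]
    have e1 := Int.gcd_pos_of_ne_zero_left s1 hs0
    have e2 := Int.gcd_pos_of_ne_zero_left s2 hs0
    have e3 := Int.gcd_pos_of_ne_zero_left s2 hs1
    have : 0 < Int.gcd s0 s1 * Int.gcd s0 s2 * Int.gcd s1 s2 := by positivity
    exact_mod_cast this.ne'
  have h := Int.le_of_dvd (abs_pos.2 (mul_ne_zero hm hX))
    ((abs_dvd _ _).2 ((dvd_abs _ _).2 hd))
  rwa [abs_mul m, Nat.abs_cast] at h

/-- dyadic summation over the points of a conic -/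
theorem dyad {ι : Type*} (S : Finset ι) (x y z : ι → ℤ) (nn : ι → ℕ) (α β γ : ℤ) (hα : 0 < α)
    (hβ : 0 < β) (hγ : 0 < γ) (T0 L : ℝ) (N1 : ℕ) (hT : 0 < T0) (hL : 0 < L)
    (hLl : ∀ m : ℤ, m ≠ 0 → α ∣ m → β ∣ m → γ ∣ m → L ≤ |(m : ℝ)|)
    (hS : ∀ i ∈ S, α * x i ^ 2 + β * y i ^ 2 = γ * z i ^ 2)
    (hz : ∀ i ∈ S, 0 < z i) (hzn : ∀ i ∈ S, z i ≤ nn i)
    (hn0 : ∀ i ∈ S, T0 ≤ nn i) (hn1 : ∀ i ∈ S, nn i ≤ N1)
    (hnp : ∀ i ∈ S, ∀ j ∈ S, i ≠ j → ¬ (x i * z j = x j * z i ∧ y i * z j = y j * z i)) :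
    ∑ i ∈ S, 1 / (nn i : ℝ) ≤ (Nat.log 2 N1 + 1) *
      (((α.natAbs.divisors.card : ℝ) * (β.natAbs.divisors.card) *
      (γ.natAbs.divisors.card)) ^ 2 * (24 * Real.sqrt (γ / L) + 8 / T0)) := by
  classical
  have hnpos : ∀ i ∈ S, 0 < nn i := by
    intro i hi
    have := hz i hi
    have := hzn i hi
    omega
  have hmap : ∀ i ∈ S, Nat.log 2 (nn i) ∈ range (Nat.log 2 N1 + 1) := by
    intro i hi
    rw [Finset.mem_range]
    have := Nat.log_mono_right (b := 2) (hn1 i hi)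
    omega
  rw [← Finset.sum_fiberwise_of_maps_to hmap]
  set DD : ℝ := ((α.natAbs.divisors.card : ℝ) * (β.natAbs.divisors.card) *
      (γ.natAbs.divisors.card)) ^ 2 with hDD
  have hDD0 : 0 ≤ DD := by positivity
  have hfib : ∀ k ∈ range (Nat.log 2 N1 + 1),
      ∑ i ∈ S.filter (fun i => Nat.log 2 (nn i) = k), 1 / (nn i : ℝ) ≤
        DD * (24 * Real.sqrt (γ / L) + 8 / T0) := by
    intro k _
    rcases (S.filter (fun i => Nat.log 2 (nn i) = k)).eq_empty_or_nonempty with he | ⟨i0, hi0⟩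
    · rw [he, Finset.sum_empty]; positivity
    obtain ⟨hi0S, hi0k⟩ := Finset.mem_filter.1 hi0
    have hk0 : T0 < 2 * 2 ^ k := by
      have h1 := hn0 i0 hi0S
      have h2 : nn i0 < 2 ^ (k + 1) := by
        rw [← hi0k]; exact Nat.lt_pow_succ_log_self (by norm_num) _
      have h3 : (nn i0 : ℝ) < 2 ^ (k + 1) := by exact_mod_cast h2
      rw [pow_succ] at h3
      linarith
    have h2k : (0:ℝ) < 2 ^ k := by positivity
    have hc := conic_count (S.filter (fun i => Nat.log 2 (nn i) = k)) x y z α β γ hα hβ hγ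
      (2 * 2 ^ k) L (by positivity) hL hLl (fun i hi => hS i (Finset.mem_filter.1 hi).1)
      (fun i hi => hz i (Finset.mem_filter.1 hi).1) ?_
      (fun i hi j hj => hnp i (Finset.mem_filter.1 hi).1 j (Finset.mem_filter.1 hj).1)
    · calc ∑ i ∈ S.filter (fun i => Nat.log 2 (nn i) = k), 1 / (nn i : ℝ)
          ≤ ∑ _i ∈ S.filter (fun i => Nat.log 2 (nn i) = k), 1 / (2:ℝ) ^ k := by
            apply Finset.sum_le_sum
            intro i hi
            obtain ⟨hiS, hik⟩ := Finset.mem_filter.1 hi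
            have h1 : 2 ^ k ≤ nn i := by
              rw [← hik]; exact Nat.pow_log_le_self 2 (hnpos i hiS).ne'
            have h2 : (2:ℝ) ^ k ≤ nn i := by exact_mod_cast h1
            exact one_div_le_one_div_of_le h2k h2
        _ = ((S.filter (fun i => Nat.log 2 (nn i) = k)).card : ℝ) * (1 / (2:ℝ) ^ k) := by
            rw [Finset.sum_const, nsmul_eq_mul]
        _ ≤ (DD * (12 * (2 * 2 ^ k) * Real.sqrt (γ / L) + 4)) * (1 / (2:ℝ) ^ k) := by
            apply mul_le_mul_of_nonneg_right hc (by positivity)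
        _ = DD * (24 * Real.sqrt (γ / L) + 4 / 2 ^ k) := by field_simp; ring
        _ ≤ DD * (24 * Real.sqrt (γ / L) + 8 / T0) := by
            apply mul_le_mul_of_nonneg_left _ hDD0
            have : 4 / (2:ℝ) ^ k ≤ 8 / T0 := by
              rw [div_le_div_iff₀ h2k hT]; linarith
            linarith
    · intro i hi
      obtain ⟨hiS, hik⟩ := Finset.mem_filter.1 hi
      have h2 : nn i < 2 ^ (k + 1) := by
        rw [← hik]; exact Nat.lt_pow_succ_log_self (by norm_num) _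
      have h3 : (nn i : ℝ) < 2 ^ (k + 1) := by exact_mod_cast h2
      rw [pow_succ] at h3
      have h4 : (z i : ℝ) ≤ nn i := by exact_mod_cast hzn i hiS
      linarith
  calc ∑ k ∈ range (Nat.log 2 N1 + 1),
        ∑ i ∈ S.filter (fun i => Nat.log 2 (nn i) = k), 1 / (nn i : ℝ)
      ≤ ∑ _k ∈ range (Nat.log 2 N1 + 1), DD * (24 * Real.sqrt (γ / L) + 8 / T0) :=
        Finset.sum_le_sum hfib
    _ = _ := by rw [Finset.sum_const, nsmul_eq_mul, Finset.card_range]; push_cast; ring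

theorem floor_norm (w : Fin 3 → ℤ) : ((⌊‖w‖⌋₊ : ℕ) : ℝ) = ‖w‖ := by
  obtain ⟨i, hi, -⟩ := exists_norm_eq w
  rw [hi]
  have : |(w i : ℝ)| = ((w i).natAbs : ℕ) := by
    rw [Nat.cast_natAbs]; push_cast; rfl
  rw [this, Nat.floor_natCast]

theorem prim_eq {w w' : Fin 3 → ℤ} (h : Prim w) (h' : Prim w') (k : Fin 3)
    (hk : 0 < w k * w' k) (he : ∀ l, w l * w' k = w' l * w k) : w = w' := by
  obtain ⟨u, hu⟩ := h
  obtain ⟨v, hv⟩ := h'
  have d1 : w k ∣ w' k := by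
    refine ⟨u 0 * w' 0 + u 1 * w' 1 + u 2 * w' 2, ?_⟩
    linear_combination (-w' k) * hu + u 0 * he 0 + u 1 * he 1 + u 2 * he 2
  have d2 : w' k ∣ w k := by
    refine ⟨v 0 * w 0 + v 1 * w 1 + v 2 * w 2, ?_⟩
    linear_combination (-w k) * hv - v 0 * he 0 - v 1 * he 1 - v 2 * he 2
  have h3 : (w k).natAbs = (w' k).natAbs := Int.natAbs_eq_of_dvd_dvd d1 d2
  have h4 : w k = w' k := by
    rcases Int.natAbs_eq_natAbs_iff.1 h3 with h | h
    · exact h
    · rw [h] at hk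
      nlinarith [sq_nonneg (w' k)]
  have hne : w' k ≠ 0 := by
    intro h0; rw [h0, mul_zero] at hk; exact lt_irrefl _ hk
  funext l
  have := he l
  rw [h4] at this
  exact mul_right_cancel₀ hne this

theorem prim_ne {w : Fin 3 → ℤ} (h : Prim w) : ∃ i, w i ≠ 0 := by
  by_contra hcon
  push Not at hcon
  obtain ⟨u, hu⟩ := h
  rw [hcon 0, hcon 1, hcon 2] at hu
  simp at hu

/-- summation of `1/‖w‖` over the primitive points of a conic -/
theorem conic_half (i j k : Fin 3) (hcov : ∀ l : Fin 3, l = i ∨ l = j ∨ l = k)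
    (S : Finset (Fin 3 → ℤ)) (α β γ : ℤ) (hα : 0 < α)
    (hβ : 0 < β) (hγ : 0 < γ) (T0 L : ℝ) (N1 : ℕ) (hT : 0 < T0) (hL : 0 < L)
    (hLl : ∀ m : ℤ, m ≠ 0 → α ∣ m → β ∣ m → γ ∣ m → L ≤ |(m : ℝ)|)
    (hS : ∀ w ∈ S, α * w i ^ 2 + β * w j ^ 2 = γ * w k ^ 2)
    (hP : ∀ w ∈ S, Prim w)
    (hn0 : ∀ w ∈ S, T0 ≤ ‖w‖) (hn1 : ∀ w ∈ S, ‖w‖ ≤ N1) :
    ∑ w ∈ S, 1 / ‖w‖ ≤ 2 * ((Nat.log 2 N1 + 1) *
      (((α.natAbs.divisors.card : ℝ) * (β.natAbs.divisors.card) *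
      (γ.natAbs.divisors.card)) ^ 2 * (24 * Real.sqrt (γ / L) + 8 / T0))) := by
  classical
  have hz0 : ∀ w ∈ S, w k ≠ 0 := by
    intro w hw h0
    have h1 := hS w hw
    rw [h0] at h1
    have a1 : 0 ≤ α * w i ^ 2 := by positivity
    have a2 : 0 ≤ β * w j ^ 2 := by positivity
    have b1 : α * w i ^ 2 = 0 := by nlinarith
    have b2 : β * w j ^ 2 = 0 := by nlinarith
    have c1 : w i = 0 := by
      rcases mul_eq_zero.1 b1 with h | h
      · exact absurd h hα.ne'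
      · exact pow_eq_zero_iff (by norm_num) |>.1 h
    have c2 : w j = 0 := by
      rcases mul_eq_zero.1 b2 with h | h
      · exact absurd h hβ.ne'
      · exact pow_eq_zero_iff (by norm_num) |>.1 h
    obtain ⟨l, hl⟩ := prim_ne (hP w hw)
    rcases hcov l with h | h | h
    · rw [h] at hl; exact hl c1
    · rw [h] at hl; exact hl c2
    · rw [h] at hl; exact hl h0
  have habs : ∀ w : Fin 3 → ℤ, |w k| ≤ (⌊‖w‖⌋₊ : ℕ) := by
    intro w
    have h1 := abs_le_norm w k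
    rw [← floor_norm w] at h1
    exact_mod_cast h1
  have hN1 : ∀ w ∈ S, ⌊‖w‖⌋₊ ≤ N1 := by
    intro w hw
    have := hn1 w hw
    rw [← floor_norm w] at this
    exact_mod_cast this
  have hN0 : ∀ w ∈ S, T0 ≤ (⌊‖w‖⌋₊ : ℕ) := by
    intro w hw
    rw [floor_norm w]; exact hn0 w hw
  have hnp : ∀ w ∈ S, ∀ w' ∈ S, w ≠ w' → 0 < w k * w' k →
      ¬ (w i * w' k = w' i * w k ∧ w j * w' k = w' j * w k) := by
    intro w hw w' hw' hne hpos ⟨h1, h2⟩
    apply hne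
    apply prim_eq (hP w hw) (hP w' hw') k hpos
    intro l
    rcases hcov l with h | h | h
    · rw [h]; exact h1
    · rw [h]; exact h2
    · rw [h]; ring
  set S1 := S.filter (fun w => 0 < w k) with hS1
  set S2 := S.filter (fun w => ¬ 0 < w k) with hS2
  rw [← Finset.sum_filter_add_sum_filter_not S (fun w => 0 < w k)]
  have e1 := dyad S1 (fun w => w i) (fun w => w j) (fun w => w k) (fun w => ⌊‖w‖⌋₊) α β γ hα hβ hγ
    T0 L N1 hT hL hLl (fun w hw => hS w (Finset.mem_filter.1 hw).1)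
    (fun w hw => (Finset.mem_filter.1 hw).2) (fun w hw => (le_abs_self _).trans (habs w))
    (fun w hw => hN0 w (Finset.mem_filter.1 hw).1) (fun w hw => hN1 w (Finset.mem_filter.1 hw).1)
    (fun w hw w' hw' hne => hnp w (Finset.mem_filter.1 hw).1 w' (Finset.mem_filter.1 hw').1 hne
      (mul_pos (Finset.mem_filter.1 hw).2 (Finset.mem_filter.1 hw').2))
  have hneg : ∀ w ∈ S2, w k < 0 := fun w hw =>
    lt_of_le_of_ne (not_lt.1 (Finset.mem_filter.1 hw).2) (hz0 w (Finset.mem_filter.1 hw).1)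
  have e2 := dyad S2 (fun w => -w i) (fun w => -w j) (fun w => -w k) (fun w => ⌊‖w‖⌋₊) α β γ hα hβ hγ
    T0 L N1 hT hL hLl (fun w hw => by
      have := hS w (Finset.mem_filter.1 hw).1
      simp only [neg_sq]; exact this)
    (fun w hw => by have := hneg w hw; omega)
    (fun w hw => (neg_le_abs _).trans (habs w))
    (fun w hw => hN0 w (Finset.mem_filter.1 hw).1) (fun w hw => hN1 w (Finset.mem_filter.1 hw).1)
    (fun w hw w' hw' hne => by
      have := hnp w (Finset.mem_filter.1 hw).1 w' (Finset.mem_filter.1 hw').1 hne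
        (mul_pos_of_neg_of_neg (hneg w hw) (hneg w' hw'))
      intro ⟨h1, h2⟩
      exact this ⟨by linarith, by linarith⟩)
  simp only [floor_norm] at e1 e2
  rw [two_mul]
  exact add_le_add e1 e2

/-- reciprocal square roots of the pair products -/
noncomputable def PP (s0 s1 s2 : ℤ) : ℝ :=
  1 / Real.sqrt |(s0 * s1 : ℝ)| + 1 / Real.sqrt |(s0 * s2 : ℝ)| + 1 / Real.sqrt |(s1 * s2 : ℝ)|

theorem conic_case (s : Fin 3 → ℤ) (hs0 : ∀ j, s j ≠ 0) (i j k : Fin 3)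
    (hcov : ∀ l : Fin 3, l = i ∨ l = j ∨ l = k) (σ : ℤ) (hσ : σ = 1 ∨ σ = -1)
    (hi : 0 < σ * s i) (hj : 0 < σ * s j) (hk : 0 < -σ * s k)
    (hXX : (XX (s i) (s j) (s k)) = XX (s 0) (s 1) (s 2))
    (hDD : ((s i).natAbs.divisors.card : ℝ) * (s j).natAbs.divisors.card *
      (s k).natAbs.divisors.card = ((s 0).natAbs.divisors.card : ℝ) * (s 1).natAbs.divisors.card *
      (s 2).natAbs.divisors.card)
    (hPP : 1 / Real.sqrt |((s i : ℝ) * s j)| ≤ PP (s 0) (s 1) (s 2))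
    (S : Finset (Fin 3 → ℤ)) (T0 : ℝ) (N1 : ℕ) (hT : 0 < T0)
    (hS : ∀ w ∈ S, s i * w i ^ 2 + s j * w j ^ 2 + s k * w k ^ 2 = 0)
    (hP : ∀ w ∈ S, Prim w)
    (hn0 : ∀ w ∈ S, T0 ≤ ‖w‖) (hn1 : ∀ w ∈ S, ‖w‖ ≤ N1) :
    ∑ w ∈ S, 1 / ‖w‖ ≤ 2 * ((Nat.log 2 N1 + 1) *
      ((((s 0).natAbs.divisors.card : ℝ) * ((s 1).natAbs.divisors.card) *
      ((s 2).natAbs.divisors.card)) ^ 2 *
        (24 * (Real.sqrt (XX (s 0) (s 1) (s 2)) * PP (s 0) (s 1) (s 2)) + 8 / T0))) := by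
  set X : ℝ := (XX (s 0) (s 1) (s 2) : ℝ) with hX
  have hXpos : 0 < X := by
    have : 0 < XX (s 0) (s 1) (s 2) := by
      rw [XX]
      have e1 := Int.gcd_pos_of_ne_zero_left (s 1) (hs0 0)
      have e2 := Int.gcd_pos_of_ne_zero_left (s 2) (hs0 0)
      have e3 := Int.gcd_pos_of_ne_zero_left (s 2) (hs0 1)
      positivity
    rw [hX]; exact_mod_cast this
  set Q : ℝ := |((s i * s j * s k : ℤ) : ℝ)| with hQ
  have hQpos : 0 < Q := by
    rw [hQ]
    apply abs_pos.2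
    have := mul_ne_zero (mul_ne_zero (hs0 i) (hs0 j)) (hs0 k)
    exact_mod_cast this
  have hσd : ∀ x m : ℤ, σ * x ∣ m ↔ x ∣ m := by
    intro x m
    rcases hσ with h | h
    · rw [h, one_mul]
    · rw [h, neg_one_mul, neg_dvd]
  have hσd' : ∀ x m : ℤ, -σ * x ∣ m ↔ x ∣ m := by
    intro x m
    rcases hσ with h | h
    · rw [h, neg_one_mul, neg_dvd]
    · rw [h, neg_neg, one_mul]
  have hσn : ∀ x : ℤ, (σ * x).natAbs = x.natAbs := by
    intro x
    rcases hσ with h | h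
    · rw [h, one_mul]
    · rw [h, neg_one_mul, Int.natAbs_neg]
  have hσn' : ∀ x : ℤ, (-σ * x).natAbs = x.natAbs := by
    intro x
    rcases hσ with h | h
    · rw [h, neg_one_mul, Int.natAbs_neg]
    · rw [h, neg_neg, one_mul]
  have main := conic_half i j k hcov S (σ * s i) (σ * s j) (-σ * s k) hi hj hk T0 (Q / X) N1 hT
    (by positivity) ?_ ?_ hP hn0 hn1
  · rw [hσn, hσn, hσn', hDD] at main
    have hsq : Real.sqrt (((-σ * s k : ℤ) : ℝ) / (Q / X)) ≤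
        Real.sqrt X * PP (s 0) (s 1) (s 2) := by
      have e1 : (((-σ * s k : ℤ) : ℝ) / (Q / X)) = X / |((s i : ℝ) * s j)| := by
        have e2 : ((-σ * s k : ℤ) : ℝ) = |((s k : ℤ) : ℝ)| := by
          have : -σ * s k = |s k| := by
            rw [← abs_of_pos hk, abs_mul, abs_neg]
            rcases hσ with h | h
            · rw [h]; simp
            · rw [h]; simp
          rw [this]; push_cast; rfl
        rw [e2, hQ]
        push_cast
        rw [abs_mul ((s i : ℝ) * s j) (s k : ℝ)]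
        have h1 : |((s k : ℤ) : ℝ)| ≠ 0 := by
          rw [abs_ne_zero]; exact_mod_cast hs0 k
        have h2 : |((s i : ℝ) * s j)| ≠ 0 := by
          rw [abs_ne_zero]
          exact mul_ne_zero (by exact_mod_cast hs0 i) (by exact_mod_cast hs0 j)
        field_simp
      rw [e1, Real.sqrt_div hXpos.le]
      have : Real.sqrt X / Real.sqrt |((s i : ℝ) * s j)| =
        Real.sqrt X * (1 / Real.sqrt |((s i : ℝ) * s j)|) := by ring
      rw [this]
      exact mul_le_mul_of_nonneg_left hPP (Real.sqrt_nonneg _)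
    refine main.trans ?_
    gcongr
  · intro m hm h1 h2 h3
    rw [hσd] at h1 h2
    rw [hσd'] at h3
    have := lcm_lower (s i) (s j) (s k) m hm h1 h2 h3
    rw [hXX] at this
    rw [div_le_iff₀ hXpos, hQ, hX]
    exact_mod_cast this
  · intro w hw
    have := hS w hw
    linear_combination σ * this

/-- summation of `1/‖w‖` over primitive points of the conic `∑ s i w i ^ 2 = 0` -/
theorem conic_sum (s : Fin 3 → ℤ) (hs0 : ∀ j, s j ≠ 0)
    (S : Finset (Fin 3 → ℤ)) (T0 : ℝ) (N1 : ℕ) (hT : 0 < T0)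
    (hS : ∀ w ∈ S, s 0 * w 0 ^ 2 + s 1 * w 1 ^ 2 + s 2 * w 2 ^ 2 = 0)
    (hP : ∀ w ∈ S, Prim w)
    (hn0 : ∀ w ∈ S, T0 ≤ ‖w‖) (hn1 : ∀ w ∈ S, ‖w‖ ≤ N1) :
    ∑ w ∈ S, 1 / ‖w‖ ≤ 2 * ((Nat.log 2 N1 + 1) *
      ((((s 0).natAbs.divisors.card : ℝ) * ((s 1).natAbs.divisors.card) *
      ((s 2).natAbs.divisors.card)) ^ 2 *
        (24 * (Real.sqrt (XX (s 0) (s 1) (s 2)) * PP (s 0) (s 1) (s 2)) + 8 / T0))) := by
  have hPP0 : 0 ≤ PP (s 0) (s 1) (s 2) := by rw [PP]; positivity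
  rcases S.eq_empty_or_nonempty with he | ⟨w0, hw0⟩
  · rw [he, Finset.sum_empty]; positivity
  -- not all of the same sign
  have hsame : ∀ σ : ℤ, ¬ (0 < σ * s 0 ∧ 0 < σ * s 1 ∧ 0 < σ * s 2) := by
    intro σ ⟨h0, h1, h2⟩
    have e := hS w0 hw0
    obtain ⟨l, hl⟩ := prim_ne (hP w0 hw0)
    have e' : (σ * s 0) * w0 0 ^ 2 + (σ * s 1) * w0 1 ^ 2 + (σ * s 2) * w0 2 ^ 2 = 0 := by
      linear_combination σ * e
    have a0 : 0 ≤ (σ * s 0) * w0 0 ^ 2 := by positivity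
    have a1 : 0 ≤ (σ * s 1) * w0 1 ^ 2 := by positivity
    have a2 : 0 ≤ (σ * s 2) * w0 2 ^ 2 := by positivity
    have hall : ∀ l, 0 < σ * s l := fin3_cases _ h0 h1 h2
    have b : ∀ l, (σ * s l) * w0 l ^ 2 = 0 := by
      apply fin3_cases <;> linarith
    have : 0 < (σ * s l) * w0 l ^ 2 := by
      have := hall l
      positivity
    rw [b l] at this
    exact lt_irrefl _ this
  have sg : ∀ l, 0 < s l ∨ 0 < - s l := by
    intro l
    rcases lt_or_gt_of_ne (hs0 l) with h | h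
    · right; linarith
    · left; exact h
  have p01 : 1 / Real.sqrt |((s 0 : ℝ) * s 1)| ≤ PP (s 0) (s 1) (s 2) := by
    rw [PP]
    have : 0 ≤ 1 / Real.sqrt |((s 0 : ℝ) * s 2)| := by positivity
    have : 0 ≤ 1 / Real.sqrt |((s 1 : ℝ) * s 2)| := by positivity
    linarith
  have p02 : 1 / Real.sqrt |((s 0 : ℝ) * s 2)| ≤ PP (s 0) (s 1) (s 2) := by
    rw [PP]
    have : 0 ≤ 1 / Real.sqrt |((s 0 : ℝ) * s 1)| := by positivity
    have : 0 ≤ 1 / Real.sqrt |((s 1 : ℝ) * s 2)| := by positivity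
    linarith
  have p12 : 1 / Real.sqrt |((s 1 : ℝ) * s 2)| ≤ PP (s 0) (s 1) (s 2) := by
    rw [PP]
    have : 0 ≤ 1 / Real.sqrt |((s 0 : ℝ) * s 1)| := by positivity
    have : 0 ≤ 1 / Real.sqrt |((s 0 : ℝ) * s 2)| := by positivity
    linarith
  have x021 : XX (s 0) (s 2) (s 1) = XX (s 0) (s 1) (s 2) := by
    rw [XX, XX, Int.gcd_comm (s 2) (s 1)]; ring
  have x120 : XX (s 1) (s 2) (s 0) = XX (s 0) (s 1) (s 2) := by
    rw [XX, XX, Int.gcd_comm (s 1) (s 0), Int.gcd_comm (s 2) (s 0)]; ring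
  have case01 : ∀ σ : ℤ, (σ = 1 ∨ σ = -1) → 0 < σ * s 0 → 0 < σ * s 1 → 0 < -σ * s 2 →
      ∑ w ∈ S, 1 / ‖w‖ ≤ 2 * ((Nat.log 2 N1 + 1) *
      ((((s 0).natAbs.divisors.card : ℝ) * ((s 1).natAbs.divisors.card) *
      ((s 2).natAbs.divisors.card)) ^ 2 *
        (24 * (Real.sqrt (XX (s 0) (s 1) (s 2)) * PP (s 0) (s 1) (s 2)) + 8 / T0))) := by
    intro σ hσ h0 h1 h2
    exact conic_case s hs0 0 1 2 (by decide) σ hσ h0 h1 h2 rfl rfl p01 S T0 N1 hT
      (fun w hw => by have := hS w hw; linarith) hP hn0 hn1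
  have case02 : ∀ σ : ℤ, (σ = 1 ∨ σ = -1) → 0 < σ * s 0 → 0 < σ * s 2 → 0 < -σ * s 1 →
      ∑ w ∈ S, 1 / ‖w‖ ≤ 2 * ((Nat.log 2 N1 + 1) *
      ((((s 0).natAbs.divisors.card : ℝ) * ((s 1).natAbs.divisors.card) *
      ((s 2).natAbs.divisors.card)) ^ 2 *
        (24 * (Real.sqrt (XX (s 0) (s 1) (s 2)) * PP (s 0) (s 1) (s 2)) + 8 / T0))) := by
    intro σ hσ h0 h1 h2
    exact conic_case s hs0 0 2 1 (by decide) σ hσ h0 h1 h2 x021 (by ring) p02 S T0 N1 hT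
      (fun w hw => by have := hS w hw; linarith) hP hn0 hn1
  have case12 : ∀ σ : ℤ, (σ = 1 ∨ σ = -1) → 0 < σ * s 1 → 0 < σ * s 2 → 0 < -σ * s 0 →
      ∑ w ∈ S, 1 / ‖w‖ ≤ 2 * ((Nat.log 2 N1 + 1) *
      ((((s 0).natAbs.divisors.card : ℝ) * ((s 1).natAbs.divisors.card) *
      ((s 2).natAbs.divisors.card)) ^ 2 *
        (24 * (Real.sqrt (XX (s 0) (s 1) (s 2)) * PP (s 0) (s 1) (s 2)) + 8 / T0))) := by
    intro σ hσ h0 h1 h2
    exact conic_case s hs0 1 2 0 (by decide) σ hσ h0 h1 h2 x120 (by ring) p12 S T0 N1 hT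
      (fun w hw => by have := hS w hw; linarith) hP hn0 hn1
  have o : ∀ x : ℤ, (1:ℤ) * x = x := one_mul
  have n : ∀ x : ℤ, (-1:ℤ) * x = -x := neg_one_mul
  have nn : ∀ x : ℤ, (- -1:ℤ) * x = x := by intro x; ring
  rcases sg 0 with h0 | h0 <;> rcases sg 1 with h1 | h1 <;> rcases sg 2 with h2 | h2
  · exact absurd ⟨by rwa [o], by rwa [o], by rwa [o]⟩ (hsame 1)
  · exact case01 1 (Or.inl rfl) (by rwa [o]) (by rwa [o]) (by rwa [n])
  · exact case02 1 (Or.inl rfl) (by rwa [o]) (by rwa [o]) (by rwa [n])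
  · exact case12 (-1) (Or.inr rfl) (by rwa [n]) (by rwa [n]) (by rwa [nn])
  · exact case12 1 (Or.inl rfl) (by rwa [o]) (by rwa [o]) (by rwa [n])
  · exact case02 (-1) (Or.inr rfl) (by rwa [n]) (by rwa [n]) (by rwa [nn])
  · exact case01 (-1) (Or.inr rfl) (by rwa [n]) (by rwa [n]) (by rwa [nn])
  · exact absurd ⟨by rwa [n], by rwa [n], by rwa [n]⟩ (hsame (-1))

end Pool.Agent.E8helper43.SL
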