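import Pool.Agent.E8helper43.SL.VCount

set_option autoImplicit false

namespace Pool.Agent.E8helper43.SL

open Finset

/-- an orthogonal frame: three matrices `(a i, b i; c i, d i)` of determinants `s i`, pairwise
orthogonal for the determinant form, whose sum is twice a matrix of determinant one -/
structure Frame (a b c d s : Fin 3 → ℤ) : Prop where
  hs : ∀ i, a i * d i - b i * c i = s i
  ho : ∀ i j, i ≠ j → a i * d j + a j * d i - b i * c j - b j * c i = 0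
  hd : ∃ α β γ δ : ℤ, α * δ - β * γ = 1 ∧ a 0 + a 1 + a 2 = 2 * α ∧ b 0 + b 1 + b 2 = 2 * β ∧
    c 0 + c 1 + c 2 = 2 * γ ∧ d 0 + d 1 + d 2 = 2 * δ

variable {a b c d s : Fin 3 → ℤ}

theorem Frame.shear (h : Frame a b c d s) (t : ℤ) :
    Frame (fun i => a i + t * b i) b (fun i => c i + t * d i) d s := by
  obtain ⟨α, β, γ, δ, h1, h2, h3, h4, h5⟩ := h.hd
  refine ⟨fun i => ?_, fun i j hij => ?_, α + t * β, β, γ + t * δ, δ, ?_, ?_, h3, ?_, h5⟩
  · have := h.hs i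
    linear_combination this
  · have := h.ho i j hij
    linear_combination this
  · linear_combination h1
  · linear_combination h2 + t * h3
  · linear_combination h4 + t * h5

/-- the mixed cross product -/
def mx (a b c d : Fin 3 → ℤ) : Fin 3 → ℤ := fun i =>
  a (i + 1) * d (i + 2) + b (i + 1) * c (i + 2) - a (i + 2) * d (i + 1) - b (i + 2) * c (i + 1)

theorem cr_shear (a b c d : Fin 3 → ℤ) (t : ℤ) (i : Fin 3) :
    cr (fun i => a i + t * b i) (fun i => c i + t * d i) i =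
      cr a c i + t * mx a b c d i + t ^ 2 * cr b d i := by
  simp only [cr, mx]; ring

/-- the conic -/
theorem Frame.conic (h : Frame a b c d s) :
    s 0 * cr a c 0 ^ 2 + s 1 * cr a c 1 ^ 2 + s 2 * cr a c 2 ^ 2 = 0 := by
  have h0 := h.hs 0
  have h1 := h.hs 1
  have h2 := h.hs 2
  have o01 := h.ho 0 1 (by decide)
  have o02 := h.ho 0 2 (by decide)
  have o12 := h.ho 1 2 (by decide)
  have e0 : cr a c 0 = a 1 * c 2 - a 2 * c 1 := rfl
  have e1 : cr a c 1 = a 2 * c 0 - a 0 * c 2 := rfl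
  have e2 : cr a c 2 = a 0 * c 1 - a 1 * c 0 := rfl
  rw [← h0, ← h1, ← h2]
  have key : (a 0 * d 0 - b 0 * c 0) * cr a c 0 ^ 2 + (a 1 * d 1 - b 1 * c 1) * cr a c 1 ^ 2 +
      (a 2 * d 2 - b 2 * c 2) * cr a c 2 ^ 2 =
      (cr a c 0 * a 0 + cr a c 1 * a 1 + cr a c 2 * a 2) *
      (cr a c 0 * d 0 + cr a c 1 * d 1 + cr a c 2 * d 2) -
      (cr a c 0 * b 0 + cr a c 1 * b 1 + cr a c 2 * b 2) *
      (cr a c 0 * c 0 + cr a c 1 * c 1 + cr a c 2 * c 2) -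
      cr a c 0 * cr a c 1 * (a 0 * d 1 + a 1 * d 0 - b 0 * c 1 - b 1 * c 0) -
      cr a c 0 * cr a c 2 * (a 0 * d 2 + a 2 * d 0 - b 0 * c 2 - b 2 * c 0) -
      cr a c 1 * cr a c 2 * (a 1 * d 2 + a 2 * d 1 - b 1 * c 2 - b 2 * c 1) := by ring
  have k1 : cr a c 0 * a 0 + cr a c 1 * a 1 + cr a c 2 * a 2 = 0 := by
    rw [e0, e1, e2]; ring
  have k2 : cr a c 0 * c 0 + cr a c 1 * c 1 + cr a c 2 * c 2 = 0 := by
    rw [e0, e1, e2]; ring
  rw [key, k1, k2, o01, o02, o12]; ring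

theorem Frame.disc (h : Frame a b c d s) (i : Fin 3) :
    mx a b c d i ^ 2 - 4 * cr a c i * cr b d i = -4 * s (i + 1) * s (i + 2) := by
  have hne : i + 1 ≠ i + 2 := by revert i; decide
  rw [← h.hs (i + 1), ← h.hs (i + 2)]
  have ho := h.ho (i + 1) (i + 2) hne
  simp only [mx, cr]
  have : (a (i + 1) * d (i + 2) + b (i + 1) * c (i + 2) - a (i + 2) * d (i + 1) -
      b (i + 2) * c (i + 1)) ^ 2 - 4 * (a (i + 1) * c (i + 2) - a (i + 2) * c (i + 1)) *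
      (b (i + 1) * d (i + 2) - b (i + 2) * d (i + 1)) - (-4 * (a (i + 1) * d (i + 1) -
      b (i + 1) * c (i + 1)) * (a (i + 2) * d (i + 2) - b (i + 2) * c (i + 2))) =
      (a (i + 1) * d (i + 2) + a (i + 2) * d (i + 1) - b (i + 1) * c (i + 2) -
      b (i + 2) * c (i + 1)) ^ 2 := by ring
  rw [ho] at this
  linarith

theorem Frame.prod (h : Frame a b c d s) :
    s 0 * cr a c 0 * cr b d 0 + s 1 * cr a c 1 * cr b d 1 + s 2 * cr a c 2 * cr b d 2 =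
      2 * (s 0 * s 1 * s 2) := by
  have h0 := h.hs 0
  have h1 := h.hs 1
  have h2 := h.hs 2
  have o01 := h.ho 0 1 (by decide)
  have o02 := h.ho 0 2 (by decide)
  have o12 := h.ho 1 2 (by decide)
  have e0 : cr a c 0 = a 1 * c 2 - a 2 * c 1 := rfl
  have e1 : cr a c 1 = a 2 * c 0 - a 0 * c 2 := rfl
  have e2 : cr a c 2 = a 0 * c 1 - a 1 * c 0 := rfl
  have f0 : cr b d 0 = b 1 * d 2 - b 2 * d 1 := rfl
  have f1 : cr b d 1 = b 2 * d 0 - b 0 * d 2 := rfl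
  have f2 : cr b d 2 = b 0 * d 1 - b 1 * d 0 := rfl
  rw [e0, e1, e2, f0, f1, f2]
  generalize a 0 = a0 at *
  generalize a 1 = a1 at *
  generalize a 2 = a2 at *
  generalize b 0 = b0 at *
  generalize b 1 = b1 at *
  generalize b 2 = b2 at *
  generalize c 0 = c0 at *
  generalize c 1 = c1 at *
  generalize c 2 = c2 at *
  generalize d 0 = d0 at *
  generalize d 1 = d1 at *
  generalize d 2 = d2 at *
  generalize s 0 = s0 at *
  generalize s 1 = s1 at *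
  generalize s 2 = s2 at *
  clear h
  -- `P` : the Gram determinant
  have P : ∀ g01 g02 g12 : ℤ, a0 * d1 + a1 * d0 - b0 * c1 - b1 * c0 = g01 →
      a0 * d2 + a2 * d0 - b0 * c2 - b2 * c0 = g02 →
      a1 * d2 + a2 * d1 - b1 * c2 - b2 * c1 = g12 →
      8 * s0 * s1 * s2 + 2 * g01 * g02 * g12 - 2 * s0 * g12 ^ 2 - 2 * s1 * g02 ^ 2
        - 2 * s2 * g01 ^ 2 =
      2 * ((a0 * (c1 * d2 - c2 * d1) - a1 * (c0 * d2 - c2 * d0) + a2 * (c0 * d1 - c1 * d0)) *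
        (b0 * (d1 * a2 - d2 * a1) - b1 * (d0 * a2 - d2 * a0) + b2 * (d0 * a1 - d1 * a0)) -
        (a0 * (c1 * b2 - c2 * b1) - a1 * (c0 * b2 - c2 * b0) + a2 * (c0 * b1 - c1 * b0)) *
        (b0 * (d1 * c2 - d2 * c1) - b1 * (d0 * c2 - d2 * c0) + b2 * (d0 * c1 - d1 * c0))) := by
    intro g01 g02 g12 k1 k2 k3
    rw [← k1, ← k2, ← k3, ← h0, ← h1, ← h2]; ring
  have Q : (a0 * (c1 * d2 - c2 * d1) - a1 * (c0 * d2 - c2 * d0) + a2 * (c0 * d1 - c1 * d0)) *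
        (b0 * (d1 * a2 - d2 * a1) - b1 * (d0 * a2 - d2 * a0) + b2 * (d0 * a1 - d1 * a0)) -
        (a0 * (c1 * b2 - c2 * b1) - a1 * (c0 * b2 - c2 * b0) + a2 * (c0 * b1 - c1 * b0)) *
        (b0 * (d1 * c2 - d2 * c1) - b1 * (d0 * c2 - d2 * c0) + b2 * (d0 * c1 - d1 * c0)) =
      2 * ((a0 * d0 - b0 * c0) * (a1 * c2 - a2 * c1) * (b1 * d2 - b2 * d1) +
      (a1 * d1 - b1 * c1) * (a2 * c0 - a0 * c2) * (b2 * d0 - b0 * d2) +
      (a2 * d2 - b2 * c2) * (a0 * c1 - a1 * c0) * (b0 * d1 - b1 * d0)) +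
      (a0 * d1 + a1 * d0 - b0 * c1 - b1 * c0) * ((a1 * c2 - a2 * c1) * (b2 * d0 - b0 * d2) +
        (a2 * c0 - a0 * c2) * (b1 * d2 - b2 * d1)) +
      (a0 * d2 + a2 * d0 - b0 * c2 - b2 * c0) * ((a1 * c2 - a2 * c1) * (b0 * d1 - b1 * d0) +
        (a0 * c1 - a1 * c0) * (b1 * d2 - b2 * d1)) +
      (a1 * d2 + a2 * d1 - b1 * c2 - b2 * c1) * ((a2 * c0 - a0 * c2) * (b0 * d1 - b1 * d0) +
        (a0 * c1 - a1 * c0) * (b2 * d0 - b0 * d2)) := by
    ring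
  have P' := P 0 0 0 o01 o02 o12
  rw [Q, o01, o02, o12, h0, h1, h2] at P'
  linarith

end Pool.Agent.E8helper43.SL
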