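import Pool.Agent.E8helper43.SL.Frame

set_option autoImplicit false

namespace Pool.Agent.E8helper43.SL

open Finset

theorem bez3 (a b c : ℤ) : ∃ u v w : ℤ,
    ((Int.gcd (Int.gcd a b : ℤ) c : ℕ) : ℤ) = a * u + b * v + c * w := by
  have h1 := Int.gcd_eq_gcd_ab a b
  have h2 := Int.gcd_eq_gcd_ab (Int.gcd a b : ℤ) c
  refine ⟨Int.gcdA a b * Int.gcdA (Int.gcd a b : ℤ) c, Int.gcdB a b * Int.gcdA (Int.gcd a b : ℤ) c,
    Int.gcdB (Int.gcd a b : ℤ) c, ?_⟩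
  rw [h2]
  have h3 : ((Int.gcd a b : ℕ) : ℤ) * Int.gcdA (Int.gcd a b : ℤ) c =
      (a * Int.gcdA a b + b * Int.gcdB a b) * Int.gcdA (Int.gcd a b : ℤ) c := by rw [← h1]
  rw [h3]; ring

/-- product of three pairwise gcds -/
def XX (s0 s1 s2 : ℤ) : ℕ := Int.gcd s0 s1 * Int.gcd s0 s2 * Int.gcd s1 s2

theorem prod_dvd (G a0 a1 a2 : ℤ) (h01 : G ∣ a0 * a1) (h02 : G ∣ a0 * a2) (h12 : G ∣ a1 * a2) :
    G ∣ ((Int.gcd (Int.gcd a0 a1 : ℤ) G : ℕ) : ℤ) * ((Int.gcd (Int.gcd a0 a2 : ℤ) G : ℕ) : ℤ) *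
      ((Int.gcd (Int.gcd a1 a2 : ℤ) G : ℕ) : ℤ) := by
  obtain ⟨u, v, w, e1⟩ := bez3 a0 a1 G
  obtain ⟨u', v', w', e2⟩ := bez3 a0 a2 G
  obtain ⟨u'', v'', w'', e3⟩ := bez3 a1 a2 G
  obtain ⟨p, hp⟩ := h01
  obtain ⟨q, hq⟩ := h02
  obtain ⟨r, hr⟩ := h12
  rw [e1, e2, e3]
  refine ⟨a0 * u * u' * (p * u'' + q * v'' + a0 * w'') +
    (q * u * v' + p * u' * v + r * v * v' + w * (a0 * u' + a2 * v') + w' * (a0 * u + a1 * v) +
      G * w * w') * (a1 * u'' + a2 * v'' + G * w''), ?_⟩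
  linear_combination (a0 * u * u' * u'' + u' * v * (a1 * u'' + a2 * v'' + G * w'')) * hp +
    (a0 * u * u' * v'' + u * v' * (a1 * u'' + a2 * v'' + G * w'')) * hq +
    (v * v' * (a1 * u'' + a2 * v'' + G * w'')) * hr

theorem g0core (g : ℕ) (hg : 0 < g) (a b c d s : Fin 3 → ℤ) (hs0 : ∀ j, s j ≠ 0)
    (hs : ∀ i, a i * d i - b i * c i = s i)
    (ho : ∀ i j, i ≠ j → a i * d j + a j * d i - b i * c j - b j * c i = 0)
    (hc : ∀ j, (g : ℤ) ∣ 2 * c j) (hb : ∀ j, (g : ℤ) ∣ 2 * b j)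
    (hda : ∀ j, (g : ℤ) ∣ 2 * (d j - a j)) :
    g ^ 2 ≤ 16 * XX (s 0) (s 1) (s 2) := by
  set k := Nat.gcd g 4 with hk
  have hk0 : 0 < k := Nat.gcd_pos_of_pos_left _ hg
  have hk4 : k ≤ 4 := Nat.le_of_dvd (by norm_num) (Nat.gcd_dvd_right g 4)
  obtain ⟨G, hG⟩ : k ∣ g := Nat.gcd_dvd_left g 4
  obtain ⟨f, hf⟩ : k ∣ 4 := Nat.gcd_dvd_right g 4
  have hcop : Nat.Coprime G f := by
    have := Nat.coprime_div_gcd_div_gcd (m := g) (n := 4) (by rw [← hk]; exact hk0)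
    rw [← hk] at this
    have e1 : g / k = G := by rw [hG]; exact Nat.mul_div_cancel_left _ hk0
    have e2 : 4 / k = f := by
      have : 4 / k = k * f / k := by rw [← hf]
      rw [this]; exact Nat.mul_div_cancel_left _ hk0
    rwa [e1, e2] at this
  have hdiv : ∀ x : ℤ, (g : ℤ) ∣ 4 * x → (G : ℤ) ∣ x := by
    intro x hx
    have h1 : ((k : ℤ) * G) ∣ (k : ℤ) * (f * x) := by
      have e1 : (g : ℤ) = k * G := by exact_mod_cast hG
      have e2 : (4 : ℤ) = k * f := by exact_mod_cast hf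
      rw [← e1, ← mul_assoc, ← e2]; exact hx
    have h2 : (G : ℤ) ∣ f * x := (mul_dvd_mul_iff_left (by exact_mod_cast hk0.ne')).1 h1
    exact (Nat.isCoprime_iff_coprime.2 hcop).dvd_of_dvd_mul_left h2
  have hdiv2 : ∀ x : ℤ, (g : ℤ) ∣ 2 * x → (G : ℤ) ∣ x := by
    intro x hx
    apply hdiv
    have : 4 * x = 2 * (2 * x) := by ring
    rw [this]; exact Dvd.dvd.mul_left hx _
  have hc' := fun j => hdiv2 _ (hc j)
  have hb' := fun j => hdiv2 _ (hb j)
  have hda' := fun j => hdiv2 _ (hda j)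
  have haa : ∀ i j, i ≠ j → (G : ℤ) ∣ a i * a j := by
    intro i j hij
    apply hdiv
    have h1 := ho i j hij
    have e : 4 * (a i * a j) = -(a i * (2 * (d j - a j))) - a j * (2 * (d i - a i)) +
        (2 * b i) * c j + (2 * b j) * c i := by linear_combination 2 * h1
    rw [e]
    exact dvd_add (dvd_add (dvd_sub ((dvd_neg).2 (Dvd.dvd.mul_left (hda j) _))
      (Dvd.dvd.mul_left (hda i) _)) (Dvd.dvd.mul_right (hb i) _)) (Dvd.dvd.mul_right (hb j) _)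
  have hx : ∀ i j, (Int.gcd (Int.gcd (a i) (a j) : ℤ) G) ^ 2 ∣ Int.gcd (s i) (s j) := by
    intro i j
    set x := Int.gcd (Int.gcd (a i) (a j) : ℤ) G with hx
    have xG : (x : ℤ) ∣ G := Int.gcd_dvd_right _ _
    have xg : (x : ℤ) ∣ (Int.gcd (a i) (a j) : ℤ) := Int.gcd_dvd_left _ _
    have xi : (x : ℤ) ∣ a i := xg.trans (Int.gcd_dvd_left _ _)
    have xj : (x : ℤ) ∣ a j := xg.trans (Int.gcd_dvd_right _ _)
    have key : ∀ l, (x : ℤ) ∣ a l → (x : ℤ) ^ 2 ∣ s l := by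
      intro l hl
      have xd : (x : ℤ) ∣ d l := by
        have : d l = a l + (d l - a l) := by ring
        rw [this]; exact dvd_add hl (xG.trans (hda' l))
      rw [← hs l, pow_two]
      exact dvd_sub (mul_dvd_mul hl xd) (mul_dvd_mul (xG.trans (hb' l)) (xG.trans (hc' l)))
    have h1 := Int.dvd_coe_gcd (key i xi) (key j xj)
    have h2 : ((x ^ 2 : ℕ) : ℤ) ∣ ((Int.gcd (s i) (s j) : ℕ) : ℤ) := by push_cast; exact h1
    exact Int.natCast_dvd_natCast.1 h2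
  have hprod := prod_dvd (G : ℤ) (a 0) (a 1) (a 2) (haa 0 1 (by decide)) (haa 0 2 (by decide))
    (haa 1 2 (by decide))
  have hprod' : G ∣ Int.gcd (Int.gcd (a 0) (a 1) : ℤ) G * Int.gcd (Int.gcd (a 0) (a 2) : ℤ) G *
      Int.gcd (Int.gcd (a 1) (a 2) : ℤ) G := by exact_mod_cast hprod
  have hsq : G ^ 2 ∣ XX (s 0) (s 1) (s 2) := by
    have h1 := pow_dvd_pow_of_dvd hprod' 2
    refine h1.trans ?_
    rw [mul_pow, mul_pow, XX]
    exact mul_dvd_mul (mul_dvd_mul (hx 0 1) (hx 0 2)) (hx 1 2)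
  have hXpos : 0 < XX (s 0) (s 1) (s 2) := by
    rw [XX]
    have e1 := Int.gcd_pos_of_ne_zero_left (s 1) (hs0 0)
    have e2 := Int.gcd_pos_of_ne_zero_left (s 2) (hs0 0)
    have e3 := Int.gcd_pos_of_ne_zero_left (s 2) (hs0 1)
    positivity
  have hle := Nat.le_of_dvd hXpos hsq
  calc g ^ 2 = k ^ 2 * G ^ 2 := by rw [hG, mul_pow]
    _ ≤ 4 ^ 2 * G ^ 2 := Nat.mul_le_mul_right _ (Nat.pow_le_pow_left hk4 2)
    _ ≤ 16 * XX (s 0) (s 1) (s 2) := by
        have : (4:ℕ) ^ 2 = 16 := by norm_num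
        rw [this]; exact Nat.mul_le_mul_left _ hle

/-- the common content of the three cross products is small -/
theorem g0_bound {a b c d s : Fin 3 → ℤ} (h : Frame a b c d s) (hs0 : ∀ j, s j ≠ 0)
    (g : ℕ) (hg : 0 < g) (h1 : ∀ i, (g : ℤ) ∣ cr a c i) (h2 : ∀ i, (g : ℤ) ∣ mx a b c d i)
    (h3 : ∀ i, (g : ℤ) ∣ cr b d i) : g ^ 2 ≤ 16 * XX (s 0) (s 1) (s 2) := by
  obtain ⟨α, β, γ, δ, e, ea, eb, ec, ed⟩ := h.hd
  set a' : Fin 3 → ℤ := fun i => δ * a i - β * c i with ha'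
  set b' : Fin 3 → ℤ := fun i => δ * b i - β * d i with hb'
  set c' : Fin 3 → ℤ := fun i => -γ * a i + α * c i with hc'
  set d' : Fin 3 → ℤ := fun i => -γ * b i + α * d i with hd'
  have sa : a' 0 + a' 1 + a' 2 = 2 := by
    simp only [ha']; linear_combination δ * ea - β * ec + 2 * e
  have sb : b' 0 + b' 1 + b' 2 = 0 := by
    simp only [hb']; linear_combination δ * eb - β * ed
  have sc : c' 0 + c' 1 + c' 2 = 0 := by
    simp only [hc']; linear_combination (-γ) * ea + α * ec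
  have sd : d' 0 + d' 1 + d' 2 = 2 := by
    simp only [hd']; linear_combination (-γ) * eb + α * ed + 2 * e
  have k1 : ∀ i, cr a' c' i = cr a c i := by
    intro i; simp only [cr, ha', hc']
    linear_combination (a (i + 1) * c (i + 2) - a (i + 2) * c (i + 1)) * e
  have k3 : ∀ i, cr b' d' i = cr b d i := by
    intro i; simp only [cr, hb', hd']
    linear_combination (b (i + 1) * d (i + 2) - b (i + 2) * d (i + 1)) * e
  have k2 : ∀ i, mx a' b' c' d' i = mx a b c d i := by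
    intro i; simp only [mx, ha', hb', hc', hd']
    linear_combination (a (i + 1) * d (i + 2) + b (i + 1) * c (i + 2) - a (i + 2) * d (i + 1) -
      b (i + 2) * c (i + 1)) * e
  refine g0core g hg a' b' c' d' s hs0 ?_ ?_ ?_ ?_ ?_
  · intro i
    have := h.hs i
    simp only [ha', hb', hc', hd']
    linear_combination (a i * d i - b i * c i) * e + this
  · intro i j hij
    have := h.ho i j hij
    simp only [ha', hb', hc', hd']
    linear_combination (a i * d j + a j * d i - b i * c j - b j * c i) * e + this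
  · have m1 := fun i => (k1 i).symm ▸ h1 i
    intro j
    have hj : ∀ j, 2 * c' j = cr a' c' (j + 1) - cr a' c' (j + 2) := by
      apply fin3_cases
      · show 2 * c' 0 = (a' 2 * c' 0 - a' 0 * c' 2) - (a' 0 * c' 1 - a' 1 * c' 0)
        linear_combination (-c' 0) * sa + a' 0 * sc
      · show 2 * c' 1 = (a' 0 * c' 1 - a' 1 * c' 0) - (a' 1 * c' 2 - a' 2 * c' 1)
        linear_combination (-c' 1) * sa + a' 1 * sc
      · show 2 * c' 2 = (a' 1 * c' 2 - a' 2 * c' 1) - (a' 2 * c' 0 - a' 0 * c' 2)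
        linear_combination (-c' 2) * sa + a' 2 * sc
    rw [hj j, k1, k1]
    exact dvd_sub (h1 _) (h1 _)
  · intro j
    have hj : ∀ j, 2 * b' j = cr b' d' (j + 2) - cr b' d' (j + 1) := by
      apply fin3_cases
      · show 2 * b' 0 = (b' 0 * d' 1 - b' 1 * d' 0) - (b' 2 * d' 0 - b' 0 * d' 2)
        linear_combination (d' 0) * sb - b' 0 * sd
      · show 2 * b' 1 = (b' 1 * d' 2 - b' 2 * d' 1) - (b' 0 * d' 1 - b' 1 * d' 0)
        linear_combination (d' 1) * sb - b' 1 * sd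
      · show 2 * b' 2 = (b' 2 * d' 0 - b' 0 * d' 2) - (b' 1 * d' 2 - b' 2 * d' 1)
        linear_combination (d' 2) * sb - b' 2 * sd
    rw [hj j, k3, k3]
    exact dvd_sub (h3 _) (h3 _)
  · intro j
    have hj : ∀ j, 2 * (d' j - a' j) = mx a' b' c' d' (j + 1) - mx a' b' c' d' (j + 2) := by
      apply fin3_cases
      · show 2 * (d' 0 - a' 0) = (a' 2 * d' 0 + b' 2 * c' 0 - a' 0 * d' 2 - b' 0 * c' 2) -
          (a' 0 * d' 1 + b' 0 * c' 1 - a' 1 * d' 0 - b' 1 * c' 0)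
        linear_combination (-d' 0) * sa - (c' 0) * sb + b' 0 * sc + a' 0 * sd
      · show 2 * (d' 1 - a' 1) = (a' 0 * d' 1 + b' 0 * c' 1 - a' 1 * d' 0 - b' 1 * c' 0) -
          (a' 1 * d' 2 + b' 1 * c' 2 - a' 2 * d' 1 - b' 2 * c' 1)
        linear_combination (-d' 1) * sa - (c' 1) * sb + b' 1 * sc + a' 1 * sd
      · show 2 * (d' 2 - a' 2) = (a' 1 * d' 2 + b' 1 * c' 2 - a' 2 * d' 1 - b' 2 * c' 1) -
          (a' 2 * d' 0 + b' 2 * c' 0 - a' 0 * d' 2 - b' 0 * c' 2)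
        linear_combination (-d' 2) * sa - (c' 2) * sb + b' 2 * sc + a' 2 * sd
    rw [hj j, k2, k2]
    exact dvd_sub (h2 _) (h2 _)

end Pool.Agent.E8helper43.SL
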