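import Pool.Agent.E8helper43.SL.Dyad

set_option autoImplicit false
set_option maxHeartbeats 4000000

namespace Pool.Agent.E8helper43.SL

open Finset

/-- primitive part -/
def prm (w : Fin 3 → ℤ) : Fin 3 → ℤ := fun i => w i / (cont w : ℤ)

theorem prm_spec {w : Fin 3 → ℤ} (h : w ≠ 0) : Prim (prm w) ∧ w = (cont w : ℤ) • prm w := by
  obtain ⟨w', h1, h2⟩ := cont_prim h
  have hpos : (cont w : ℤ) ≠ 0 := by exact_mod_cast (cont_pos h).ne'
  have h3 : prm w = w' := by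
    funext i
    have := congrFun h2 i
    simp only [Pi.smul_apply, smul_eq_mul] at this
    rw [prm]
    conv_lhs => rw [this]
    exact Int.mul_ediv_cancel_left _ hpos
  rw [h3]
  exact ⟨h1, h2⟩

theorem norm_cr_le (a c : Fin 3 → ℤ) (R : ℝ) (hR : 0 ≤ R) (ha : ‖a‖ ≤ R) (hc : ‖c‖ ≤ R) :
    ‖cr a c‖ ≤ 2 * R ^ 2 := by
  obtain ⟨i, hi, -⟩ := exists_norm_eq (cr a c)
  rw [hi]
  have h1 := fun j => (abs_le_norm a j).trans ha
  have h2 := fun j => (abs_le_norm c j).trans hc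
  have e : ((cr a c i : ℤ) : ℝ) = (a (i + 1) : ℝ) * c (i + 2) - (a (i + 2) : ℝ) * c (i + 1) := by
    simp only [cr]; push_cast; ring
  rw [e]
  calc |(a (i + 1) : ℝ) * c (i + 2) - (a (i + 2) : ℝ) * c (i + 1)|
      ≤ |(a (i + 1) : ℝ) * c (i + 2)| + |(a (i + 2) : ℝ) * c (i + 1)| := abs_sub _ _
    _ ≤ R * R + R * R := by
        rw [abs_mul, abs_mul]
        exact add_le_add (mul_le_mul (h1 _) (h2 _) (abs_nonneg _) hR)
          (mul_le_mul (h1 _) (h2 _) (abs_nonneg _) hR)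
    _ = 2 * R ^ 2 := by ring

/-- data of a frame: first column, second column -/
abbrev F4 := (Fin 3 → ℤ) × (Fin 3 → ℤ) × (Fin 3 → ℤ) × (Fin 3 → ℤ)

theorem fiber_count (s : Fin 3 → ℤ) (w : Fin 3 → ℤ) (hw : Prim w) (g : ℕ) (hg : 0 < g)
    (R : ℝ) (hR : 0 ≤ R) (S : Finset F4)
    (hS : ∀ x ∈ S, Frame x.1 x.2.2.1 x.2.1 x.2.2.2 s ∧ ‖x.1‖ ≤ R ∧ ‖x.2.1‖ ≤ R ∧
      ‖x.2.2.1‖ ≤ 3 * max ‖x.1‖ ‖x.2.1‖ ∧ ‖x.2.2.2‖ ≤ 3 * max ‖x.1‖ ‖x.2.1‖ ∧
      cr x.1 x.2.1 = (g : ℤ) • w) :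
    (S.card : ℝ) ≤ 1404 * g.divisors.card * R ^ 2 * (1 / ‖w‖) := by
  classical
  have hg' : (0:ℤ) < g := by exact_mod_cast hg
  have hwne : (g : ℤ) • w ≠ 0 := by
    obtain ⟨i, hi⟩ := prim_ne hw
    intro h0
    have := congrFun h0 i
    simp only [Pi.smul_apply, smul_eq_mul, Pi.zero_apply] at this
    exact (mul_ne_zero hg'.ne' hi) this
  have h1 : S.card ≤ 13 * (S.image (fun x => (x.1, x.2.1))).card := by
    apply Finset.card_le_mul_card_image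
    intro p hp
    obtain ⟨x0, hx0, rfl⟩ := Finset.mem_image.1 hp
    set Sp := S.filter (fun x => (x.1, x.2.1) = (x0.1, x0.2.1)) with hSp
    have hmem : ∀ x ∈ Sp, x ∈ S ∧ x.1 = x0.1 ∧ x.2.1 = x0.2.1 := by
      intro x hx
      obtain ⟨hx1, hx2⟩ := Finset.mem_filter.1 hx
      exact ⟨hx1, (Prod.mk.inj hx2).1, (Prod.mk.inj hx2).2⟩
    have hinj : Set.InjOn (fun x : F4 => (x.2.2.1, x.2.2.2)) Sp := by
      intro x hx y hy hxy
      obtain ⟨_, b1, b2⟩ := hmem x hx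
      obtain ⟨_, c1, c2⟩ := hmem y hy
      obtain ⟨d1, d2⟩ := Prod.mk.inj hxy
      exact Prod.ext (b1.trans c1.symm) (Prod.ext (b2.trans c2.symm) (Prod.ext d1 d2))
    rw [← Finset.card_image_of_injOn hinj]
    have := wcount x0.1 x0.2.1 s (by rw [(hS x0 hx0).2.2.2.2.2]; exact hwne)
      (Sp.image (fun x : F4 => (x.2.2.1, x.2.2.2))) (by
        intro y hy
        obtain ⟨x, hx, rfl⟩ := Finset.mem_image.1 hy
        obtain ⟨b0, b1, b2⟩ := hmem x hx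
        obtain ⟨c1, c2, c3, c4, c5, c6⟩ := hS x b0
        rw [b1, b2] at c1 c4 c5
        exact ⟨c1, c4, c5⟩)
    exact_mod_cast this
  have h2 := vcount w hw g hg' R hR (S.image (fun x => (x.1, x.2.1))) (by
    intro y hy
    obtain ⟨x, hx, rfl⟩ := Finset.mem_image.1 hy
    obtain ⟨c1, c2, c3, c4, c5, c6⟩ := hS x hx
    exact ⟨c6, c2, c3⟩)
  rw [Int.natAbs_natCast] at h2
  have h1' : (S.card : ℝ) ≤ 13 * (S.image (fun x => (x.1, x.2.1))).card := by exact_mod_cast h1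
  calc (S.card : ℝ) ≤ 13 * (S.image (fun x => (x.1, x.2.1))).card := h1'
    _ ≤ 13 * (g.divisors.card * (108 * R ^ 2 / ‖w‖)) := by linarith
    _ = _ := by ring

/-- the number of good frames with given determinants -/
theorem good_count (s : Fin 3 → ℤ) (hs0 : ∀ j, s j ≠ 0) (R κ Gm τ : ℝ) (hR : 0 ≤ R) (hκ : 0 < κ)
    (hGm : 0 ≤ Gm) (hτ : 0 ≤ τ)
    (hτd : ∀ n : ℕ, n ∣ (2 * (s 0 * s 1 * s 2)).natAbs → (n.divisors.card : ℝ) ≤ τ)
    (S : Finset F4)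
    (hS : ∀ x ∈ S, Frame x.1 x.2.2.1 x.2.1 x.2.2.2 s ∧ ‖x.1‖ ≤ R ∧ ‖x.2.1‖ ≤ R ∧
      ‖x.2.2.1‖ ≤ 3 * max ‖x.1‖ ‖x.2.1‖ ∧ ‖x.2.2.2‖ ≤ 3 * max ‖x.1‖ ‖x.2.1‖ ∧
      |((s 1 * s 2 : ℤ) : ℝ)| ≤ κ ^ 2 * ((cr x.1 x.2.1 0 : ℤ) : ℝ) ^ 2 ∧
      (cont (cr x.1 x.2.1) : ℝ) ≤ Gm) :
    (S.card : ℝ) ≤ 2808 * τ ^ 8 * R ^ 2 * (Nat.log 2 ⌊2 * R ^ 2⌋₊ + 1) *
      (24 * (Real.sqrt (XX (s 0) (s 1) (s 2)) * PP (s 0) (s 1) (s 2)) +
        8 * κ * Gm * PP (s 0) (s 1) (s 2)) := by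
  classical
  set Δ := (2 * (s 0 * s 1 * s 2)).natAbs with hΔ
  have hΔ0 : Δ ≠ 0 := by
    rw [hΔ, Int.natAbs_ne_zero]
    exact mul_ne_zero (by norm_num) (mul_ne_zero (mul_ne_zero (hs0 0) (hs0 1)) (hs0 2))
  have hPP0 : 0 ≤ PP (s 0) (s 1) (s 2) := by rw [PP]; positivity
  have hmap : ∀ x ∈ S, cont (cr x.1 x.2.1) ∈ Δ.divisors := by
    intro x hx
    rw [Nat.mem_divisors]
    exact ⟨(hS x hx).1.cont_dvd, hΔ0⟩
  have hsum := Finset.card_eq_sum_card_fiberwise (f := fun x : F4 => cont (cr x.1 x.2.1))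
    (s := S) (t := Δ.divisors) hmap
  set N1 := ⌊2 * R ^ 2⌋₊ with hN1
  set Bd : ℝ := 2808 * τ ^ 7 * R ^ 2 * (Nat.log 2 N1 + 1) *
      (24 * (Real.sqrt (XX (s 0) (s 1) (s 2)) * PP (s 0) (s 1) (s 2)) +
        8 * κ * Gm * PP (s 0) (s 1) (s 2)) with hBd
  have hBd0 : 0 ≤ Bd := by positivity
  have hfib : ∀ g ∈ Δ.divisors, (((S.filter (fun x => cont (cr x.1 x.2.1) = g)).card : ℕ) : ℝ)
      ≤ Bd := by
    intro g hg
    have hgpos : 0 < g := Nat.pos_of_mem_divisors hg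
    have hgd : g ∣ Δ := Nat.dvd_of_mem_divisors hg
    set Sg := S.filter (fun x => cont (cr x.1 x.2.1) = g) with hSg
    rcases Sg.eq_empty_or_nonempty with he | ⟨x0, hx0⟩
    · rw [he, Finset.card_empty, Nat.cast_zero]; exact hBd0
    have hgG : (g : ℝ) ≤ Gm := by
      obtain ⟨h1, h2⟩ := Finset.mem_filter.1 hx0
      rw [← h2]
      exact (hS x0 h1).2.2.2.2.2.2
    have hg' : (0:ℝ) < g := by exact_mod_cast hgpos
    set Om := Sg.image (fun x => prm (cr x.1 x.2.1)) with hOm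
    have hsumg := Finset.card_eq_sum_card_fiberwise (f := fun x : F4 => prm (cr x.1 x.2.1))
      (s := Sg) (t := Om) (fun x hx => Finset.mem_image_of_mem _ hx)
    have hfacts : ∀ x ∈ Sg, x ∈ S ∧ Prim (prm (cr x.1 x.2.1)) ∧
        cr x.1 x.2.1 = (g : ℤ) • prm (cr x.1 x.2.1) := by
      intro x hx
      obtain ⟨h1, h2⟩ := Finset.mem_filter.1 hx
      have hne := (hS x h1).1.ne_zero hs0
      obtain ⟨h3, h4⟩ := prm_spec hne
      rw [h2] at h4
      exact ⟨h1, h3, h4⟩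
    have hOmP : ∀ w ∈ Om, Prim w := by
      intro w hw
      obtain ⟨x, hx, rfl⟩ := Finset.mem_image.1 hw
      exact (hfacts x hx).2.1
    have hfw : ∀ w ∈ Om, (((Sg.filter (fun x => prm (cr x.1 x.2.1) = w)).card : ℕ) : ℝ) ≤
        1404 * g.divisors.card * R ^ 2 * (1 / ‖w‖) := by
      intro w hw
      apply fiber_count s w (hOmP w hw) g hgpos R hR
      intro x hx
      obtain ⟨h1, h2⟩ := Finset.mem_filter.1 hx
      obtain ⟨h3, h4, h5⟩ := hfacts x h1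
      obtain ⟨c1, c2, c3, c4, c5, c6, c7⟩ := hS x h3
      rw [h2] at h5
      exact ⟨c1, c2, c3, c4, c5, h5⟩
    have hs12 : 0 < |((s 1 * s 2 : ℤ) : ℝ)| := by
      apply abs_pos.2
      have := mul_ne_zero (hs0 1) (hs0 2)
      exact_mod_cast this
    have hsq12 : 0 < Real.sqrt |((s 1 * s 2 : ℤ) : ℝ)| := Real.sqrt_pos.2 hs12
    have hcs := conic_sum s hs0 Om (Real.sqrt |((s 1 * s 2 : ℤ) : ℝ)| / (κ * g)) N1 (by positivity)
      ?_ hOmP ?_ ?_
    · have h8 : 8 / (Real.sqrt |((s 1 * s 2 : ℤ) : ℝ)| / (κ * g)) ≤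
          8 * κ * Gm * PP (s 0) (s 1) (s 2) := by
        have e1 : 8 / (Real.sqrt |((s 1 * s 2 : ℤ) : ℝ)| / (κ * g)) =
            8 * κ * g * (1 / Real.sqrt |((s 1 * s 2 : ℤ) : ℝ)|) := by field_simp
        rw [e1]
        have e2 : 1 / Real.sqrt |((s 1 * s 2 : ℤ) : ℝ)| ≤ PP (s 0) (s 1) (s 2) := by
          rw [PP]
          have e3 : 0 ≤ 1 / Real.sqrt |((s 0 : ℝ) * s 1)| := by positivity
          have e4 : 0 ≤ 1 / Real.sqrt |((s 0 : ℝ) * s 2)| := by positivity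
          push_cast
          linarith
        gcongr
      have hd0 : ((s 0).natAbs.divisors.card : ℝ) ≤ τ := by
        apply hτd
        rw [hΔ, Int.natAbs_dvd_natAbs]
        exact ⟨2 * (s 1 * s 2), by ring⟩
      have hd1 : ((s 1).natAbs.divisors.card : ℝ) ≤ τ := by
        apply hτd
        rw [hΔ, Int.natAbs_dvd_natAbs]
        exact ⟨2 * (s 0 * s 2), by ring⟩
      have hd2 : ((s 2).natAbs.divisors.card : ℝ) ≤ τ := by
        apply hτd
        rw [hΔ, Int.natAbs_dvd_natAbs]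
        exact ⟨2 * (s 0 * s 1), by ring⟩
      have hdg : ((g.divisors.card : ℕ) : ℝ) ≤ τ := hτd g hgd
      have hDDb : ((((s 0).natAbs.divisors.card : ℝ) * ((s 1).natAbs.divisors.card) *
          ((s 2).natAbs.divisors.card)) ^ 2) ≤ τ ^ 6 := by
        have : ((s 0).natAbs.divisors.card : ℝ) * ((s 1).natAbs.divisors.card) *
          ((s 2).natAbs.divisors.card) ≤ τ * τ * τ := by gcongr
        calc ((((s 0).natAbs.divisors.card : ℝ) * ((s 1).natAbs.divisors.card) *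
          ((s 2).natAbs.divisors.card)) ^ 2) ≤ (τ * τ * τ) ^ 2 := by gcongr
          _ = τ ^ 6 := by ring
      calc ((Sg.card : ℕ) : ℝ) = ∑ w ∈ Om,
            (((Sg.filter (fun x => prm (cr x.1 x.2.1) = w)).card : ℕ) : ℝ) := by
            exact_mod_cast hsumg
        _ ≤ ∑ w ∈ Om, 1404 * g.divisors.card * R ^ 2 * (1 / ‖w‖) := Finset.sum_le_sum hfw
        _ = 1404 * g.divisors.card * R ^ 2 * ∑ w ∈ Om, (1 / ‖w‖) := by rw [Finset.mul_sum]
        _ ≤ 1404 * τ * R ^ 2 * (2 * ((Nat.log 2 N1 + 1) * (τ ^ 6 *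
              (24 * (Real.sqrt (XX (s 0) (s 1) (s 2)) * PP (s 0) (s 1) (s 2)) +
              8 * κ * Gm * PP (s 0) (s 1) (s 2))))) := by
            apply mul_le_mul
            · gcongr
            · refine hcs.trans ?_
              gcongr
            · apply Finset.sum_nonneg
              intro w _
              positivity
            · positivity
        _ = Bd := by rw [hBd]; ring
    · intro w hw
      obtain ⟨x, hx, rfl⟩ := Finset.mem_image.1 hw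
      obtain ⟨h3, h4, h5⟩ := hfacts x hx
      have hc := (hS x h3).1.conic
      have k : ∀ i, cr x.1 x.2.1 i = g * prm (cr x.1 x.2.1) i := by
        intro i
        conv_lhs => rw [h5]
        rfl
      rw [k 0, k 1, k 2] at hc
      have hgz : ((g:ℤ) ^ 2) ≠ 0 := by positivity
      apply mul_left_cancel₀ hgz
      linear_combination hc
    · intro w hw
      obtain ⟨x, hx, rfl⟩ := Finset.mem_image.1 hw
      obtain ⟨h3, h4, h5⟩ := hfacts x hx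
      obtain ⟨c1, c2, c3, c4, c5, c6, c7⟩ := hS x h3
      have k : cr x.1 x.2.1 0 = g * prm (cr x.1 x.2.1) 0 := by
        conv_lhs => rw [h5]
        rfl
      rw [k] at c6
      rw [div_le_iff₀ (by positivity)]
      apply Real.sqrt_le_iff.2
      constructor
      · positivity
      · refine c6.trans ?_
        have e1 : κ ^ 2 * (((g * prm (cr x.1 x.2.1) 0 : ℤ)) : ℝ) ^ 2 =
            κ ^ 2 * (g:ℝ) ^ 2 * |((prm (cr x.1 x.2.1) 0 : ℤ) : ℝ)| ^ 2 := by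
          rw [sq_abs]; push_cast; ring
        rw [e1]
        have e2 : (‖prm (cr x.1 x.2.1)‖ * (κ * g)) ^ 2 =
          κ ^ 2 * (g:ℝ) ^ 2 * ‖prm (cr x.1 x.2.1)‖ ^ 2 := by ring
        rw [e2]
        have := abs_le_norm (prm (cr x.1 x.2.1)) 0
        gcongr
    · intro w hw
      obtain ⟨x, hx, rfl⟩ := Finset.mem_image.1 hw
      obtain ⟨h3, h4, h5⟩ := hfacts x hx
      obtain ⟨c1, c2, c3, c4, c5, c6, c7⟩ := hS x h3
      have h6 := norm_cr_le x.1 x.2.1 R hR c2 c3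
      have h7 : ‖prm (cr x.1 x.2.1)‖ ≤ ‖cr x.1 x.2.1‖ := by
        obtain ⟨i, hi, -⟩ := exists_norm_eq (prm (cr x.1 x.2.1))
        rw [hi]
        refine le_trans ?_ (abs_le_norm (cr x.1 x.2.1) i)
        have k : cr x.1 x.2.1 i = g * prm (cr x.1 x.2.1) i := by
          conv_lhs => rw [h5]
          rfl
        rw [k]
        push_cast
        rw [abs_mul]
        have h1g : (1:ℝ) ≤ |(g:ℝ)| := by
          rw [Nat.abs_cast]; exact_mod_cast hgpos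
        nlinarith [abs_nonneg ((prm (cr x.1 x.2.1) i : ℤ) : ℝ)]
      have h8 := h7.trans h6
      rw [← floor_norm] at h8 ⊢
      have h9 : ⌊‖prm (cr x.1 x.2.1)‖⌋₊ ≤ N1 := by
        rw [hN1]; exact Nat.le_floor h8
      exact_mod_cast h9
  calc (S.card : ℝ) = ∑ g ∈ Δ.divisors,
        (((S.filter (fun x => cont (cr x.1 x.2.1) = g)).card : ℕ) : ℝ) := by exact_mod_cast hsum
    _ ≤ ∑ _g ∈ Δ.divisors, Bd := Finset.sum_le_sum hfib
    _ = Δ.divisors.card * Bd := by rw [Finset.sum_const, nsmul_eq_mul]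
    _ ≤ τ * Bd := mul_le_mul_of_nonneg_right (hτd Δ dvd_rfl) hBd0
    _ = _ := by rw [hBd]; ring

/-- all frames with given determinants -/
theorem frame_count (s : Fin 3 → ℤ) (hs0 : ∀ j, s j ≠ 0) (K : ℕ) (hK : 3 ≤ K) (R τ E : ℝ)
    (hR : 0 ≤ R) (hτ : 0 ≤ τ)
    (hE : ((2 * (s 0 * s 1 * s 2)).natAbs : ℝ) ^ ((2:ℝ) / (K - 2)) ≤ E)
    (hτd : ∀ n : ℕ, n ∣ (2 * (s 0 * s 1 * s 2)).natAbs → (n.divisors.card : ℝ) ≤ τ)
    (S : Finset F4)
    (hS : ∀ x ∈ S, Frame x.1 x.2.2.1 x.2.1 x.2.2.2 s ∧ ‖x.1‖ ≤ R ∧ ‖x.2.1‖ ≤ R ∧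
      ‖x.2.2.1‖ ≤ R ∧ ‖x.2.2.2‖ ≤ R) :
    (S.card : ℝ) ≤ (K + 1) * (2808 * τ ^ 8 * ((K + 1) * R) ^ 2 *
      (Nat.log 2 ⌊2 * ((K + 1) * R) ^ 2⌋₊ + 1) *
      ((24 + 224 * (K:ℝ) ^ 3 * (K.factorial : ℝ) ^ 3 * E) *
        (Real.sqrt (XX (s 0) (s 1) (s 2)) * PP (s 0) (s 1) (s 2)))) := by
  classical
  have hsel : ∀ x : F4, ∃ t : ℕ, x ∈ S → t ≤ K ∧
      max ‖x.2.2.1‖ ‖x.2.2.2‖ ≤ 3 * max ‖(fun i => x.1 i + t * x.2.2.1 i : Fin 3 → ℤ)‖
        ‖(fun i => x.2.1 i + t * x.2.2.2 i : Fin 3 → ℤ)‖ ∧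
      |s 1 * s 2| ≤ 49 * K ^ 6 * (cr (fun i => x.1 i + t * x.2.2.1 i)
        (fun i => x.2.1 i + t * x.2.2.2 i) 0) ^ 2 ∧
      (cont (cr (fun i => x.1 i + t * x.2.2.1 i) (fun i => x.2.1 i + t * x.2.2.2 i)) : ℝ) ≤
        (K.factorial : ℝ) ^ 3 * (4 * Real.sqrt (XX (s 0) (s 1) (s 2))) *
        ((2 * (s 0 * s 1 * s 2)).natAbs : ℝ) ^ ((2:ℝ) / (K - 2)) := by
    intro x
    by_cases hx : x ∈ S
    · obtain ⟨t, ht⟩ := (hS x hx).1.direction hs0 K hK
      exact ⟨t, fun _ => ht⟩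
    · exact ⟨0, fun h => absurd h hx⟩
  choose t ht using hsel
  have hmap : ∀ x ∈ S, t x ∈ range (K + 1) := by
    intro x hx
    rw [Finset.mem_range]
    have := (ht x hx).1
    omega
  have hsum := Finset.card_eq_sum_card_fiberwise (f := t) (s := S) (t := range (K + 1)) hmap
  have hE0 : 0 ≤ E := le_trans (by positivity) hE
  have hPP0 : 0 ≤ PP (s 0) (s 1) (s 2) := by rw [PP]; positivity
  set Bd : ℝ := 2808 * τ ^ 8 * ((K + 1) * R) ^ 2 *
      (Nat.log 2 ⌊2 * ((K + 1) * R) ^ 2⌋₊ + 1) *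
      ((24 + 224 * (K:ℝ) ^ 3 * (K.factorial : ℝ) ^ 3 * E) *
        (Real.sqrt (XX (s 0) (s 1) (s 2)) * PP (s 0) (s 1) (s 2))) with hBd
  have hK0 : (0:ℝ) < K := by
    have : 0 < K := by omega
    exact_mod_cast this
  have hfib : ∀ k ∈ range (K + 1), (((S.filter (fun x => t x = k)).card : ℕ) : ℝ) ≤ Bd := by
    intro k hk
    set φ : F4 → F4 := fun x => (fun i => x.1 i + k * x.2.2.1 i, fun i => x.2.1 i + k * x.2.2.2 i,
      x.2.2.1, x.2.2.2) with hφ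
    have hinj : Function.Injective φ := by
      intro x y hxy
      simp only [hφ, Prod.mk.injEq] at hxy
      obtain ⟨h1, h2, h3, h4⟩ := hxy
      refine Prod.ext ?_ (Prod.ext ?_ (Prod.ext h3 h4))
      · funext i
        have := congrFun h1 i
        rw [h3] at this
        linarith
      · funext i
        have := congrFun h2 i
        rw [h4] at this
        linarith
    rw [← Finset.card_image_of_injective _ hinj]
    have hgc := good_count s hs0 ((K + 1) * R) (7 * K ^ 3) ((K.factorial : ℝ) ^ 3 *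
        (4 * Real.sqrt (XX (s 0) (s 1) (s 2))) * E) τ (by positivity) (by positivity)
        (by positivity) hτ hτd ((S.filter (fun x => t x = k)).image φ) ?_
    · refine hgc.trans (le_of_eq ?_)
      rw [hBd]; ring
    · intro y hy
      obtain ⟨x, hx, rfl⟩ := Finset.mem_image.1 hy
      obtain ⟨hxS, hxk⟩ := Finset.mem_filter.1 hx
      obtain ⟨c1, c2, c3, c4, c5⟩ := hS x hxS
      obtain ⟨d1, d2, d3, d4⟩ := ht x hxS
      rw [hxk] at d1 d2 d3 d4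
      have hkK : (k:ℝ) ≤ K := by exact_mod_cast d1
      have hnorm : ∀ u v : Fin 3 → ℤ, ‖u‖ ≤ R → ‖v‖ ≤ R →
          ‖(fun i => u i + k * v i : Fin 3 → ℤ)‖ ≤ (K + 1) * R := by
        intro u v hu hv
        obtain ⟨i, hi, -⟩ := exists_norm_eq (fun i => u i + k * v i : Fin 3 → ℤ)
        rw [hi]
        push_cast
        have e1 := (abs_le_norm u i).trans hu
        have e2 := (abs_le_norm v i).trans hv
        calc |(u i : ℝ) + k * v i| ≤ |(u i : ℝ)| + |(k:ℝ) * v i| := abs_add_le _ _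
          _ ≤ R + K * R := by
              rw [abs_mul, Nat.abs_cast]
              exact add_le_add e1 (mul_le_mul hkK e2 (abs_nonneg _) hK0.le)
          _ = (K + 1) * R := by ring
      refine ⟨c1.shear k, hnorm _ _ c2 c4, hnorm _ _ c3 c5, (le_max_left _ _).trans d2,
        (le_max_right _ _).trans d2, ?_, ?_⟩
      · have e : (7 * (K:ℝ) ^ 3) ^ 2 = 49 * (K:ℝ) ^ 6 := by ring
        rw [e]
        exact_mod_cast d3
      · refine d4.trans ?_
        apply mul_le_mul_of_nonneg_left hE (by positivity)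
  calc (S.card : ℝ) = ∑ k ∈ range (K + 1), (((S.filter (fun x => t x = k)).card : ℕ) : ℝ) := by
        exact_mod_cast hsum
    _ ≤ ∑ _k ∈ range (K + 1), Bd := Finset.sum_le_sum hfib
    _ = (K + 1) * Bd := by rw [Finset.sum_const, nsmul_eq_mul, Finset.card_range]; push_cast; ring

end Pool.Agent.E8helper43.SL
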