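import Pool.Agent.E8helper43.SL.Sep

set_option autoImplicit false

namespace Pool.Agent.E8helper43.SL

open Finset

/-- determinant of two plane vectors -/
def dt (r s : ℤ × ℤ) : ℤ := r.1 * s.2 - r.2 * s.1

/-- sup norm -/
def nm (r : ℤ × ℤ) : ℤ := max |r.1| |r.2|

theorem nm_nonneg (r : ℤ × ℤ) : 0 ≤ nm r := le_max_of_le_left (abs_nonneg _)

theorem nm_pos {r : ℤ × ℤ} (h : r ≠ 0) : 0 < nm r := by
  rw [nm]
  by_contra hcon
  push Not at hcon
  have h1 : |r.1| ≤ 0 := (le_max_left _ _).trans hcon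
  have h2 : |r.2| ≤ 0 := (le_max_right _ _).trans hcon
  apply h
  ext
  · simpa using abs_nonpos_iff.1 h1
  · simpa using abs_nonpos_iff.1 h2

theorem fst_le_nm (r : ℤ × ℤ) : |r.1| ≤ nm r := le_max_left _ _
theorem snd_le_nm (r : ℤ × ℤ) : |r.2| ≤ nm r := le_max_right _ _

theorem dt_le (r s : ℤ × ℤ) : |dt r s| ≤ 2 * nm r * nm s := by
  rw [dt]
  have h1 : |r.1 * s.2| ≤ nm r * nm s := by
    rw [abs_mul]; exact mul_le_mul (fst_le_nm r) (snd_le_nm s) (abs_nonneg _) (nm_nonneg _)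
  have h2 : |r.2 * s.1| ≤ nm r * nm s := by
    rw [abs_mul]; exact mul_le_mul (snd_le_nm r) (fst_le_nm s) (abs_nonneg _) (nm_nonneg _)
  calc |r.1 * s.2 - r.2 * s.1| ≤ |r.1 * s.2| + |r.2 * s.1| := abs_sub _ _
    _ ≤ 2 * nm r * nm s := by linarith

/-- a coordinate in which the sup norm of `e` is attained -/
theorem coord' (e : ℤ × ℤ) (he : e ≠ 0) : ∃ c : ℤ × ℤ → ℤ, (∀ r s, c (r - s) = c r - c s) ∧
    (∀ r, |c r| ≤ nm r) ∧ (∀ d, dt e d = 0 → |c d| = nm d) ∧
    (∀ (q : ℤ) r, c (q • r) = q * c r) := by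
  rcases le_total |e.2| |e.1| with h | h
  · refine ⟨fun r => r.1, fun r s => rfl, fst_le_nm, fun d hd => ?_, fun q r => by simp⟩
    have hpos : 0 < |e.1| := by
      have := nm_pos he
      rwa [nm, max_eq_left h] at this
    rw [nm, eq_comm, max_eq_left_iff]
    have h1 : |e.1| * |d.2| = |e.2| * |d.1| := by
      rw [← abs_mul, ← abs_mul]
      rw [dt] at hd
      congr 1
      linarith
    have h2 : |e.1| * |d.2| ≤ |e.1| * |d.1| := by
      rw [h1]; exact mul_le_mul_of_nonneg_right h (abs_nonneg _)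
    exact le_of_mul_le_mul_left h2 hpos
  · refine ⟨fun r => r.2, fun r s => rfl, snd_le_nm, fun d hd => ?_, fun q r => by simp⟩
    have hpos : 0 < |e.2| := by
      have := nm_pos he
      rwa [nm, max_eq_right h] at this
    rw [nm, eq_comm, max_eq_right_iff]
    have h1 : |e.2| * |d.1| = |e.1| * |d.2| := by
      rw [← abs_mul, ← abs_mul]
      rw [dt] at hd
      congr 1
      linarith
    have h2 : |e.2| * |d.1| ≤ |e.2| * |d.2| := by
      rw [h1]; exact mul_le_mul_of_nonneg_right h (abs_nonneg _)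
    exact le_of_mul_le_mul_left h2 hpos

theorem coord (e : ℤ × ℤ) (he : e ≠ 0) : ∃ c : ℤ × ℤ → ℤ, (∀ r s, c (r - s) = c r - c s) ∧
    (∀ r, |c r| ≤ nm r) ∧ ∀ d, dt e d = 0 → |c d| = nm d := by
  obtain ⟨c, h1, h2, h3, h4⟩ := coord' e he
  exact ⟨c, h1, h2, h3⟩

theorem dt_sub (e r s : ℤ × ℤ) : dt e (r - s) = dt e r - dt e s := by
  simp only [dt, Prod.fst_sub, Prod.snd_sub]; ring

/-- a finite set with a map to the integers: card at most (#values) * (max fiber) -/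
theorem card_fiber_le {ι : Type*} (S : Finset ι) (β : ι → ℤ) (X Y : ℝ) (hX : 0 ≤ X) (hY : 0 ≤ Y)
    (hb : ∀ r ∈ S, |(β r : ℝ)| ≤ X)
    (hf : ∀ b : ℤ, ((S.filter (fun r => β r = b)).card : ℝ) ≤ Y) :
    (S.card : ℝ) ≤ (2 * X + 1) * Y := by
  classical
  have h1 : ((S.image β).card : ℝ) ≤ 2 * X / 1 + 1 := by
    apply sep_int (S.image β) (fun x => x) 1 X one_pos hX
    · intro x _ y _ hxy
      have : 1 ≤ |x - y| := Int.one_le_abs (sub_ne_zero.2 hxy)
      exact_mod_cast this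
    · intro x hx
      obtain ⟨r, hr, rfl⟩ := Finset.mem_image.1 hx
      exact hb r hr
  have h2 := Finset.card_eq_sum_card_fiberwise (f := β) (s := S) (t := S.image β)
    (fun x hx => Finset.mem_image_of_mem _ hx)
  calc (S.card : ℝ) = ∑ b ∈ S.image β, ((S.filter (fun r => β r = b)).card : ℝ) := by
        exact_mod_cast h2
    _ ≤ ∑ _b ∈ S.image β, Y := Finset.sum_le_sum (fun b _ => hf b)
    _ = (S.image β).card * Y := by rw [Finset.sum_const, nsmul_eq_mul]
    _ ≤ (2 * X + 1) * Y := by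
        apply mul_le_mul_of_nonneg_right _ hY
        simpa using h1

/-- counting nonzero points of a plane lattice -/
theorem lattice_count (Λ : AddSubgroup (ℤ × ℤ)) (m : ℤ) (hm : 0 < m)
    (hd : ∀ r ∈ Λ, ∀ s ∈ Λ, m ∣ dt r s) (e : ℤ × ℤ) (he : e ∈ Λ) (he0 : e ≠ 0)
    (hmin : ∀ r ∈ Λ, r ≠ 0 → nm e ≤ nm r) (S : Finset (ℤ × ℤ)) (ρ : ℝ) (hρ' : 0 ≤ ρ)
    (hS : ∀ r ∈ S, r ∈ Λ ∧ r ≠ 0 ∧ (nm r : ℝ) ≤ ρ) :
    (S.card : ℝ) ≤ 12 * ρ ^ 2 / m + 3 * ρ / nm e := by
  classical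
  have hm' : (0:ℝ) < m := by exact_mod_cast hm
  have hl : (0:ℝ) < nm e := by exact_mod_cast nm_pos he0
  rcases S.eq_empty_or_nonempty with hemp | ⟨r0, hr0⟩
  · subst hemp
    simp only [Finset.card_empty, Nat.cast_zero]; positivity
  · obtain ⟨h1, h2, h3⟩ := hS r0 hr0
    have hρ : (nm e : ℝ) ≤ ρ := by
      have := hmin r0 h1 h2
      have : (nm e : ℝ) ≤ nm r0 := by exact_mod_cast this
      linarith
    have hρ0 : 0 < ρ := lt_of_lt_of_le hl hρ
    obtain ⟨c, hc1, hc2, hc3⟩ := coord e he0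
    have hmain := card_fiber_le S (fun r => dt e r / m) (2 * nm e * ρ / m) (2 * ρ / nm e + 1)
      (by positivity) (by positivity) ?_ ?_
    · refine hmain.trans ?_
      have e1 : (2 * (2 * (nm e:ℝ) * ρ / m) + 1) * (2 * ρ / nm e + 1) =
          8 * ρ ^ 2 / m + 4 * nm e * ρ / m + 2 * ρ / nm e + 1 := by field_simp; ring
      rw [e1]
      have e2 : 4 * (nm e:ℝ) * ρ / m ≤ 4 * ρ ^ 2 / m := by
        apply div_le_div_of_nonneg_right _ hm'.le
        nlinarith
      have e3 : (1:ℝ) ≤ ρ / nm e := by rw [le_div_iff₀ hl]; linarith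
      have e4 : 12 * ρ ^ 2 / m + 3 * ρ / nm e = 8 * ρ ^ 2 / m + 4 * ρ ^ 2 / m + 2 * ρ / nm e
        + ρ / nm e := by ring
      rw [e4]; linarith
    · intro r hr
      obtain ⟨k1, k2, k3⟩ := hS r hr
      obtain ⟨t, ht⟩ := hd e he r k1
      have : dt e r / m = t := by rw [ht]; exact Int.mul_ediv_cancel_left _ hm.ne'
      simp only [this]
      rw [le_div_iff₀ hm']
      have h5 := dt_le e r
      rw [ht, abs_mul, abs_of_pos hm] at h5
      have h6 : (m:ℝ) * |(t:ℝ)| ≤ 2 * nm e * nm r := by exact_mod_cast h5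
      nlinarith
    · intro b
      apply sep_int (S.filter (fun r => dt e r / m = b)) c (nm e) ρ hl hρ0.le
      · intro x hx y hy hxy
        obtain ⟨x1, x2⟩ := Finset.mem_filter.1 hx
        obtain ⟨y1, y2⟩ := Finset.mem_filter.1 hy
        obtain ⟨kx1, kx2, kx3⟩ := hS x x1
        obtain ⟨ky1, ky2, ky3⟩ := hS y y1
        have hx0 : dt e x = m * b := by
          obtain ⟨t, ht⟩ := hd e he x kx1
          rw [ht, Int.mul_ediv_cancel_left _ hm.ne'] at x2
          rw [ht, x2]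
        have hy0 : dt e y = m * b := by
          obtain ⟨t, ht⟩ := hd e he y ky1
          rw [ht, Int.mul_ediv_cancel_left _ hm.ne'] at y2
          rw [ht, y2]
        have hz : dt e (x - y) = 0 := by rw [dt_sub, hx0, hy0]; ring
        have h7 := hmin (x - y) (Λ.sub_mem kx1 ky1) (sub_ne_zero.2 hxy)
        have h8 : |((c x - c y : ℤ) : ℝ)| = ((nm (x - y) : ℤ) : ℝ) := by
          rw [← hc1, ← hc3 _ hz, Int.cast_abs]
        have h9 : (nm e : ℝ) ≤ nm (x - y) := by exact_mod_cast h7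
        rw [← h8] at h9
        exact_mod_cast h9
      · intro x hx
        obtain ⟨x1, x2⟩ := Finset.mem_filter.1 hx
        obtain ⟨kx1, kx2, kx3⟩ := hS x x1
        have : (|c x| : ℝ) ≤ nm x := by exact_mod_cast hc2 x
        linarith

end Pool.Agent.E8helper43.SL
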