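import Pool.Agent.E8helper43.SL.Lat

set_option autoImplicit false

namespace Pool.Agent.E8helper43.SL

open Finset

theorem exists_min (T : Set (ℤ × ℤ)) (hT : T.Nonempty) : ∃ e ∈ T, ∀ r ∈ T, nm e ≤ nm r := by
  obtain ⟨e, he, hmin⟩ := (measure (fun r : ℤ × ℤ => (nm r).toNat)).wf.has_min T hT
  refine ⟨e, he, fun r hr => ?_⟩
  have := hmin r hr
  have h1 := nm_nonneg e
  have h2 := nm_nonneg r
  have h3 : ¬ ((nm r).toNat < (nm e).toNat) := this
  omega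

theorem dt_smul (e : ℤ × ℤ) (q : ℤ) (r : ℤ × ℤ) : dt e (q • r) = q * dt e r := by
  simp only [dt, Prod.smul_fst, Prod.smul_snd, smul_eq_mul]; ring

theorem dt_smul' (e : ℤ × ℤ) (q : ℤ) (r : ℤ × ℤ) : dt (q • e) r = q * dt e r := by
  simp only [dt, Prod.smul_fst, Prod.smul_snd, smul_eq_mul]; ring

theorem nm_smul (q : ℤ) (r : ℤ × ℤ) : nm (q • r) = |q| * nm r := by
  simp only [nm, Prod.smul_fst, Prod.smul_snd, smul_eq_mul, abs_mul]
  rw [mul_max_of_nonneg _ _ (abs_nonneg q)]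

/-- `dt e r = 0`, `dt e s = 0`, `e ≠ 0` imply `dt r s = 0` -/
theorem dt_trans {e r s : ℤ × ℤ} (he : e ≠ 0) (h1 : dt e r = 0) (h2 : dt e s = 0) :
    dt r s = 0 := by
  have k1 : e.1 * dt r s = 0 := by
    have : e.1 * dt r s = r.1 * dt e s - s.1 * dt e r := by simp only [dt]; ring
    rw [this, h1, h2]; ring
  have k2 : e.2 * dt r s = 0 := by
    have : e.2 * dt r s = r.2 * dt e s - s.2 * dt e r := by simp only [dt]; ring
    rw [this, h1, h2]; ring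
  by_contra hne
  apply he
  ext
  · rcases mul_eq_zero.1 k1 with h | h
    · exact h
    · exact absurd h hne
  · rcases mul_eq_zero.1 k2 with h | h
    · exact h
    · exact absurd h hne

/-- the elements of `Λ` on the line through `p` are the multiples of a generator -/
theorem line_gen (Λ : AddSubgroup (ℤ × ℤ)) (p : ℤ × ℤ) (hp : p ∈ Λ) (hp0 : p ≠ 0) :
    ∃ ρ ∈ Λ, ρ ≠ 0 ∧ (∃ κ : ℕ, 0 < κ ∧ p = (κ : ℤ) • ρ) ∧
      ∀ d ∈ Λ, dt p d = 0 → ∃ l : ℤ, d = l • ρ := by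
  obtain ⟨ρ, ⟨hρ1, hρ2, hρ3⟩, hmin⟩ := exists_min {r | r ∈ Λ ∧ r ≠ 0 ∧ dt p r = 0}
    ⟨p, hp, hp0, by simp only [dt]; ring⟩
  obtain ⟨c, hc1, hc2, hc3, hc4⟩ := coord' p hp0
  have hcρ : |c ρ| = nm ρ := hc3 _ hρ3
  have hcρ0 : c ρ ≠ 0 := by
    intro h
    rw [h, abs_zero] at hcρ
    have := nm_pos hρ2
    omega
  have hgen : ∀ d ∈ Λ, dt p d = 0 → ∃ l : ℤ, d = l • ρ := by
    intro d hd hd0
    refine ⟨c d / c ρ, ?_⟩
    by_contra hne
    have h1 : d - (c d / c ρ) • ρ ∈ Λ := Λ.sub_mem hd (Λ.zsmul_mem hρ1 _)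
    have h2 : d - (c d / c ρ) • ρ ≠ 0 := sub_ne_zero.2 hne
    have h3 : dt p (d - (c d / c ρ) • ρ) = 0 := by rw [dt_sub, dt_smul, hd0, hρ3]; ring
    have h4 := hmin _ ⟨h1, h2, h3⟩
    rw [← hc3 _ h3, hc1, hc4] at h4
    have h5 : c d - c d / c ρ * c ρ = c d % c ρ := by
      have := Int.emod_add_mul_ediv (c d) (c ρ)
      linarith [mul_comm (c d / c ρ) (c ρ)]
    rw [h5, ← hcρ, abs_of_nonneg (Int.emod_nonneg _ hcρ0)] at h4
    have := Int.emod_lt_abs (c d) hcρ0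
    omega
  obtain ⟨l, hl⟩ := hgen p hp (by simp only [dt]; ring)
  have hl0 : l ≠ 0 := by
    intro h; rw [h, zero_smul] at hl; exact hp0 hl
  rcases lt_or_gt_of_ne hl0 with h | h
  · refine ⟨-ρ, Λ.neg_mem hρ1, neg_ne_zero.2 hρ2, ⟨l.natAbs, Int.natAbs_pos.2 hl0, ?_⟩, ?_⟩
    · rw [smul_neg, ← neg_smul]
      have : -((l.natAbs : ℕ) : ℤ) = l := by omega
      rw [this]; exact hl
    · intro d hd hd0
      obtain ⟨k, hk⟩ := hgen d hd hd0
      exact ⟨-k, by rw [smul_neg, neg_smul, neg_neg]; exact hk⟩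
  · refine ⟨ρ, hρ1, hρ2, ⟨l.natAbs, Int.natAbs_pos.2 hl0, ?_⟩, hgen⟩
    have : ((l.natAbs : ℕ) : ℤ) = l := by omega
    rw [this]; exact hl

/-- counting pairs in a plane lattice with given determinant, second vector the shorter one -/
theorem pair_half (Λ : AddSubgroup (ℤ × ℤ)) (m : ℤ) (hm : 0 < m)
    (hd : ∀ r ∈ Λ, ∀ s ∈ Λ, m ∣ dt r s) (g : ℤ) (hg : 0 < g) (D : ℤ) (hD : |D| = g * m)
    (R : ℝ) (hR : 0 ≤ R) (S : Finset ((ℤ × ℤ) × (ℤ × ℤ)))
    (hS : ∀ x ∈ S, x.1 ∈ Λ ∧ x.2 ∈ Λ ∧ dt x.1 x.2 = D ∧ (nm x.1 : ℝ) ≤ R ∧ nm x.2 ≤ nm x.1) :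
    (S.card : ℝ) ≤ g.natAbs.divisors.card * (54 * R ^ 2 / m) := by
  classical
  have hm' : (0:ℝ) < m := by exact_mod_cast hm
  have hD0 : D ≠ 0 := by
    intro h; rw [h, abs_zero] at hD
    have := mul_pos hg hm; omega
  rcases S.eq_empty_or_nonempty with hemp | ⟨x0, hx0⟩
  · subst hemp
    simp only [Finset.card_empty, Nat.cast_zero]; positivity
  have hne1 : ∀ x ∈ S, x.1 ≠ 0 := by
    intro x hx h
    obtain ⟨-, -, h3, -, -⟩ := hS x hx
    rw [h] at h3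
    simp [dt] at h3
    exact hD0 h3.symm
  have hne2 : ∀ x ∈ S, x.2 ≠ 0 := by
    intro x hx h
    obtain ⟨-, -, h3, -, -⟩ := hS x hx
    rw [h] at h3
    simp [dt] at h3
    exact hD0 h3.symm
  obtain ⟨e, ⟨he, he0⟩, hmin⟩ := exists_min {r | r ∈ Λ ∧ r ≠ 0} ⟨x0.1, (hS x0 hx0).1, hne1 x0 hx0⟩
  have hl : (0:ℝ) < nm e := by exact_mod_cast nm_pos he0
  -- lower bound for the length of e
  have hml : (m : ℝ) ≤ 2 * nm e * R := by
    obtain ⟨h1, h2, h3, h4, h5⟩ := hS x0 hx0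
    have key : ∀ r ∈ Λ, dt e r ≠ 0 → (nm r : ℝ) ≤ R → (m : ℝ) ≤ 2 * nm e * R := by
      intro r hr hne hrR
      have k1 : m ≤ |dt e r| := by
        have := Int.le_of_dvd (abs_pos.2 hne) ((dvd_abs _ _).2 (hd e he r hr))
        exact this
      have k2 := dt_le e r
      have k3 : (m : ℝ) ≤ 2 * nm e * nm r := by exact_mod_cast k1.trans k2
      nlinarith
    by_cases hc : dt e x0.1 = 0
    · by_cases hc2 : dt e x0.2 = 0
      · exact absurd (dt_trans he0 hc hc2) (by rw [h3]; exact hD0)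
      · apply key x0.2 h2 hc2
        have : (nm x0.2 : ℝ) ≤ nm x0.1 := by exact_mod_cast h5
        linarith
    · exact key x0.1 h1 hc h4
  have hR0 : 0 < R := by
    by_contra hcon
    have : R = 0 := le_antisymm (not_lt.1 hcon) hR
    rw [this] at hml; linarith
  -- generators
  have hgen : ∀ p : ℤ × ℤ, ∃ q : ℕ × (ℤ × ℤ), p ∈ Λ → p ≠ 0 → q.2 ∈ Λ ∧ q.2 ≠ 0 ∧ 0 < q.1 ∧
      p = (q.1 : ℤ) • q.2 ∧ ∀ d ∈ Λ, dt p d = 0 → ∃ l : ℤ, d = l • q.2 := by
    intro p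
    by_cases h : p ∈ Λ ∧ p ≠ 0
    · obtain ⟨ρ, h1, h2, ⟨κ, h3, h4⟩, h5⟩ := line_gen Λ p h.1 h.2
      exact ⟨(κ, ρ), fun _ _ => ⟨h1, h2, h3, h4, h5⟩⟩
    · exact ⟨(0, 0), fun a b => absurd ⟨a, b⟩ h⟩
  choose q hq using hgen
  -- κ divides g
  have hκ : ∀ x ∈ S, (q x.1).1 ∈ g.natAbs.divisors := by
    intro x hx
    obtain ⟨h1, h2, h3, h4, h5⟩ := hS x hx
    obtain ⟨k1, k2, k3, k4, k5⟩ := hq x.1 h1 (hne1 x hx)
    rw [Nat.mem_divisors]
    refine ⟨?_, Int.natAbs_ne_zero.2 hg.ne'⟩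
    obtain ⟨u, hu⟩ := hd _ k1 _ h2
    have h6 : (q x.1).1 * (m * u) = D := by
      rw [← h3, ← hu, ← dt_smul', ← k4]
    have h7 : ((q x.1).1 : ℤ) * |u| = g := by
      have : ((q x.1).1 : ℤ) * |u| * m = g * m := by
        rw [← hD, ← h6, abs_mul, abs_mul, abs_of_pos hm, Nat.abs_cast]; ring
      exact mul_right_cancel₀ hm.ne' this
    have h8 : ((q x.1).1 : ℤ) ∣ g := ⟨|u|, h7.symm⟩
    exact Int.natCast_dvd.1 h8
  have hsum := Finset.card_eq_sum_card_fiberwise (f := fun x : (ℤ × ℤ) × (ℤ × ℤ) => (q x.1).1)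
    (s := S) (t := g.natAbs.divisors) hκ
  have hfib : ∀ κ ∈ g.natAbs.divisors, (((S.filter (fun x => (q x.1).1 = κ)).card : ℕ) : ℝ) ≤
      54 * R ^ 2 / m := by
    intro κ hκmem
    have hκpos : 0 < κ := Nat.pos_of_mem_divisors hκmem
    have hκ' : (1:ℝ) ≤ κ := by exact_mod_cast hκpos
    set Sκ := S.filter (fun x => (q x.1).1 = κ) with hSκ
    -- fibres over the first vector
    have hf : ∀ p ∈ Sκ.image (fun x => x.1), (Sκ.filter (fun x => x.1 = p)).card ≤ 3 * κ := by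
      intro p hp
      obtain ⟨x1, hx1, rfl⟩ := Finset.mem_image.1 hp
      obtain ⟨hx1S, hx1κ⟩ := Finset.mem_filter.1 hx1
      obtain ⟨h1, h2, h3, h4, h5⟩ := hS x1 hx1S
      obtain ⟨k1, k2, k3, k4, k5⟩ := hq x1.1 h1 (hne1 x1 hx1S)
      obtain ⟨c, hc1, hc2, hc3⟩ := coord x1.1 (hne1 x1 hx1S)
      have hρpos : (0:ℝ) < nm (q x1.1).2 := by exact_mod_cast nm_pos k2
      have hnmp : (nm x1.1 : ℝ) = κ * nm (q x1.1).2 := by
        have : nm x1.1 = κ * nm (q x1.1).2 := by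
          conv_lhs => rw [k4]
          rw [nm_smul, hx1κ, Nat.abs_cast]
        exact_mod_cast this
      have hc := sep_int (Sκ.filter (fun x => x.1 = x1.1)) (fun x => c x.2) (nm (q x1.1).2)
        (nm x1.1) hρpos (by exact_mod_cast nm_nonneg _) ?_ ?_
      · rw [hnmp] at hc
        have e1 : 2 * (κ * (nm (q x1.1).2 : ℝ)) / nm (q x1.1).2 + 1 = 2 * κ + 1 := by
          field_simp
        rw [e1] at hc
        have : ((Sκ.filter (fun x => x.1 = x1.1)).card : ℝ) ≤ 3 * κ := by linarith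
        exact_mod_cast this
      · intro x hx y hy hxy
        obtain ⟨hx', hxp⟩ := Finset.mem_filter.1 hx
        obtain ⟨hxS, _⟩ := Finset.mem_filter.1 hx'
        obtain ⟨hy', hyp⟩ := Finset.mem_filter.1 hy
        obtain ⟨hyS, _⟩ := Finset.mem_filter.1 hy'
        obtain ⟨a1, a2, a3, a4, a5⟩ := hS x hxS
        obtain ⟨b1, b2, b3, b4, b5⟩ := hS y hyS
        have hz : dt x1.1 (x.2 - y.2) = 0 := by
          rw [dt_sub]
          rw [hxp] at a3; rw [hyp] at b3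
          rw [a3, b3]; ring
        have hne : x.2 - y.2 ≠ 0 := by
          intro h
          apply hxy
          exact Prod.ext (hxp.trans hyp.symm) (sub_eq_zero.1 h)
        obtain ⟨l, hl⟩ := k5 _ (Λ.sub_mem a2 b2) hz
        have hl0 : l ≠ 0 := by
          intro h; rw [h, zero_smul] at hl; exact hne hl
        have h8 : |((c x.2 - c y.2 : ℤ) : ℝ)| = ((nm (x.2 - y.2) : ℤ) : ℝ) := by
          rw [← hc1, ← hc3 _ hz, Int.cast_abs]
        have h9 : nm (q x1.1).2 ≤ nm (x.2 - y.2) := by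
          rw [hl, nm_smul]
          have := Int.one_le_abs hl0
          nlinarith [nm_nonneg (q x1.1).2]
        have h10 : (nm (q x1.1).2 : ℝ) ≤ nm (x.2 - y.2) := by exact_mod_cast h9
        rw [← h8] at h10
        exact h10
      · intro x hx
        obtain ⟨hx', hxp⟩ := Finset.mem_filter.1 hx
        obtain ⟨hxS, _⟩ := Finset.mem_filter.1 hx'
        obtain ⟨a1, a2, a3, a4, a5⟩ := hS x hxS
        have : |c x.2| ≤ nm x1.1 := by
          rw [← hxp]; exact (hc2 _).trans a5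
        exact_mod_cast this
    have hcard := Finset.card_le_mul_card_image (f := fun x : (ℤ × ℤ) × (ℤ × ℤ) => x.1) Sκ (3 * κ) hf
    -- number of first vectors
    have hP : ((Sκ.image (fun x => x.1)).card : ℝ) ≤ 12 * (R / κ) ^ 2 / m + 3 * (R / κ) / nm e := by
      have hinj : Set.InjOn (fun p => (q p).2) (Sκ.image (fun x => x.1) : Finset (ℤ × ℤ)) := by
        intro p hp p' hp' hpp
        rw [Finset.mem_coe] at hp hp'
        obtain ⟨x1, hx1, rfl⟩ := Finset.mem_image.1 hp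
        obtain ⟨x2, hx2, rfl⟩ := Finset.mem_image.1 hp'
        obtain ⟨hx1S, hx1κ⟩ := Finset.mem_filter.1 hx1
        obtain ⟨hx2S, hx2κ⟩ := Finset.mem_filter.1 hx2
        obtain ⟨_, _, _, k4, _⟩ := hq x1.1 (hS x1 hx1S).1 (hne1 x1 hx1S)
        obtain ⟨_, _, _, k4', _⟩ := hq x2.1 (hS x2 hx2S).1 (hne1 x2 hx2S)
        simp only at hpp ⊢
        rw [k4, k4', hx1κ, hx2κ, hpp]
      rw [← Finset.card_image_of_injOn hinj]
      apply lattice_count Λ m hm hd e he he0 (fun r hr hr0 => hmin r ⟨hr, hr0⟩) _ (R / κ)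
        (by positivity)
      intro r hr
      obtain ⟨p, hp, rfl⟩ := Finset.mem_image.1 hr
      obtain ⟨x1, hx1, rfl⟩ := Finset.mem_image.1 hp
      obtain ⟨hx1S, hx1κ⟩ := Finset.mem_filter.1 hx1
      obtain ⟨k1, k2, k3, k4, k5⟩ := hq x1.1 (hS x1 hx1S).1 (hne1 x1 hx1S)
      refine ⟨k1, k2, ?_⟩
      have hnmp : (nm x1.1 : ℝ) = κ * nm (q x1.1).2 := by
        have : nm x1.1 = κ * nm (q x1.1).2 := by
          conv_lhs => rw [k4]
          rw [nm_smul, hx1κ, Nat.abs_cast]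
        exact_mod_cast this
      rw [le_div_iff₀ (by positivity)]
      have := (hS x1 hx1S).2.2.2.1
      rw [hnmp] at this
      linarith
    have hcard' : (Sκ.card : ℝ) ≤ 3 * κ * (Sκ.image (fun x => x.1)).card := by exact_mod_cast hcard
    refine hcard'.trans ((mul_le_mul_of_nonneg_left hP (by positivity)).trans ?_)
    have e1 : 3 * (κ:ℝ) * (12 * (R / κ) ^ 2 / m + 3 * (R / κ) / nm e) =
        36 * R ^ 2 / m / κ + 9 * R / nm e := by field_simp; ring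
    rw [e1]
    have e2 : 36 * R ^ 2 / m / κ ≤ 36 * R ^ 2 / m := div_le_self (by positivity) hκ'
    have e3 : 9 * R / nm e ≤ 18 * R ^ 2 / m := by
      rw [div_le_div_iff₀ hl hm']
      nlinarith
    have e4 : 54 * R ^ 2 / (m:ℝ) = 36 * R ^ 2 / m + 18 * R ^ 2 / m := by ring
    rw [e4]; linarith
  calc (S.card : ℝ) = ∑ κ ∈ g.natAbs.divisors,
        (((S.filter (fun x => (q x.1).1 = κ)).card : ℕ) : ℝ) := by exact_mod_cast hsum
    _ ≤ ∑ _κ ∈ g.natAbs.divisors, 54 * R ^ 2 / (m:ℝ) := Finset.sum_le_sum hfib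
    _ = _ := by rw [Finset.sum_const, nsmul_eq_mul]

/-- counting pairs in a plane lattice with given determinant -/
theorem pair_count (Λ : AddSubgroup (ℤ × ℤ)) (m : ℤ) (hm : 0 < m)
    (hd : ∀ r ∈ Λ, ∀ s ∈ Λ, m ∣ dt r s) (g : ℤ) (hg : 0 < g) (D : ℤ) (hD : |D| = g * m)
    (R : ℝ) (hR : 0 ≤ R) (S : Finset ((ℤ × ℤ) × (ℤ × ℤ)))
    (hS : ∀ x ∈ S, x.1 ∈ Λ ∧ x.2 ∈ Λ ∧ dt x.1 x.2 = D ∧ (nm x.1 : ℝ) ≤ R ∧ (nm x.2 : ℝ) ≤ R) :
    (S.card : ℝ) ≤ g.natAbs.divisors.card * (108 * R ^ 2 / m) := by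
  classical
  set S1 := S.filter (fun x => nm x.2 ≤ nm x.1) with hS1
  set S2 := S.filter (fun x => ¬ nm x.2 ≤ nm x.1) with hS2
  have hc : S1.card + S2.card = S.card := Finset.card_filter_add_card_filter_not _
  have h1 := pair_half Λ m hm hd g hg D hD R hR S1 (by
    intro x hx
    obtain ⟨hx1, hx2⟩ := Finset.mem_filter.1 hx
    obtain ⟨a1, a2, a3, a4, a5⟩ := hS x hx1
    exact ⟨a1, a2, a3, a4, hx2⟩)
  have h2 := pair_half Λ m hm hd g hg (-D) (by rw [abs_neg]; exact hD) R hR (S2.image Prod.swap) (by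
    intro y hy
    obtain ⟨x, hx, rfl⟩ := Finset.mem_image.1 hy
    obtain ⟨hx1, hx2⟩ := Finset.mem_filter.1 hx
    obtain ⟨a1, a2, a3, a4, a5⟩ := hS x hx1
    refine ⟨a2, a1, ?_, a5, (not_le.1 hx2).le⟩
    rw [← a3]; simp only [dt, Prod.fst_swap, Prod.snd_swap]; ring)
  rw [Finset.card_image_of_injective _ Prod.swap_injective] at h2
  have hc' : (S.card : ℝ) = S1.card + S2.card := by exact_mod_cast hc.symm
  rw [hc']
  have e : (g.natAbs.divisors.card : ℝ) * (108 * R ^ 2 / m) =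
    g.natAbs.divisors.card * (54 * R ^ 2 / m) + g.natAbs.divisors.card * (54 * R ^ 2 / m) := by ring
  rw [e]; linarith

end Pool.Agent.E8helper43.SL
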