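import Pool.Agent.E8helper43.SL.Dir

set_option autoImplicit false
set_option maxHeartbeats 4000000

namespace Pool.Agent.E8helper43.SL

open Finset

theorem absN {x : ℤ} {n : ℕ} (h : x.natAbs ≤ n) : |x| ≤ n := by
  rw [Int.abs_eq_natAbs]; exact_mod_cast h

/-- planar sections of the determinant-one surface, a leading coefficient being nonzero -/
theorem sec_h {ι : Type*} [DecidableEq ι] (S : Finset ι) (a b c d : ι → ℤ)
    (hinj : ∀ x ∈ S, ∀ y ∈ S, a x = a y → b x = b y → c x = c y → d x = d y → x = y)
    (hdet : ∀ x ∈ S, a x * d x - b x * c x = 1) (R W T : ℕ) (hR : 1 ≤ R) (hW : 1 ≤ W) (hT : 1 ≤ T)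
    (hb : ∀ x ∈ S, (b x).natAbs ≤ R) (hc : ∀ x ∈ S, (c x).natAbs ≤ R)
    (hd : ∀ x ∈ S, (d x).natAbs ≤ R) (e f g h t : ℤ) (h0 : h ≠ 0)
    (he : e.natAbs ≤ W) (hf : f.natAbs ≤ W) (hg : g.natAbs ≤ W) (hh : h.natAbs ≤ W)
    (ht : t.natAbs ≤ W)
    (hsec : ∀ x ∈ S, a x * h + d x * e - b x * g - c x * f = t)
    (hTd : ∀ n : ℕ, 0 < n → n ≤ 4 * W ^ 2 * R ^ 2 → n.divisors.card ≤ T) :
    S.card ≤ 18 * T * R := by
  classical
  set Kd : ℤ → ℤ := fun y => f * g * y ^ 2 - h * (h - t * y + e * y ^ 2) with hKd
  have hfac : ∀ x ∈ S, (h * b x - f * d x) * (h * c x - g * d x) = Kd (d x) := by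
    intro x hx
    have h1 := hdet x hx
    have h2 := hsec x hx
    simp only [hKd]
    linear_combination (-h ^ 2) * h1 + h * d x * h2
  have hdet_a : ∀ x ∈ S, ∀ y ∈ S, b x = b y → c x = c y → d x = d y → x = y := by
    intro x hx y hy h1 h2 h3
    refine hinj x hx y hy ?_ h1 h2 h3
    apply mul_right_cancel₀ h0
    have e1 := hsec x hx
    have e2 := hsec y hy
    rw [h1, h2, h3] at e1
    linarith
  have hcardI : ∀ A : Finset ℤ, (∀ y ∈ A, y.natAbs ≤ R) → A.card ≤ 3 * R := by
    intro A hA
    have : A ⊆ Icc (-(R:ℤ)) R := by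
      intro y hy
      have := hA y hy
      rw [Finset.mem_Icc]; omega
    have := Finset.card_le_card this
    rw [Int.card_Icc] at this
    omega
  set Sg := S.filter (fun x => Kd (d x) ≠ 0) with hSg
  set Sb := S.filter (fun x => ¬ Kd (d x) ≠ 0) with hSb
  have hsplit : Sg.card + Sb.card = S.card := Finset.card_filter_add_card_filter_not _
  have hgood : Sg.card ≤ (2 * T) * (3 * R) := by
    have h1 : Sg.card ≤ (2 * T) * (Sg.image d).card := by
      apply Finset.card_le_mul_card_image
      intro y hy
      obtain ⟨x0, hx0, rfl⟩ := Finset.mem_image.1 hy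
      obtain ⟨hx0S, hx0K⟩ := Finset.mem_filter.1 hx0
      set F := Sg.filter (fun x => d x = d x0) with hF
      have hFm : ∀ x ∈ F, x ∈ S ∧ d x = d x0 ∧
          (h * b x - f * d x0) * (h * c x - g * d x0) = Kd (d x0) := by
        intro x hx
        obtain ⟨k1, k2⟩ := Finset.mem_filter.1 hx
        obtain ⟨k3, k4⟩ := Finset.mem_filter.1 k1
        refine ⟨k3, k2, ?_⟩
        have := hfac x k3
        rw [k2] at this
        exact this
      have hKb : (Kd (d x0)).natAbs ≤ 4 * W ^ 2 * R ^ 2 := by
        have hdR := hd x0 hx0S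
        have he' : |e| ≤ W := absN he
        have hf' : |f| ≤ W := absN hf
        have hg' : |g| ≤ W := absN hg
        have hh' : |h| ≤ W := absN hh
        have ht' : |t| ≤ W := absN ht
        have hd' : |d x0| ≤ R := absN hdR
        have hR' : (1:ℤ) ≤ R := by exact_mod_cast hR
        have hW' : (1:ℤ) ≤ W := by exact_mod_cast hW
        have hd2 : |d x0 ^ 2| ≤ R ^ 2 := by
          rw [abs_pow]; exact pow_le_pow_left₀ (abs_nonneg _) hd' 2
        have p1 : |f * g * d x0 ^ 2| ≤ W * W * R ^ 2 := by
          rw [abs_mul, abs_mul]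
          exact mul_le_mul (mul_le_mul hf' hg' (abs_nonneg _) (by linarith)) hd2 (abs_nonneg _)
            (by positivity)
        have p2 : |h - t * d x0 + e * d x0 ^ 2| ≤ W + W * R + W * R ^ 2 := by
          calc |h - t * d x0 + e * d x0 ^ 2| ≤ |h - t * d x0| + |e * d x0 ^ 2| := abs_add_le _ _
            _ ≤ |h| + |t * d x0| + |e * d x0 ^ 2| := by
                have := abs_sub h (t * d x0); linarith
            _ ≤ W + W * R + W * R ^ 2 := by
                have q1 : |t * d x0| ≤ W * R := by
                  rw [abs_mul]; exact mul_le_mul ht' hd' (abs_nonneg _) (by linarith)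
                have q2 : |e * d x0 ^ 2| ≤ W * R ^ 2 := by
                  rw [abs_mul]; exact mul_le_mul he' hd2 (abs_nonneg _) (by linarith)
                linarith
        have hRR : (R:ℤ) ≤ R ^ 2 := by nlinarith
        have p3 : (W:ℤ) + W * R + W * R ^ 2 ≤ 3 * (W * R ^ 2) := by
          have : (1:ℤ) ≤ R ^ 2 := by nlinarith
          have q1 : (W:ℤ) * 1 ≤ W * R ^ 2 := mul_le_mul_of_nonneg_left this (by linarith)
          have q2 : (W:ℤ) * R ≤ W * R ^ 2 := mul_le_mul_of_nonneg_left hRR (by linarith)
          linarith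
        have p4 : |h * (h - t * d x0 + e * d x0 ^ 2)| ≤ W * (3 * (W * R ^ 2)) := by
          rw [abs_mul]
          exact mul_le_mul hh' (p2.trans p3) (abs_nonneg _) (by linarith)
        have p5 : |Kd (d x0)| ≤ 4 * W ^ 2 * R ^ 2 := by
          simp only [hKd]
          calc |f * g * d x0 ^ 2 - h * (h - t * d x0 + e * d x0 ^ 2)| ≤ |f * g * d x0 ^ 2| +
                |h * (h - t * d x0 + e * d x0 ^ 2)| := abs_sub _ _
            _ ≤ W * W * R ^ 2 + W * (3 * (W * R ^ 2)) := add_le_add p1 p4
            _ = 4 * W ^ 2 * R ^ 2 := by ring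
        have p6 : ((Kd (d x0)).natAbs : ℤ) ≤ ((4 * W ^ 2 * R ^ 2 : ℕ) : ℤ) := by
          rw [Int.natCast_natAbs]; push_cast; exact p5
        exact_mod_cast p6
      have hKpos : 0 < (Kd (d x0)).natAbs := Int.natAbs_pos.2 hx0K
      have hdiv := hTd _ hKpos hKb
      -- split by the sign of the first factor
      set u : ι → ℤ := fun x => h * b x - f * d x0 with hu
      have hu0 : ∀ x ∈ F, u x ≠ 0 := by
        intro x hx h1
        have := (hFm x hx).2.2
        simp only [hu] at h1
        rw [h1, zero_mul] at this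
        exact hx0K this.symm
      have huinj : ∀ x ∈ F, ∀ y ∈ F, u x = u y → x = y := by
        intro x hx y hy hxy
        obtain ⟨a1, a2, a3⟩ := hFm x hx
        obtain ⟨b1, b2, b3⟩ := hFm y hy
        have e1 : b x = b y := by
          apply mul_left_cancel₀ h0
          simp only [hu] at hxy
          linarith
        have e2 : c x = c y := by
          have h1 := hu0 x hx
          have h2 : u x * (h * c x - g * d x0) = u x * (h * c y - g * d x0) := by
            have : u y * (h * c y - g * d x0) = Kd (d x0) := b3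
            rw [hxy, this, ← hxy]; exact a3
          have h3 := mul_left_cancel₀ h1 h2
          apply mul_left_cancel₀ h0
          linarith
        exact hdet_a x a1 y b1 e1 e2 (a2.trans b2.symm)
      have hudvd : ∀ x ∈ F, (u x).natAbs ∈ (Kd (d x0)).natAbs.divisors := by
        intro x hx
        rw [Nat.mem_divisors]
        refine ⟨?_, hKpos.ne'⟩
        rw [Int.natAbs_dvd_natAbs]
        exact ⟨_, (hFm x hx).2.2.symm⟩
      set F1 := F.filter (fun x => 0 < u x) with hF1
      set F2 := F.filter (fun x => ¬ 0 < u x) with hF2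
      have hFs : F1.card + F2.card = F.card := Finset.card_filter_add_card_filter_not _
      have c1 : F1.card ≤ T := by
        refine le_trans ?_ hdiv
        apply Finset.card_le_card_of_injOn (fun x => (u x).natAbs)
        · intro x hx
          exact hudvd x (Finset.mem_filter.1 (Finset.mem_coe.1 hx)).1
        · intro x hx y hy hxy
          obtain ⟨x1, x2⟩ := Finset.mem_filter.1 (Finset.mem_coe.1 hx)
          obtain ⟨y1, y2⟩ := Finset.mem_filter.1 (Finset.mem_coe.1 hy)
          apply huinj x x1 y y1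
          simp only at hxy
          omega
      have c2 : F2.card ≤ T := by
        refine le_trans ?_ hdiv
        apply Finset.card_le_card_of_injOn (fun x => (u x).natAbs)
        · intro x hx
          exact hudvd x (Finset.mem_filter.1 (Finset.mem_coe.1 hx)).1
        · intro x hx y hy hxy
          obtain ⟨x1, x2⟩ := Finset.mem_filter.1 (Finset.mem_coe.1 hx)
          obtain ⟨y1, y2⟩ := Finset.mem_filter.1 (Finset.mem_coe.1 hy)
          apply huinj x x1 y y1
          simp only at hxy
          omega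
      omega
    refine h1.trans (Nat.mul_le_mul_left _ ?_)
    apply hcardI
    intro y hy
    obtain ⟨x, hx, rfl⟩ := Finset.mem_image.1 hy
    exact hd x (Finset.mem_filter.1 hx).1
  have hbad : Sb.card ≤ (6 * R) * 2 := by
    have h1 : Sb.card ≤ (6 * R) * (Sb.image d).card := by
      apply Finset.card_le_mul_card_image
      intro y hy
      obtain ⟨x0, hx0, rfl⟩ := Finset.mem_image.1 hy
      obtain ⟨hx0S, hx0K⟩ := Finset.mem_filter.1 hx0
      push Not at hx0K
      set F := Sb.filter (fun x => d x = d x0) with hF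
      have hFm : ∀ x ∈ F, x ∈ S ∧ d x = d x0 ∧
          (h * b x - f * d x0) * (h * c x - g * d x0) = 0 := by
        intro x hx
        obtain ⟨k1, k2⟩ := Finset.mem_filter.1 hx
        obtain ⟨k3, k4⟩ := Finset.mem_filter.1 k1
        refine ⟨k3, k2, ?_⟩
        have := hfac x k3
        rw [k2, hx0K] at this
        exact this
      set F1 := F.filter (fun x => h * b x - f * d x0 = 0) with hF1
      set F2 := F.filter (fun x => ¬ (h * b x - f * d x0 = 0)) with hF2
      have hFs : F1.card + F2.card = F.card := Finset.card_filter_add_card_filter_not _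
      have c1 : F1.card ≤ 3 * R := by
        have : F1.card = (F1.image c).card := by
          rw [Finset.card_image_of_injOn]
          intro x hx y hy hxy
          obtain ⟨x1, x2⟩ := Finset.mem_filter.1 (Finset.mem_coe.1 hx)
          obtain ⟨y1, y2⟩ := Finset.mem_filter.1 (Finset.mem_coe.1 hy)
          obtain ⟨a1, a2, a3⟩ := hFm x x1
          obtain ⟨b1, b2, b3⟩ := hFm y y1
          refine hdet_a x a1 y b1 ?_ hxy (a2.trans b2.symm)
          apply mul_left_cancel₀ h0
          linarith
        rw [this]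
        apply hcardI
        intro y hy
        obtain ⟨x, hx, rfl⟩ := Finset.mem_image.1 hy
        exact hc x (hFm x (Finset.mem_filter.1 hx).1).1
      have c2 : F2.card ≤ 3 * R := by
        have : F2.card = (F2.image b).card := by
          rw [Finset.card_image_of_injOn]
          intro x hx y hy hxy
          obtain ⟨x1, x2⟩ := Finset.mem_filter.1 (Finset.mem_coe.1 hx)
          obtain ⟨y1, y2⟩ := Finset.mem_filter.1 (Finset.mem_coe.1 hy)
          obtain ⟨a1, a2, a3⟩ := hFm x x1
          obtain ⟨b1, b2, b3⟩ := hFm y y1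
          refine hdet_a x a1 y b1 hxy ?_ (a2.trans b2.symm)
          have e1 : h * c x - g * d x0 = 0 := by
            rcases mul_eq_zero.1 a3 with k | k
            · exact absurd k x2
            · exact k
          have e2 : h * c y - g * d x0 = 0 := by
            rcases mul_eq_zero.1 b3 with k | k
            · exact absurd k y2
            · exact k
          apply mul_left_cancel₀ h0
          linarith
        rw [this]
        apply hcardI
        intro y hy
        obtain ⟨x, hx, rfl⟩ := Finset.mem_image.1 hy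
        exact hb x (hFm x (Finset.mem_filter.1 hx).1).1
      omega
    refine h1.trans (Nat.mul_le_mul_left _ ?_)
    by_contra hcon
    push Not at hcon
    obtain ⟨y1, y2, y3, hy1, hy2, hy3, h12, h13, h23⟩ := Finset.two_lt_card_iff.1 hcon
    have hroot : ∀ y ∈ Sb.image d, -h ^ 2 + y * (h * t) + y ^ 2 * (f * g - h * e) = 0 := by
      intro y hy
      obtain ⟨x, hx, rfl⟩ := Finset.mem_image.1 hy
      have := (Finset.mem_filter.1 hx).2
      push Not at this
      simp only [hKd] at this
      linear_combination this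
    obtain ⟨_, _, i3⟩ := interp (-h ^ 2) (h * t) (f * g - h * e) y1 y2 y3
    rw [hroot y1 hy1, hroot y2 hy2, hroot y3 hy3] at i3
    have hV : (y1 - y2) * (y1 - y3) * (y2 - y3) ≠ 0 :=
      mul_ne_zero (mul_ne_zero (sub_ne_zero.2 h12) (sub_ne_zero.2 h13)) (sub_ne_zero.2 h23)
    have : (y1 - y2) * (y1 - y3) * (y2 - y3) * -h ^ 2 = 0 := by rw [i3]; ring
    rcases mul_eq_zero.1 this with k | k
    · exact hV k
    · have : h ^ 2 = 0 := by linarith
      exact h0 (pow_eq_zero_iff (by norm_num) |>.1 this)
  have : 2 * T * (3 * R) + 6 * R * 2 ≤ 18 * T * R := by nlinarith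
  omega

/-- planar sections of the determinant-one surface -/
theorem sec {ι : Type*} [DecidableEq ι] (S : Finset ι) (a b c d : ι → ℤ)
    (hinj : ∀ x ∈ S, ∀ y ∈ S, a x = a y → b x = b y → c x = c y → d x = d y → x = y)
    (hdet : ∀ x ∈ S, a x * d x - b x * c x = 1) (R W T : ℕ) (hR : 1 ≤ R) (hW : 1 ≤ W) (hT : 1 ≤ T)
    (ha : ∀ x ∈ S, (a x).natAbs ≤ R)
    (hb : ∀ x ∈ S, (b x).natAbs ≤ R) (hc : ∀ x ∈ S, (c x).natAbs ≤ R)
    (hd : ∀ x ∈ S, (d x).natAbs ≤ R) (e f g h t : ℤ) (h0 : ¬ (e = 0 ∧ f = 0 ∧ g = 0 ∧ h = 0))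
    (he : e.natAbs ≤ W) (hf : f.natAbs ≤ W) (hg : g.natAbs ≤ W) (hh : h.natAbs ≤ W)
    (ht : t.natAbs ≤ W)
    (hsec : ∀ x ∈ S, a x * h + d x * e - b x * g - c x * f = t)
    (hTd : ∀ n : ℕ, 0 < n → n ≤ 4 * W ^ 2 * R ^ 2 → n.divisors.card ≤ T) :
    S.card ≤ 18 * T * R := by
  by_cases hh0 : h = 0
  · by_cases he0 : e = 0
    · by_cases hg0 : g = 0
      · by_cases hf0 : f = 0
        · exact absurd ⟨he0, hf0, hg0, hh0⟩ h0
        · refine sec_h S c d (fun x => - a x) (fun x => - b x) (fun x hx y hy h1 h2 h3 h4 => hinj x hx y hy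
            (neg_injective h3) (neg_injective h4) h1 h2)
            (fun x hx => by have := hdet x hx; linarith) R W T hR hW hT hd
            (fun x hx => by have := ha x hx; omega) (fun x hx => by have := hb x hx; omega)
            g h (-e) (-f) t (neg_ne_zero.2 hf0) hg hh (by omega) (by omega) ht
            (fun x hx => by have := hsec x hx; linarith) hTd
      · refine sec_h S (fun x => - b x) a (fun x => - d x) c (fun x hx y hy h1 h2 h3 h4 => hinj x hx y hy
            h2 (neg_injective h1) h4 (neg_injective h3))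
            (fun x hx => by have := hdet x hx; linarith) R W T hR hW hT ha
            (fun x hx => by have := hd x hx; omega) hc
            (-f) e (-h) g t hg0 (by omega) he (by omega) hg ht
            (fun x hx => by have := hsec x hx; linarith) hTd
    · refine sec_h S d b c a (fun x hx y hy h1 h2 h3 h4 => hinj x hx y hy h4 h2 h3 h1)
            (fun x hx => by have := hdet x hx; linarith) R W T hR hW hT hb hc ha
            h f g e t he0 hh hf hg he ht
            (fun x hx => by have := hsec x hx; linarith) hTd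
  · exact sec_h S a b c d hinj hdet R W T hR hW hT hb hc hd e f g h t hh0 he hf hg hh ht hsec hTd

/-- the number of elements of the ball -/
theorem ball_count {ι : Type*} [DecidableEq ι] (S : Finset ι) (a b c d : ι → ℤ)
    (hinj : ∀ x ∈ S, ∀ y ∈ S, a x = a y → b x = b y → c x = c y → d x = d y → x = y)
    (hdet : ∀ x ∈ S, a x * d x - b x * c x = 1) (R T : ℕ) (hR : 1 ≤ R) (hT : 1 ≤ T)
    (ha : ∀ x ∈ S, (a x).natAbs ≤ R)
    (hb : ∀ x ∈ S, (b x).natAbs ≤ R) (hc : ∀ x ∈ S, (c x).natAbs ≤ R)
    (hd : ∀ x ∈ S, (d x).natAbs ≤ R)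
    (hTd : ∀ n : ℕ, 0 < n → n ≤ 4 * R ^ 2 * R ^ 2 → n.divisors.card ≤ T) :
    S.card ≤ 54 * T * R ^ 2 := by
  classical
  have h1 : S.card ≤ (18 * T * R) * (S.image a).card := by
    apply Finset.card_le_mul_card_image
    intro y hy
    obtain ⟨x0, hx0, rfl⟩ := Finset.mem_image.1 hy
    have hsub : ∀ x ∈ S.filter (fun x => a x = a x0), x ∈ S ∧ a x = a x0 :=
      fun x hx => Finset.mem_filter.1 hx
    refine sec (S.filter (fun x => a x = a x0)) a b c d
      (fun x hx y hy => hinj x (hsub x hx).1 y (hsub y hy).1)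
      (fun x hx => hdet x (hsub x hx).1) R R T hR hR hT (fun x hx => ha x (hsub x hx).1)
      (fun x hx => hb x (hsub x hx).1)
      (fun x hx => hc x (hsub x hx).1) (fun x hx => hd x (hsub x hx).1) 0 0 0 1 (a x0)
      (by simp) (by simp) (by simp) (by simp) (by simpa using hR) (ha x0 hx0) ?_ hTd
    intro x hx
    have := (hsub x hx).2
    linarith
  have h2 : (S.image a).card ≤ 3 * R := by
    have : S.image a ⊆ Icc (-(R:ℤ)) R := by
      intro y hy
      obtain ⟨x, hx, rfl⟩ := Finset.mem_image.1 hy
      have := ha x hx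
      rw [Finset.mem_Icc]; omega
    have := Finset.card_le_card this
    rw [Int.card_Icc] at this
    omega
  calc S.card ≤ (18 * T * R) * (S.image a).card := h1
    _ ≤ (18 * T * R) * (3 * R) := Nat.mul_le_mul_left _ h2
    _ = 54 * T * R ^ 2 := by ring

end Pool.Agent.E8helper43.SL
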