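import Mathlib

set_option autoImplicit false

namespace Pool.Agent.E8helper43.SL

open Finset

/-- a `δ`-separated family of reals in `[-A, A]` has at most `2A/δ + 1` elements -/
theorem sep_real {ι : Type*} (S : Finset ι) (f : ι → ℝ) (δ A : ℝ) (hδ : 0 < δ) (hA0 : 0 ≤ A)
    (hsep : ∀ x ∈ S, ∀ y ∈ S, x ≠ y → δ ≤ |f x - f y|) (hA : ∀ x ∈ S, |f x| ≤ A) :
    (S.card : ℝ) ≤ 2 * A / δ + 1 := by
  classical
  set g : ι → ℤ := fun x => ⌊(f x + A) / δ⌋ with hg
  have hinj : Set.InjOn g S := by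
    intro x hx y hy hxy
    by_contra hne
    have h1 := hsep x hx y hy hne
    have h2 : |(f x + A) / δ - (f y + A) / δ| < 1 := Int.abs_sub_lt_one_of_floor_eq_floor hxy
    have h3 : (f x + A) / δ - (f y + A) / δ = (f x - f y) / δ := by ring
    rw [h3, abs_div, abs_of_pos hδ, div_lt_one hδ] at h2
    linarith
  have hmaps : ∀ x ∈ S, g x ∈ Finset.Icc (0:ℤ) ⌊2 * A / δ⌋ := by
    intro x hx
    have h1 := abs_le.1 (hA x hx)
    rw [Finset.mem_Icc]
    constructor
    · apply Int.floor_nonneg.2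
      apply div_nonneg _ hδ.le
      linarith
    · apply Int.floor_le_floor
      apply div_le_div_of_nonneg_right _ hδ.le
      linarith
  have hcard : S.card ≤ (Finset.Icc (0:ℤ) ⌊2 * A / δ⌋).card :=
    Finset.card_le_card_of_injOn g hmaps hinj
  have h0 : 0 ≤ ⌊2 * A / δ⌋ := Int.floor_nonneg.2 (by positivity)
  rw [Int.card_Icc] at hcard
  have h4 : ((⌊2 * A / δ⌋ + 1 - 0).toNat : ℤ) = ⌊2 * A / δ⌋ + 1 := by
    rw [Int.toNat_of_nonneg (by omega)]; ring
  have h5 : (S.card : ℝ) ≤ ((⌊2 * A / δ⌋ + 1 - 0).toNat : ℝ) := by exact_mod_cast hcard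
  have h6 : ((⌊2 * A / δ⌋ + 1 - 0).toNat : ℝ) = (⌊2 * A / δ⌋ : ℝ) + 1 := by exact_mod_cast h4
  have h7 := Int.floor_le (2 * A / δ)
  linarith

/-- integer version -/
theorem sep_int {ι : Type*} (S : Finset ι) (f : ι → ℤ) (δ A : ℝ) (hδ : 0 < δ) (hA0 : 0 ≤ A)
    (hsep : ∀ x ∈ S, ∀ y ∈ S, x ≠ y → δ ≤ |((f x - f y : ℤ) : ℝ)|)
    (hA : ∀ x ∈ S, |(f x : ℝ)| ≤ A) :
    (S.card : ℝ) ≤ 2 * A / δ + 1 := by
  refine sep_real S (fun x => (f x : ℝ)) δ A hδ hA0 (fun x hx y hy h => ?_) hA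
  have := hsep x hx y hy h
  push_cast at this
  exact this

theorem circ_aux {p q p' q' : ℝ} (h : p ^ 2 + q ^ 2 = 1) (h' : p' ^ 2 + q' ^ 2 = 1)
    (h1 : |q| ≤ p) (h2 : |q'| ≤ p') : (p - p') ^ 2 ≤ (q - q') ^ 2 := by
  have a1 := abs_le.1 h1
  have a2 := abs_le.1 h2
  have hp : 0 < p := by
    rcases (abs_nonneg q).trans h1 |>.lt_or_eq with h0 | h0
    · exact h0
    · exfalso
      have : q = 0 := by
        have := h1; rw [← h0] at this; exact abs_nonpos_iff.1 this
      rw [← h0, this] at h; norm_num at h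
  have hp' : 0 < p' := by
    rcases (abs_nonneg q').trans h2 |>.lt_or_eq with h0 | h0
    · exact h0
    · exfalso
      have : q' = 0 := by
        have := h2; rw [← h0] at this; exact abs_nonpos_iff.1 this
      rw [← h0, this] at h'; norm_num at h'
  have hs : 0 < p + p' := by linarith
  have hk : (p - p') * (p + p') = (q' - q) * (q' + q) := by nlinarith
  have hq : (q' + q) ^ 2 ≤ (p + p') ^ 2 := by
    apply sq_le_sq'
    · linarith
    · linarith
  have h5 : (p - p') ^ 2 * (p + p') ^ 2 ≤ (q - q') ^ 2 * (p + p') ^ 2 := by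
    calc (p - p') ^ 2 * (p + p') ^ 2 = ((p - p') * (p + p')) ^ 2 := by ring
      _ = (q - q') ^ 2 * (q' + q) ^ 2 := by rw [hk]; ring
      _ ≤ (q - q') ^ 2 * (p + p') ^ 2 := mul_le_mul_of_nonneg_left hq (sq_nonneg _)
  exact le_of_mul_le_mul_right h5 (by positivity)

theorem circ_region {ι : Type*} (S : Finset ι) (p q : ι → ℝ) (δ : ℝ) (hδ : 0 < δ)
    (h1 : ∀ x ∈ S, (p x) ^ 2 + (q x) ^ 2 = 1) (hr : ∀ x ∈ S, |q x| ≤ p x)
    (hsep : ∀ x ∈ S, ∀ y ∈ S, x ≠ y → δ ^ 2 ≤ (p x - p y) ^ 2 + (q x - q y) ^ 2) :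
    (S.card : ℝ) ≤ 3 / δ + 1 := by
  have := sep_real S q (2 * δ / 3) 1 (by positivity) (by norm_num) ?_ ?_
  · have h3 : 2 * 1 / (2 * δ / 3) + 1 = 3 / δ + 1 := by field_simp
    rw [h3] at this; exact this
  · intro x hx y hy hxy
    have a := hsep x hx y hy hxy
    have b := circ_aux (h1 x hx) (h1 y hy) (hr x hx) (hr y hy)
    have c : δ ^ 2 ≤ 2 * (q x - q y) ^ 2 := by linarith
    have d : (2 * δ / 3) ^ 2 ≤ |q x - q y| ^ 2 := by
      rw [sq_abs]; nlinarith
    exact (pow_le_pow_iff_left₀ (by positivity) (abs_nonneg _) (by norm_num)).1 d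
  · intro x hx
    have := h1 x hx
    rw [← sq_le_one_iff_abs_le_one]
    nlinarith [sq_nonneg (p x)]

/-- `δ`-separated points on the unit circle -/
theorem circ {ι : Type*} (S : Finset ι) (p q : ι → ℝ) (δ : ℝ) (hδ : 0 < δ)
    (h1 : ∀ x ∈ S, (p x) ^ 2 + (q x) ^ 2 = 1)
    (hsep : ∀ x ∈ S, ∀ y ∈ S, x ≠ y → δ ^ 2 ≤ (p x - p y) ^ 2 + (q x - q y) ^ 2) :
    (S.card : ℝ) ≤ 12 / δ + 4 := by
  classical
  set S1 := S.filter (fun x => |q x| ≤ p x)
  set S2 := S.filter (fun x => |q x| ≤ - p x)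
  set S3 := S.filter (fun x => |p x| ≤ q x)
  set S4 := S.filter (fun x => |p x| ≤ - q x)
  have hcov : S ⊆ S1 ∪ (S2 ∪ (S3 ∪ S4)) := by
    intro x hx
    simp only [S1, S2, S3, S4, Finset.mem_union, Finset.mem_filter, hx, true_and]
    rcases le_total (|q x|) (|p x|) with h | h
    · rcases le_total 0 (p x) with h2 | h2
      · left; rwa [abs_of_nonneg h2] at h
      · right; left; rwa [abs_of_nonpos h2] at h
    · rcases le_total 0 (q x) with h2 | h2
      · right; right; left; rwa [abs_of_nonneg h2] at h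
      · right; right; right; rwa [abs_of_nonpos h2] at h
  have hc : S.card ≤ S1.card + (S2.card + (S3.card + S4.card)) := by
    refine (Finset.card_le_card hcov).trans ((Finset.card_union_le _ _).trans ?_)
    gcongr
    refine (Finset.card_union_le _ _).trans ?_
    gcongr
    exact Finset.card_union_le _ _
  have c1 : (S1.card : ℝ) ≤ 3 / δ + 1 := by
    refine circ_region S1 p q δ hδ (fun x hx => h1 x (Finset.mem_filter.1 hx).1)
      (fun x hx => (Finset.mem_filter.1 hx).2) (fun x hx y hy hxy =>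
        hsep x (Finset.mem_filter.1 hx).1 y (Finset.mem_filter.1 hy).1 hxy)
  have c2 : (S2.card : ℝ) ≤ 3 / δ + 1 := by
    refine circ_region S2 (fun x => - p x) q δ hδ (fun x hx => ?_)
      (fun x hx => (Finset.mem_filter.1 hx).2) (fun x hx y hy hxy => ?_)
    · have := h1 x (Finset.mem_filter.1 hx).1; simpa using this
    · have := hsep x (Finset.mem_filter.1 hx).1 y (Finset.mem_filter.1 hy).1 hxy
      refine this.trans (le_of_eq ?_); ring
  have c3 : (S3.card : ℝ) ≤ 3 / δ + 1 := by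
    refine circ_region S3 q p δ hδ (fun x hx => ?_)
      (fun x hx => (Finset.mem_filter.1 hx).2) (fun x hx y hy hxy => ?_)
    · have := h1 x (Finset.mem_filter.1 hx).1; linarith
    · have := hsep x (Finset.mem_filter.1 hx).1 y (Finset.mem_filter.1 hy).1 hxy
      refine this.trans (le_of_eq ?_); ring
  have c4 : (S4.card : ℝ) ≤ 3 / δ + 1 := by
    refine circ_region S4 (fun x => - q x) p δ hδ (fun x hx => ?_)
      (fun x hx => (Finset.mem_filter.1 hx).2) (fun x hx y hy hxy => ?_)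
    · have := h1 x (Finset.mem_filter.1 hx).1; linarith [sq_nonneg (q x), neg_sq (q x)]
    · have := hsep x (Finset.mem_filter.1 hx).1 y (Finset.mem_filter.1 hy).1 hxy
      refine this.trans (le_of_eq ?_); ring
  have hc' : (S.card : ℝ) ≤ S1.card + (S2.card + (S3.card + S4.card)) := by exact_mod_cast hc
  have e : 12 / δ + 4 = 4 * (3 / δ + 1) := by ring
  rw [e]; linarith

end Pool.Agent.E8helper43.SL
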