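import Pool.Agent.E8helper43.SL.Dyad

set_option autoImplicit false
set_option maxHeartbeats 4000000

namespace Pool.Agent.E8helper43.SL

open Finset

theorem sum_inv_sqrt (m : ℕ) : ∑ k ∈ Icc 1 m, 1 / Real.sqrt (k : ℝ) ≤ 2 * Real.sqrt (m : ℝ) := by
  induction m with
  | zero => simp
  | succ m ih =>
    rw [Finset.sum_Icc_succ_top (by omega)]
    have h1 : (0:ℝ) < Real.sqrt ((m + 1 : ℕ) : ℝ) := Real.sqrt_pos.2 (by exact_mod_cast Nat.succ_pos m)
    have h2 : Real.sqrt ((m + 1 : ℕ) : ℝ) ^ 2 = (m:ℝ) + 1 := by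
      rw [Real.sq_sqrt (by positivity)]; push_cast; ring
    have h3 : Real.sqrt (m : ℝ) ^ 2 = m := Real.sq_sqrt (by positivity)
    have h4 : (0:ℝ) ≤ Real.sqrt (m : ℝ) := Real.sqrt_nonneg _
    have h5 : 1 / Real.sqrt ((m + 1 : ℕ) : ℝ) ≤ 2 * Real.sqrt ((m + 1 : ℕ) : ℝ) -
        2 * Real.sqrt (m : ℝ) := by
      rw [div_le_iff₀ h1]
      nlinarith [sq_nonneg (Real.sqrt ((m + 1 : ℕ) : ℝ) - Real.sqrt (m : ℝ))]
    linarith

/-- sums over multiples -/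
theorem sum_mult (d M : ℕ) (hd : 0 < d) :
    ∑ p ∈ (Icc 1 M).filter (fun p => d ∣ p), 1 / Real.sqrt (p : ℝ) ≤
      2 * Real.sqrt (M : ℝ) / d := by
  classical
  have himg : (Icc 1 M).filter (fun p => d ∣ p) = (Icc 1 (M / d)).image (fun k => d * k) := by
    ext p
    simp only [Finset.mem_filter, Finset.mem_Icc, Finset.mem_image]
    constructor
    · rintro ⟨⟨h1, h2⟩, k, rfl⟩
      refine ⟨k, ⟨?_, ?_⟩, rfl⟩
      · rcases Nat.eq_zero_or_pos k with h | h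
        · rw [h] at h1; omega
        · exact h
      · rw [Nat.le_div_iff_mul_le hd]; linarith [mul_comm d k]
    · rintro ⟨k, ⟨h1, h2⟩, rfl⟩
      refine ⟨⟨?_, ?_⟩, dvd_mul_right _ _⟩
      · exact Nat.mul_pos hd h1
      · rw [Nat.le_div_iff_mul_le hd] at h2; linarith [mul_comm d k]
  rw [himg, Finset.sum_image (by
    intro x _ y _ h
    exact Nat.eq_of_mul_eq_mul_left hd h)]
  have hd' : (0:ℝ) < d := by exact_mod_cast hd
  have hsd : 0 < Real.sqrt (d : ℝ) := Real.sqrt_pos.2 hd'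
  have e : ∀ k : ℕ, 1 / Real.sqrt ((d * k : ℕ) : ℝ) = (1 / Real.sqrt (d : ℝ)) *
      (1 / Real.sqrt (k : ℝ)) := by
    intro k
    push_cast
    rw [Real.sqrt_mul hd'.le]
    rw [one_div_mul_one_div]
  simp only [e]
  rw [← Finset.mul_sum]
  calc 1 / Real.sqrt (d : ℝ) * ∑ k ∈ Icc 1 (M / d), 1 / Real.sqrt (k : ℝ)
      ≤ 1 / Real.sqrt (d : ℝ) * (2 * Real.sqrt ((M / d : ℕ) : ℝ)) := by
        apply mul_le_mul_of_nonneg_left (sum_inv_sqrt _) (by positivity)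
    _ ≤ 1 / Real.sqrt (d : ℝ) * (2 * (Real.sqrt (M : ℝ) / Real.sqrt (d : ℝ))) := by
        apply mul_le_mul_of_nonneg_left _ (by positivity)
        rw [← Real.sqrt_div (by positivity)]
        have : ((M / d : ℕ) : ℝ) ≤ (M : ℝ) / d := Nat.cast_div_le
        have := Real.sqrt_le_sqrt this
        linarith
    _ = 2 * Real.sqrt (M : ℝ) / (Real.sqrt (d : ℝ) ^ 2) := by ring
    _ = 2 * Real.sqrt (M : ℝ) / d := by rw [Real.sq_sqrt hd'.le]

/-- weighted gcd sum -/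
theorem gcd_sum (n M : ℕ) (hn : 0 < n) :
    ∑ p ∈ Icc 1 M, (Nat.gcd n p : ℝ) / Real.sqrt (p : ℝ) ≤
      2 * n.divisors.card * Real.sqrt (M : ℝ) := by
  classical
  have h1 : ∀ p ∈ Icc 1 M, (Nat.gcd n p : ℝ) / Real.sqrt (p : ℝ) ≤
      ∑ d ∈ n.divisors, (if d ∣ p then (d : ℝ) * (1 / Real.sqrt (p : ℝ)) else 0) := by
    intro p _
    have hmem : Nat.gcd n p ∈ n.divisors := Nat.mem_divisors.2 ⟨Nat.gcd_dvd_left _ _, hn.ne'⟩
    have := Finset.single_le_sum (f := fun d => (if d ∣ p then (d : ℝ) * (1 / Real.sqrt (p : ℝ))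
      else 0)) (fun d _ => by
        show (0:ℝ) ≤ if d ∣ p then (d : ℝ) * (1 / Real.sqrt (p : ℝ)) else 0
        split_ifs
        · positivity
        · exact le_refl _) hmem
    refine le_trans (le_of_eq ?_) this
    simp only [Nat.gcd_dvd_right, if_true]
    ring
  calc ∑ p ∈ Icc 1 M, (Nat.gcd n p : ℝ) / Real.sqrt (p : ℝ)
      ≤ ∑ p ∈ Icc 1 M, ∑ d ∈ n.divisors,
        (if d ∣ p then (d : ℝ) * (1 / Real.sqrt (p : ℝ)) else 0) := Finset.sum_le_sum h1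
    _ = ∑ d ∈ n.divisors, ∑ p ∈ Icc 1 M,
        (if d ∣ p then (d : ℝ) * (1 / Real.sqrt (p : ℝ)) else 0) := Finset.sum_comm
    _ ≤ ∑ _d ∈ n.divisors, 2 * Real.sqrt (M : ℝ) := by
        apply Finset.sum_le_sum
        intro d hd
        have hdpos : 0 < d := Nat.pos_of_mem_divisors hd
        have hd' : (0:ℝ) < d := by exact_mod_cast hdpos
        rw [← Finset.sum_filter, ← Finset.mul_sum]
        have := sum_mult d M hdpos
        calc (d:ℝ) * ∑ p ∈ (Icc 1 M).filter (fun p => d ∣ p), 1 / Real.sqrt (p : ℝ)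
            ≤ d * (2 * Real.sqrt (M : ℝ) / d) := mul_le_mul_of_nonneg_left this hd'.le
          _ = 2 * Real.sqrt (M : ℝ) := by field_simp
    _ = _ := by rw [Finset.sum_const, nsmul_eq_mul]; ring

/-- from integers to natural numbers -/
theorem sum_natAbs_le (S : Finset ℤ) (M : ℕ) (f : ℕ → ℝ) (hf : ∀ k, 0 ≤ f k)
    (hS : ∀ p ∈ S, p ≠ 0 ∧ p.natAbs ≤ M) :
    ∑ p ∈ S, f p.natAbs ≤ 2 * ∑ k ∈ Icc 1 M, f k := by
  classical
  have hmap : ∀ p ∈ S, p.natAbs ∈ Icc 1 M := by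
    intro p hp
    obtain ⟨h1, h2⟩ := hS p hp
    rw [Finset.mem_Icc]
    exact ⟨Int.natAbs_pos.2 h1, h2⟩
  rw [← Finset.sum_fiberwise_of_maps_to hmap, Finset.mul_sum]
  apply Finset.sum_le_sum
  intro k _
  have hsub : S.filter (fun p => p.natAbs = k) ⊆ ({(k:ℤ), -(k:ℤ)} : Finset ℤ) := by
    intro p hp
    obtain ⟨_, h2⟩ := Finset.mem_filter.1 hp
    rw [Finset.mem_insert, Finset.mem_singleton]
    omega
  have hcard : (S.filter (fun p => p.natAbs = k)).card ≤ 2 :=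
    (Finset.card_le_card hsub).trans (Finset.card_le_two)
  calc ∑ p ∈ S.filter (fun p => p.natAbs = k), f p.natAbs
      = ∑ _p ∈ S.filter (fun p => p.natAbs = k), f k := by
        apply Finset.sum_congr rfl
        intro p hp
        rw [(Finset.mem_filter.1 hp).2]
    _ = (S.filter (fun p => p.natAbs = k)).card * f k := by rw [Finset.sum_const, nsmul_eq_mul]
    _ ≤ 2 * f k := mul_le_mul_of_nonneg_right (by exact_mod_cast hcard) (hf k)

theorem gcd_sum_int (n : ℤ) (hn : n ≠ 0) (M : ℕ) (S : Finset ℤ)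
    (hS : ∀ p ∈ S, p ≠ 0 ∧ p.natAbs ≤ M) :
    ∑ p ∈ S, (Int.gcd n p : ℝ) / Real.sqrt |(p : ℝ)| ≤
      4 * n.natAbs.divisors.card * Real.sqrt (M : ℝ) := by
  have h := sum_natAbs_le S M (fun k => (Nat.gcd n.natAbs k : ℝ) / Real.sqrt (k : ℝ))
    (fun k => by positivity) hS
  have h2 := gcd_sum n.natAbs M (Int.natAbs_pos.2 hn)
  have e : ∀ p : ℤ, (Int.gcd n p : ℝ) / Real.sqrt |(p : ℝ)| =
      (Nat.gcd n.natAbs p.natAbs : ℝ) / Real.sqrt (p.natAbs : ℝ) := by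
    intro p
    have : |(p : ℝ)| = ((p.natAbs : ℕ) : ℝ) := by rw [Nat.cast_natAbs]; push_cast; rfl
    rw [this]
    rfl
  simp only [e]
  linarith

/-- the gcd inequality -/
theorem sqrt_XX_le (s p : ℤ) (hs : s ≠ 0) (hs4 : 4 - s ≠ 0) (hp : p ≠ 0) :
    Real.sqrt (XX s p (4 - s - p)) ≤ (Int.gcd (s * (4 - s)) p : ℝ) + Int.gcd s (4 - p) := by
  set x := Int.gcd s p with hx
  set z := Int.gcd p (4 - s) with hz
  set y := Int.gcd s (4 - p) with hy
  set G := Int.gcd (s * (4 - s)) p with hG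
  have e1 : Int.gcd s (4 - s - p) = y := by
    rw [hy]
    have : 4 - s - p = 4 - p + s * (-1) := by ring
    rw [this, Int.gcd_add_mul_left_right]
  have e2 : Int.gcd p (4 - s - p) = z := by
    rw [hz]
    have : 4 - s - p = 4 - s + p * (-1) := by ring
    rw [this, Int.gcd_add_mul_left_right]
  have hXX : XX s p (4 - s - p) = x * y * z := by rw [XX, e1, e2]
  have hxz : x * z ≤ 4 * G := by
    have g1 : Nat.gcd x z ∣ 4 := by
      have a1 : ((Nat.gcd x z : ℕ) : ℤ) ∣ s := by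
        have : ((Nat.gcd x z : ℕ) : ℤ) ∣ x := by exact_mod_cast Nat.gcd_dvd_left x z
        exact this.trans (Int.gcd_dvd_left _ _)
      have a2 : ((Nat.gcd x z : ℕ) : ℤ) ∣ 4 - s := by
        have : ((Nat.gcd x z : ℕ) : ℤ) ∣ z := by exact_mod_cast Nat.gcd_dvd_right x z
        exact this.trans (Int.gcd_dvd_right _ _)
      have a3 : ((Nat.gcd x z : ℕ) : ℤ) ∣ 4 := by
        have := dvd_add a1 a2
        have e : s + (4 - s) = 4 := by ring
        rwa [e] at this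
      exact_mod_cast a3
    have g2 : Nat.lcm x z ∣ G := by
      apply Nat.lcm_dvd
      · have : (x : ℤ) ∣ G := by
          apply Int.dvd_coe_gcd
          · exact Dvd.dvd.mul_right (Int.gcd_dvd_left _ _) _
          · exact Int.gcd_dvd_right _ _
        exact_mod_cast this
      · have : (z : ℤ) ∣ G := by
          apply Int.dvd_coe_gcd
          · exact Dvd.dvd.mul_left (Int.gcd_dvd_right _ _) _
          · exact Int.gcd_dvd_left _ _
        exact_mod_cast this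
    have hGpos : 0 < G := Int.gcd_pos_of_ne_zero_right _ hp
    rw [← Nat.gcd_mul_lcm x z]
    exact Nat.mul_le_mul (Nat.le_of_dvd (by norm_num) g1) (Nat.le_of_dvd hGpos g2)
  rw [hXX]
  apply Real.sqrt_le_iff.2
  constructor
  · positivity
  · have h1 : ((x * y * z : ℕ) : ℝ) ≤ 4 * G * y := by
      have : x * y * z ≤ 4 * G * y := by nlinarith
      exact_mod_cast this
    refine h1.trans ?_
    nlinarith [sq_nonneg ((G:ℝ) - y)]

/-- the diagonal terms -/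
theorem XX_diag (p : ℤ) (hp : p ≠ 0) : Real.sqrt (XX 4 p (4 - 4 - p)) / Real.sqrt |((4:ℤ) : ℝ) * p| ≤ 2 := by
  have e : (4 - 4 - p : ℤ) = -p := by ring
  rw [e]
  have h4 : Int.gcd 4 p ≤ 4 := Nat.le_of_dvd (by norm_num) (Int.gcd_dvd_natAbs_left 4 p)
  have h4' : Int.gcd 4 (-p) ≤ 4 := Nat.le_of_dvd (by norm_num) (Int.gcd_dvd_natAbs_left 4 (-p))
  have h5 : Int.gcd p (-p) = p.natAbs := by
    rw [Int.gcd_neg, Int.gcd_self]
  have hX : (XX 4 p (-p) : ℝ) ≤ 16 * |(p : ℝ)| := by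
    have : |(p : ℝ)| = ((p.natAbs : ℕ) : ℝ) := by rw [Nat.cast_natAbs]; push_cast; rfl
    rw [this]
    have : XX 4 p (-p) ≤ 16 * p.natAbs := by
      rw [XX, h5]
      calc Int.gcd 4 p * Int.gcd 4 (-p) * p.natAbs ≤ 4 * 4 * p.natAbs := by gcongr
        _ = 16 * p.natAbs := by norm_num
    exact_mod_cast this
  have hpp : 0 < |(p : ℝ)| := abs_pos.2 (by exact_mod_cast hp)
  have h6 : |((4:ℤ) : ℝ) * p| = 4 * |(p : ℝ)| := by
    rw [abs_mul]; norm_num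
  rw [h6, div_le_iff₀ (Real.sqrt_pos.2 (by positivity))]
  have h7 : 2 * Real.sqrt (4 * |(p : ℝ)|) = Real.sqrt (16 * |(p : ℝ)|) := by
    rw [show (16:ℝ) * |(p : ℝ)| = 2 ^ 2 * (4 * |(p : ℝ)|) by ring,
      Real.sqrt_mul (by positivity : (0:ℝ) ≤ 2 ^ 2), Real.sqrt_sq (by norm_num)]
  rw [h7]
  exact Real.sqrt_le_sqrt hX

theorem XX_swap (s p : ℤ) : XX s p (4 - s - p) = XX p s (4 - p - s) := by
  have e : (4 - p - s : ℤ) = 4 - s - p := by ring
  rw [e, XX, XX, Int.gcd_comm s p]; ring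

/-- inner sum -/
theorem inner_sum (s : ℤ) (hs : s ≠ 0) (hs4 : 4 - s ≠ 0) (M : ℕ) (hM : 1 ≤ M) (τ : ℝ)
    (h1 : ((s * (4 - s)).natAbs.divisors.card : ℝ) ≤ τ) (h2 : (s.natAbs.divisors.card : ℝ) ≤ τ)
    (S : Finset ℤ) (hS : ∀ p ∈ S, p ≠ 0 ∧ 4 - p ≠ 0 ∧ p.natAbs ≤ M) :
    ∑ p ∈ S, Real.sqrt (XX s p (4 - s - p)) / Real.sqrt |(p : ℝ)| ≤ 40 * τ * Real.sqrt (M : ℝ) := by
  classical
  have hτ : 0 ≤ τ := le_trans (by positivity) h1
  have hsplit : ∀ p ∈ S, Real.sqrt (XX s p (4 - s - p)) / Real.sqrt |(p : ℝ)| ≤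
      (Int.gcd (s * (4 - s)) p : ℝ) / Real.sqrt |(p : ℝ)| +
      3 * ((Int.gcd s (4 - p) : ℝ) / Real.sqrt |((4 - p : ℤ) : ℝ)|) := by
    intro p hp
    obtain ⟨p0, p4, pM⟩ := hS p hp
    have hpp : 0 < |(p : ℝ)| := abs_pos.2 (by exact_mod_cast p0)
    have hqq : 0 < |((4 - p : ℤ) : ℝ)| := abs_pos.2 (by exact_mod_cast p4)
    have hsp : 0 < Real.sqrt |(p : ℝ)| := Real.sqrt_pos.2 hpp
    have hsq : 0 < Real.sqrt |((4 - p : ℤ) : ℝ)| := Real.sqrt_pos.2 hqq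
    have k1 := sqrt_XX_le s p hs hs4 p0
    have k2 : |((4 - p : ℤ) : ℝ)| ≤ 9 * |(p : ℝ)| := by
      have : |4 - p| ≤ 9 * |p| := by
        have h5 := Int.one_le_abs p0
        have : |4 - p| ≤ |(4:ℤ)| + |p| := abs_sub _ _
        have h4 : |(4:ℤ)| = 4 := by norm_num
        rw [h4] at this
        linarith
      exact_mod_cast this
    have k3 : Real.sqrt |((4 - p : ℤ) : ℝ)| ≤ 3 * Real.sqrt |(p : ℝ)| := by
      have := Real.sqrt_le_sqrt k2
      rwa [Real.sqrt_mul (by norm_num), show (9:ℝ) = 3 ^ 2 by norm_num,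
        Real.sqrt_sq (by norm_num)] at this
    have k4 : (Int.gcd s (4 - p) : ℝ) / Real.sqrt |(p : ℝ)| ≤
        3 * ((Int.gcd s (4 - p) : ℝ) / Real.sqrt |((4 - p : ℤ) : ℝ)|) := by
      rw [← mul_div_assoc, div_le_div_iff₀ hsp hsq]
      have : (0:ℝ) ≤ (Int.gcd s (4 - p) : ℝ) := by positivity
      nlinarith
    calc Real.sqrt (XX s p (4 - s - p)) / Real.sqrt |(p : ℝ)|
        ≤ ((Int.gcd (s * (4 - s)) p : ℝ) + Int.gcd s (4 - p)) / Real.sqrt |(p : ℝ)| :=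
          div_le_div_of_nonneg_right k1 hsp.le
      _ = (Int.gcd (s * (4 - s)) p : ℝ) / Real.sqrt |(p : ℝ)| +
          (Int.gcd s (4 - p) : ℝ) / Real.sqrt |(p : ℝ)| := by rw [add_div]
      _ ≤ _ := by linarith
  have a1 := gcd_sum_int (s * (4 - s)) (mul_ne_zero hs hs4) M S (fun p hp => ⟨(hS p hp).1, (hS p hp).2.2⟩)
  have a2 := gcd_sum_int s hs (M + 4) (S.image (fun p => 4 - p)) (by
    intro q hq
    obtain ⟨p, hp, rfl⟩ := Finset.mem_image.1 hq
    obtain ⟨p0, p4, pM⟩ := hS p hp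
    exact ⟨p4, by omega⟩)
  rw [Finset.sum_image (by intro x _ y _ h; simp only at h; omega)] at a2
  have hM4 : Real.sqrt ((M + 4 : ℕ) : ℝ) ≤ 3 * Real.sqrt (M : ℝ) := by
    have hM' : (1:ℝ) ≤ M := by exact_mod_cast hM
    have : ((M + 4 : ℕ) : ℝ) ≤ 9 * M := by push_cast; linarith
    have := Real.sqrt_le_sqrt this
    rwa [Real.sqrt_mul (by norm_num), show (9:ℝ) = 3 ^ 2 by norm_num,
        Real.sqrt_sq (by norm_num)] at this
  have hsM : 0 ≤ Real.sqrt (M : ℝ) := Real.sqrt_nonneg _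
  calc ∑ p ∈ S, Real.sqrt (XX s p (4 - s - p)) / Real.sqrt |(p : ℝ)|
      ≤ ∑ p ∈ S, ((Int.gcd (s * (4 - s)) p : ℝ) / Real.sqrt |(p : ℝ)| +
      3 * ((Int.gcd s (4 - p) : ℝ) / Real.sqrt |((4 - p : ℤ) : ℝ)|)) := Finset.sum_le_sum hsplit
    _ = ∑ p ∈ S, (Int.gcd (s * (4 - s)) p : ℝ) / Real.sqrt |(p : ℝ)| +
      3 * ∑ p ∈ S, ((Int.gcd s (4 - p) : ℝ) / Real.sqrt |((4 - p : ℤ) : ℝ)|) := by
        rw [Finset.sum_add_distrib, Finset.mul_sum]
    _ ≤ 4 * τ * Real.sqrt (M : ℝ) + 3 * (4 * τ * (3 * Real.sqrt (M : ℝ))) := by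
        apply add_le_add
        · refine a1.trans ?_
          gcongr
        · apply mul_le_mul_of_nonneg_left _ (by norm_num)
          refine a2.trans ?_
          gcongr
    _ = 40 * τ * Real.sqrt (M : ℝ) := by ring

/-- the double sum -/
theorem double_sum (M : ℕ) (hM : 1 ≤ M) (τ : ℝ) (hτ1 : 1 ≤ τ)
    (hτ : ∀ n : ℕ, 0 < n → n ≤ M * (M + 4) → (n.divisors.card : ℝ) ≤ τ)
    (Q : Finset (ℤ × ℤ)) (hQ : ∀ x ∈ Q, x.1 ≠ 0 ∧ x.2 ≠ 0 ∧ x.1.natAbs ≤ M ∧ x.2.natAbs ≤ M) :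
    ∑ x ∈ Q, Real.sqrt (XX x.1 x.2 (4 - x.1 - x.2)) / Real.sqrt |(x.1 : ℝ) * x.2| ≤
      172 * τ * M := by
  classical
  have hM' : (1:ℝ) ≤ M := by exact_mod_cast hM
  set f : ℤ × ℤ → ℝ := fun x => Real.sqrt (XX x.1 x.2 (4 - x.1 - x.2)) / Real.sqrt |(x.1 : ℝ) * x.2|
    with hf
  have hf0 : ∀ x, 0 ≤ f x := fun x => by simp only [hf]; positivity
  set Q1 := Q.filter (fun x => x.1 = 4) with hQ1
  set Q2 := Q.filter (fun x => x.2 = 4) with hQ2
  set Q3 := Q.filter (fun x => x.1 ≠ 4 ∧ x.2 ≠ 4) with hQ3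
  have hcov : Q ⊆ Q1 ∪ (Q2 ∪ Q3) := by
    intro x hx
    simp only [hQ1, hQ2, hQ3, Finset.mem_union, Finset.mem_filter, hx, true_and]
    by_cases h1 : x.1 = 4
    · left; exact h1
    · by_cases h2 : x.2 = 4
      · right; left; exact h2
      · right; right; exact ⟨h1, h2⟩
  have hsumle : ∑ x ∈ Q, f x ≤ ∑ x ∈ Q1, f x + (∑ x ∈ Q2, f x + ∑ x ∈ Q3, f x) := by
    calc ∑ x ∈ Q, f x ≤ ∑ x ∈ Q1 ∪ (Q2 ∪ Q3), f x :=
          Finset.sum_le_sum_of_subset_of_nonneg hcov (fun x _ _ => hf0 x)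
      _ ≤ ∑ x ∈ Q1, f x + ∑ x ∈ Q2 ∪ Q3, f x := by
          rw [← Finset.sum_union_inter]
          linarith [Finset.sum_nonneg (fun x (_ : x ∈ Q1 ∩ (Q2 ∪ Q3)) => hf0 x)]
      _ ≤ _ := by
          have : ∑ x ∈ Q2 ∪ Q3, f x ≤ ∑ x ∈ Q2, f x + ∑ x ∈ Q3, f x := by
            rw [← Finset.sum_union_inter]
            linarith [Finset.sum_nonneg (fun x (_ : x ∈ Q2 ∩ Q3) => hf0 x)]
          linarith
  have hcardI : ((Icc (-(M:ℤ)) M).card : ℝ) ≤ 3 * M := by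
    rw [Int.card_Icc]
    have : ((M:ℤ) + 1 - -(M:ℤ)).toNat = 2 * M + 1 := by omega
    rw [this]; push_cast; linarith
  have b1 : ∑ x ∈ Q1, f x ≤ 6 * M := by
    have hle : ∀ x ∈ Q1, f x ≤ 2 := by
      intro x hx
      obtain ⟨h1, h2⟩ := Finset.mem_filter.1 hx
      simp only [hf]
      rw [h2]
      exact XX_diag x.2 (hQ x h1).2.1
    have hc : Q1.card ≤ (Icc (-(M:ℤ)) M).card := by
      apply Finset.card_le_card_of_injOn (fun x => x.2)
      · intro x hx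
        obtain ⟨h1, h2⟩ := Finset.mem_filter.1 (Finset.mem_coe.1 hx)
        have := (hQ x h1).2.2.2
        simp only [Finset.coe_Icc, Set.mem_Icc]
        omega
      · intro x hx y hy hxy
        obtain ⟨_, h2⟩ := Finset.mem_filter.1 (Finset.mem_coe.1 hx)
        obtain ⟨_, h3⟩ := Finset.mem_filter.1 (Finset.mem_coe.1 hy)
        exact Prod.ext (h2.trans h3.symm) hxy
    have hc' : (Q1.card : ℝ) ≤ 3 * M := le_trans (by exact_mod_cast hc) hcardI
    calc ∑ x ∈ Q1, f x ≤ ∑ _x ∈ Q1, (2:ℝ) := Finset.sum_le_sum hle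
      _ = Q1.card * 2 := by rw [Finset.sum_const, nsmul_eq_mul]
      _ ≤ 6 * M := by linarith
  have b2 : ∑ x ∈ Q2, f x ≤ 6 * M := by
    have hle : ∀ x ∈ Q2, f x ≤ 2 := by
      intro x hx
      obtain ⟨h1, h2⟩ := Finset.mem_filter.1 hx
      simp only [hf]
      rw [XX_swap, mul_comm, h2]
      exact XX_diag x.1 (hQ x h1).1
    have hc : Q2.card ≤ (Icc (-(M:ℤ)) M).card := by
      apply Finset.card_le_card_of_injOn (fun x => x.1)
      · intro x hx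
        obtain ⟨h1, h2⟩ := Finset.mem_filter.1 (Finset.mem_coe.1 hx)
        have := (hQ x h1).2.2.1
        simp only [Finset.coe_Icc, Set.mem_Icc]
        omega
      · intro x hx y hy hxy
        obtain ⟨_, h2⟩ := Finset.mem_filter.1 (Finset.mem_coe.1 hx)
        obtain ⟨_, h3⟩ := Finset.mem_filter.1 (Finset.mem_coe.1 hy)
        exact Prod.ext hxy (h2.trans h3.symm)
    have hc' : (Q2.card : ℝ) ≤ 3 * M := le_trans (by exact_mod_cast hc) hcardI
    calc ∑ x ∈ Q2, f x ≤ ∑ _x ∈ Q2, (2:ℝ) := Finset.sum_le_sum hle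
      _ = Q2.card * 2 := by rw [Finset.sum_const, nsmul_eq_mul]
      _ ≤ 6 * M := by linarith
  have b3 : ∑ x ∈ Q3, f x ≤ 160 * τ * M := by
    set A := Q3.image (fun x => x.1) with hA
    have hAmem : ∀ s ∈ A, s ≠ 0 ∧ s ≠ 4 ∧ s.natAbs ≤ M := by
      intro s hs
      obtain ⟨x, hx, rfl⟩ := Finset.mem_image.1 hs
      obtain ⟨h1, h2, h3⟩ := Finset.mem_filter.1 hx
      exact ⟨(hQ x h1).1, h2, (hQ x h1).2.2.1⟩
    rw [← Finset.sum_fiberwise_of_maps_to (s := Q3) (t := A) (g := fun x => x.1)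
      (fun x hx => Finset.mem_image_of_mem _ hx)]
    have hin : ∀ s ∈ A, ∑ x ∈ Q3.filter (fun x => x.1 = s), f x ≤
        (40 * τ * Real.sqrt (M : ℝ)) * ((Int.gcd 1 s : ℝ) / Real.sqrt |(s : ℝ)|) := by
      intro s hs
      obtain ⟨s0, s4, sM⟩ := hAmem s hs
      have hs4 : 4 - s ≠ 0 := by omega
      have key := inner_sum s s0 hs4 M hM τ (by
          apply hτ
          · exact Int.natAbs_pos.2 (mul_ne_zero s0 hs4)
          · rw [Int.natAbs_mul]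
            exact Nat.mul_le_mul sM (by omega)) (by
          apply hτ
          · exact Int.natAbs_pos.2 s0
          · nlinarith) ((Q3.filter (fun x => x.1 = s)).image (fun x => x.2)) (by
          intro p hp
          obtain ⟨x, hx, rfl⟩ := Finset.mem_image.1 hp
          obtain ⟨h1, h2⟩ := Finset.mem_filter.1 hx
          obtain ⟨h3, h4, h5⟩ := Finset.mem_filter.1 h1
          obtain ⟨k1, k2, k3, k4⟩ := hQ x h3
          exact ⟨k2, by omega, k4⟩)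
      rw [Finset.sum_image (by
        intro x hx y hy h
        obtain ⟨_, h2⟩ := Finset.mem_filter.1 (Finset.mem_coe.1 hx)
        obtain ⟨_, h3⟩ := Finset.mem_filter.1 (Finset.mem_coe.1 hy)
        exact Prod.ext (h2.trans h3.symm) h)] at key
      have e : ∀ x ∈ Q3.filter (fun x => x.1 = s), f x =
          (Real.sqrt (XX s x.2 (4 - s - x.2)) / Real.sqrt |(x.2 : ℝ)|) *
            (1 / Real.sqrt |(s : ℝ)|) := by
        intro x hx
        obtain ⟨_, h2⟩ := Finset.mem_filter.1 hx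
        simp only [hf]
        rw [h2, abs_mul, Real.sqrt_mul (abs_nonneg _), div_mul_div_comm, mul_one, mul_comm
          (Real.sqrt |(s : ℝ)|)]
      rw [Finset.sum_congr rfl e, ← Finset.sum_mul]
      have e1 : (Int.gcd 1 s : ℝ) = 1 := by
        have : Int.gcd 1 s = 1 := Int.one_gcd
        rw [this]; norm_num
      rw [e1]
      exact mul_le_mul_of_nonneg_right key (by positivity)
    refine (Finset.sum_le_sum hin).trans ?_
    rw [← Finset.mul_sum]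
    have h1 := gcd_sum_int 1 one_ne_zero M A (fun p hp => ⟨(hAmem p hp).1, (hAmem p hp).2.2⟩)
    have e2 : ((1:ℤ).natAbs.divisors.card : ℝ) = 1 := by
      simp
    rw [e2] at h1
    calc (40 * τ * Real.sqrt (M : ℝ)) * ∑ p ∈ A, (Int.gcd 1 p : ℝ) / Real.sqrt |(p : ℝ)|
        ≤ (40 * τ * Real.sqrt (M : ℝ)) * (4 * 1 * Real.sqrt (M : ℝ)) := by
          apply mul_le_mul_of_nonneg_left h1 (by positivity)
      _ = 160 * τ * (Real.sqrt (M : ℝ) * Real.sqrt (M : ℝ)) := by ring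
      _ = 160 * τ * M := by rw [Real.mul_self_sqrt (by positivity)]
  have : (12:ℝ) * M ≤ 12 * τ * M := by nlinarith
  linarith

/-- the sum over the determinant triples -/
theorem triple_sum (M : ℕ) (hM : 1 ≤ M) (τ : ℝ) (hτ1 : 1 ≤ τ)
    (hτ : ∀ n : ℕ, 0 < n → n ≤ M * (M + 4) → (n.divisors.card : ℝ) ≤ τ)
    (Q : Finset (Fin 3 → ℤ)) (hQ : ∀ s ∈ Q, s 0 + s 1 + s 2 = 4 ∧ ∀ i, s i ≠ 0 ∧ (s i).natAbs ≤ M) :
    ∑ s ∈ Q, Real.sqrt (XX (s 0) (s 1) (s 2)) * PP (s 0) (s 1) (s 2) ≤ 516 * τ * M := by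
  classical
  have gen : ∀ i j k : Fin 3, (∀ l : Fin 3, l = i ∨ l = j ∨ l = k) →
      (∀ s : Fin 3 → ℤ, s 0 + s 1 + s 2 = s i + s j + s k) →
      (∀ s : Fin 3 → ℤ, XX (s 0) (s 1) (s 2) = XX (s i) (s j) (s k)) →
      ∑ s ∈ Q, Real.sqrt (XX (s 0) (s 1) (s 2)) * (1 / Real.sqrt |(s i : ℝ) * s j|) ≤
        172 * τ * M := by
    intro i j k hcov hsum hXX
    have key := double_sum M hM τ hτ1 hτ (Q.image (fun s => (s i, s j))) (by
      intro x hx
      obtain ⟨s, hs, rfl⟩ := Finset.mem_image.1 hx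
      obtain ⟨_, h⟩ := hQ s hs
      exact ⟨(h i).1, (h j).1, (h i).2, (h j).2⟩)
    rw [Finset.sum_image (by
      intro s hs s' hs' h
      obtain ⟨h1, h2⟩ := Prod.mk.inj h
      have e1 := (hQ s (Finset.mem_coe.1 hs)).1
      have e2 := (hQ s' (Finset.mem_coe.1 hs')).1
      rw [hsum] at e1 e2
      funext l
      rcases hcov l with h | h | h
      · rw [h]; exact h1
      · rw [h]; exact h2
      · rw [h]; linarith)] at key
    refine le_trans (le_of_eq ?_) key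
    apply Finset.sum_congr rfl
    intro s hs
    have e1 := (hQ s hs).1
    rw [hsum] at e1
    have e2 : 4 - s i - s j = s k := by linarith
    rw [hXX, e2]
    ring
  have h01 := gen 0 1 2 (by decide) (fun s => rfl) (fun s => rfl)
  have h02 := gen 0 2 1 (by decide) (fun s => by ring) (fun s => by
    rw [XX, XX, Int.gcd_comm (s 2) (s 1)]; ring)
  have h12 := gen 1 2 0 (by decide) (fun s => by ring) (fun s => by
    rw [XX, XX, Int.gcd_comm (s 1) (s 0), Int.gcd_comm (s 2) (s 0)]; ring)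
  have e : ∀ s ∈ Q, Real.sqrt (XX (s 0) (s 1) (s 2)) * PP (s 0) (s 1) (s 2) =
      Real.sqrt (XX (s 0) (s 1) (s 2)) * (1 / Real.sqrt |(s 0 : ℝ) * s 1|) +
      Real.sqrt (XX (s 0) (s 1) (s 2)) * (1 / Real.sqrt |(s 0 : ℝ) * s 2|) +
      Real.sqrt (XX (s 0) (s 1) (s 2)) * (1 / Real.sqrt |(s 1 : ℝ) * s 2|) := by
    intro s _
    rw [PP]; ring
  rw [Finset.sum_congr rfl e, Finset.sum_add_distrib, Finset.sum_add_distrib]
  linarith

end Pool.Agent.E8helper43.SL
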