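import Pool.Agent.E8helper43.SL.Good
import Pool.Agent.E8helper43.SL.SumS
import Pool.Agent.E8helper43.SL.Sec

set_option autoImplicit false
set_option maxHeartbeats 4000000

namespace Pool.Agent.E8helper43.SL

open Finset

/-- integer two by two matrices -/
abbrev M2 := Fin 2 → Fin 2 → ℤ

/-- determinant one and entries at most `R` -/
def InB (R : ℕ) (m : M2) : Prop :=
  m 0 0 * m 1 1 - m 0 1 * m 1 0 = 1 ∧ ∀ i j, (m i j).natAbs ≤ R

theorem m2_ext {m m' : M2} (h00 : m 0 0 = m' 0 0) (h01 : m 0 1 = m' 0 1) (h10 : m 1 0 = m' 1 0)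
    (h11 : m 1 1 = m' 1 1) : m = m' := by
  funext i j
  fin_cases i <;> fin_cases j
  · exact h00
  · exact h01
  · exact h10
  · exact h11

theorem deg_count (R T : ℕ) (hR : 1 ≤ R) (hT : 1 ≤ T)
    (hTd : ∀ n : ℕ, 0 < n → n ≤ 16 * R ^ 4 → n.divisors.card ≤ T)
    (S : Finset (M2 × M2 × M2))
    (hS : ∀ x ∈ S, InB R x.1 ∧ InB R x.2.1 ∧ InB R x.2.2 ∧ InB R (-x.1 - x.2.1 - x.2.2))
    (hdeg : ∀ x ∈ S, (x.1 0 0 + x.2.1 0 0) * (x.1 1 1 + x.2.1 1 1) -
      (x.1 0 1 + x.2.1 0 1) * (x.1 1 0 + x.2.1 1 0) = 0) :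
    S.card ≤ 20412 * T ^ 3 * R ^ 4 := by
  classical
  have hTd1 : ∀ n : ℕ, 0 < n → n ≤ 4 * R ^ 2 * R ^ 2 → n.divisors.card ≤ T := by
    intro n h1 h2
    apply hTd n h1
    have : R ^ 2 * R ^ 2 = R ^ 4 := by ring
    nlinarith [Nat.zero_le (R ^ 4)]
  have hTd2 : ∀ n : ℕ, 0 < n → n ≤ 4 * (2 * R) ^ 2 * R ^ 2 → n.divisors.card ≤ T := by
    intro n h1 h2
    apply hTd n h1
    have : 4 * (2 * R) ^ 2 * R ^ 2 = 16 * R ^ 4 := by ring
    omega
  set S1 := S.filter (fun x => ¬ (x.1 + x.2.1 = 0)) with hS1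
  set S2 := S.filter (fun x => x.1 + x.2.1 = 0) with hS2
  have hsplit : S2.card + S1.card = S.card := Finset.card_filter_add_card_filter_not _
  have hball : ∀ (S' : Finset (M2 × M2 × M2)) (f : M2 × M2 × M2 → M2),
      (∀ x ∈ S', InB R (f x)) → (S'.image f).card ≤ 54 * T * R ^ 2 := by
    intro S' f hf
    refine ball_count (S'.image f) (fun m => m 0 0) (fun m => m 0 1) (fun m => m 1 0)
      (fun m => m 1 1) (fun x _ y _ h1 h2 h3 h4 => m2_ext h1 h2 h3 h4) ?_ R T hR hT ?_ ?_ ?_ ?_ hTd1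
    all_goals
      intro m hm
      obtain ⟨x, hx, rfl⟩ := Finset.mem_image.1 hm
      first
        | exact (hf x hx).1
        | exact (hf x hx).2 _ _
  have c2 : S2.card ≤ (54 * T * R ^ 2) * (54 * T * R ^ 2) := by
    have hinj : Set.InjOn (fun x : M2 × M2 × M2 => (x.1, x.2.2)) S2 := by
      intro x hx y hy hxy
      obtain ⟨_, h1⟩ := Finset.mem_filter.1 (Finset.mem_coe.1 hx)
      obtain ⟨_, h2⟩ := Finset.mem_filter.1 (Finset.mem_coe.1 hy)
      obtain ⟨h3, h4⟩ := Prod.mk.inj hxy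
      refine Prod.ext h3 (Prod.ext ?_ h4)
      have e1 : x.2.1 = -x.1 := (neg_eq_of_add_eq_zero_right h1).symm
      have e2 : y.2.1 = -y.1 := (neg_eq_of_add_eq_zero_right h2).symm
      rw [e1, e2, h3]
    rw [← Finset.card_image_of_injOn hinj]
    have hsub : S2.image (fun x : M2 × M2 × M2 => (x.1, x.2.2)) ⊆
        (S2.image (fun x => x.1)) ×ˢ (S2.image (fun x => x.2.2)) := by
      intro y hy
      obtain ⟨x, hx, rfl⟩ := Finset.mem_image.1 hy
      rw [Finset.mem_product]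
      exact ⟨Finset.mem_image_of_mem _ hx, Finset.mem_image_of_mem (fun x : M2 × M2 × M2 => x.2.2) hx⟩
    refine (Finset.card_le_card hsub).trans ?_
    rw [Finset.card_product]
    exact Nat.mul_le_mul (hball S2 _ (fun x hx => (hS x (Finset.mem_filter.1 hx).1).1))
      (hball S2 _ (fun x hx => (hS x (Finset.mem_filter.1 hx).1).2.2.1))
  have c1 : S1.card ≤ (18 * T * R) * ((18 * T * R) * (54 * T * R ^ 2)) := by
    have k1 : S1.card ≤ (18 * T * R) * (S1.image (fun x => (x.1, x.2.1))).card := by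
      apply Finset.card_le_mul_card_image
      intro y hy
      obtain ⟨x0, hx0, rfl⟩ := Finset.mem_image.1 hy
      obtain ⟨hx0S, hx0n⟩ := Finset.mem_filter.1 hx0
      have hm : ∀ x ∈ S1.filter (fun x => (x.1, x.2.1) = (x0.1, x0.2.1)),
          x ∈ S ∧ x.1 = x0.1 ∧ x.2.1 = x0.2.1 := by
        intro x hx
        obtain ⟨a1, a2⟩ := Finset.mem_filter.1 hx
        obtain ⟨a3, a4⟩ := Finset.mem_filter.1 a1
        exact ⟨a3, (Prod.mk.inj a2).1, (Prod.mk.inj a2).2⟩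
      have hb1 := (hS x0 hx0S).1.2
      have hb2 := (hS x0 hx0S).2.1.2
      refine sec _ (fun x => x.2.2 0 0) (fun x => x.2.2 0 1) (fun x => x.2.2 1 0)
        (fun x => x.2.2 1 1) ?_ ?_ R (2 * R) T hR (by omega) hT ?_ ?_ ?_ ?_
        (x0.1 0 0 + x0.2.1 0 0) (x0.1 0 1 + x0.2.1 0 1) (x0.1 1 0 + x0.2.1 1 0)
        (x0.1 1 1 + x0.2.1 1 1) 0 ?_ ?_ ?_ ?_ ?_ (by simp) ?_ hTd2
      · intro x hx y hy h1 h2 h3 h4
        obtain ⟨_, a1, a2⟩ := hm x hx
        obtain ⟨_, b1, b2⟩ := hm y hy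
        exact Prod.ext (a1.trans b1.symm) (Prod.ext (a2.trans b2.symm) (m2_ext h1 h2 h3 h4))
      · intro x hx; exact (hS x (hm x hx).1).2.2.1.1
      · intro x hx; exact (hS x (hm x hx).1).2.2.1.2 _ _
      · intro x hx; exact (hS x (hm x hx).1).2.2.1.2 _ _
      · intro x hx; exact (hS x (hm x hx).1).2.2.1.2 _ _
      · intro x hx; exact (hS x (hm x hx).1).2.2.1.2 _ _
      · rintro ⟨h1, h2, h3, h4⟩
        exact hx0n (m2_ext h1 h2 h3 h4)
      · have := hb1 0 0; have := hb2 0 0; omega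
      · have := hb1 0 1; have := hb2 0 1; omega
      · have := hb1 1 0; have := hb2 1 0; omega
      · have := hb1 1 1; have := hb2 1 1; omega
      · intro x hx
        obtain ⟨a0, a1, a2⟩ := hm x hx
        have d3 := (hS x a0).2.2.1.1
        have d4 := (hS x a0).2.2.2.1
        have dd := hdeg x0 hx0S
        simp only [Pi.sub_apply, Pi.neg_apply] at d4
        rw [a1, a2] at d4
        linear_combination d4 - d3 - dd
    have k2 : (S1.image (fun x => (x.1, x.2.1))).card ≤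
        (18 * T * R) * ((S1.image (fun x => (x.1, x.2.1))).image (fun y => y.1)).card := by
      apply Finset.card_le_mul_card_image
      intro y hy
      obtain ⟨z0, hz0, rfl⟩ := Finset.mem_image.1 hy
      obtain ⟨x0, hx0, rfl⟩ := Finset.mem_image.1 hz0
      obtain ⟨hx0S, hx0n⟩ := Finset.mem_filter.1 hx0
      have hm : ∀ z ∈ (S1.image (fun x => (x.1, x.2.1))).filter (fun y => y.1 = (x0.1, x0.2.1).1),
          z.1 = x0.1 ∧ InB R z.2 ∧ (x0.1 0 0 + z.2 0 0) * (x0.1 1 1 + z.2 1 1) -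
      (x0.1 0 1 + z.2 0 1) * (x0.1 1 0 + z.2 1 0) = 0 := by
        intro z hz
        obtain ⟨a1, a2⟩ := Finset.mem_filter.1 hz
        obtain ⟨x, hx, rfl⟩ := Finset.mem_image.1 a1
        obtain ⟨a3, a4⟩ := Finset.mem_filter.1 hx
        have a2' : x.1 = x0.1 := a2
        refine ⟨a2', (hS x a3).2.1, ?_⟩
        have := hdeg x a3
        rw [a2'] at this
        exact this
      have hb1 := (hS x0 hx0S).1.2
      have hd1 := (hS x0 hx0S).1.1
      refine sec _ (fun z => z.2 0 0) (fun z => z.2 0 1) (fun z => z.2 1 0)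
        (fun z => z.2 1 1) ?_ ?_ R (2 * R) T hR (by omega) hT ?_ ?_ ?_ ?_
        (x0.1 0 0) (x0.1 0 1) (x0.1 1 0) (x0.1 1 1) (-2) ?_ ?_ ?_ ?_ ?_ ?_ ?_ hTd2
      · intro x hx y hy h1 h2 h3 h4
        exact Prod.ext ((hm x hx).1.trans (hm y hy).1.symm) (m2_ext h1 h2 h3 h4)
      · intro x hx; exact (hm x hx).2.1.1
      · intro x hx; exact (hm x hx).2.1.2 _ _
      · intro x hx; exact (hm x hx).2.1.2 _ _
      · intro x hx; exact (hm x hx).2.1.2 _ _
      · intro x hx; exact (hm x hx).2.1.2 _ _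
      · rintro ⟨h1, h2, h3, h4⟩
        rw [h1, h2] at hd1
        norm_num at hd1
      · have := hb1 0 0; omega
      · have := hb1 0 1; omega
      · have := hb1 1 0; omega
      · have := hb1 1 1; omega
      · simp only [Int.natAbs_neg]
        have : (2:ℤ).natAbs = 2 := rfl
        omega
      · intro z hz
        obtain ⟨a1, a2, a3⟩ := hm z hz
        linear_combination a3 - hd1 - a2.1
    have k3 : ((S1.image (fun x => (x.1, x.2.1))).image (fun y => y.1)).card ≤ 54 * T * R ^ 2 := by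
      rw [Finset.image_image]
      exact hball S1 _ (fun x hx => (hS x (Finset.mem_filter.1 hx).1).1)
    calc S1.card ≤ _ := k1
      _ ≤ (18 * T * R) * ((18 * T * R) *
          ((S1.image (fun x => (x.1, x.2.1))).image (fun y => y.1)).card) :=
          Nat.mul_le_mul_left _ k2
      _ ≤ _ := Nat.mul_le_mul_left _ (Nat.mul_le_mul_left _ k3)
  have hT3 : T ^ 2 ≤ T ^ 3 := Nat.pow_le_pow_right hT (by norm_num)
  calc S.card = S2.card + S1.card := hsplit.symm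
    _ ≤ (54 * T * R ^ 2) * (54 * T * R ^ 2) + (18 * T * R) * ((18 * T * R) * (54 * T * R ^ 2)) :=
        add_le_add c2 c1
    _ = 2916 * (T ^ 2 * R ^ 4) + 17496 * (T ^ 3 * R ^ 4) := by ring
    _ ≤ 2916 * (T ^ 3 * R ^ 4) + 17496 * (T ^ 3 * R ^ 4) := by gcongr
    _ = 20412 * T ^ 3 * R ^ 4 := by ring

/-- the frame of a quadruple with zero sum -/
theorem quad_frame (p1 p2 p3 q1 q2 q3 r1 r2 r3 t1 t2 t3 : ℤ) (h1 : p1 * t1 - q1 * r1 = 1)
    (h2 : p2 * t2 - q2 * r2 = 1) (h3 : p3 * t3 - q3 * r3 = 1)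
    (h4 : (-p1 - p2 - p3) * (-t1 - t2 - t3) - (-q1 - q2 - q3) * (-r1 - r2 - r3) = 1) :
    Frame ![p1 + p2, p1 + p3, -p2 - p3] ![q1 + q2, q1 + q3, -q2 - q3]
      ![r1 + r2, r1 + r3, -r2 - r3] ![t1 + t2, t1 + t3, -t2 - t3]
      ![(p1 + p2) * (t1 + t2) - (q1 + q2) * (r1 + r2),
        (p1 + p3) * (t1 + t3) - (q1 + q3) * (r1 + r3),
        (-p2 - p3) * (-t2 - t3) - (-q2 - q3) * (-r2 - r3)] := by
  have o01 : (p1 + p2) * (t1 + t3) + (p1 + p3) * (t1 + t2) - (q1 + q2) * (r1 + r3) -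
      (q1 + q3) * (r1 + r2) = 0 := by linear_combination h4 + h1 - h2 - h3
  have o02 : (p1 + p2) * (-t2 - t3) + (-p2 - p3) * (t1 + t2) - (q1 + q2) * (-r2 - r3) -
      (-q2 - q3) * (r1 + r2) = 0 := by linear_combination (-1) * h4 + h1 - h2 + h3
  have o12 : (p1 + p3) * (-t2 - t3) + (-p2 - p3) * (t1 + t3) - (q1 + q3) * (-r2 - r3) -
      (-q2 - q3) * (r1 + r3) = 0 := by linear_combination (-1) * h4 + h1 + h2 - h3
  refine ⟨?_, ?_, p1, q1, r1, t1, h1, ?_, ?_, ?_, ?_⟩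
  · apply fin3_cases <;> rfl
  · intro i j hij
    fin_cases i <;> fin_cases j
    · exact absurd rfl hij
    · show (p1 + p2) * (t1 + t3) + (p1 + p3) * (t1 + t2) - (q1 + q2) * (r1 + r3) -
        (q1 + q3) * (r1 + r2) = 0
      exact o01
    · show (p1 + p2) * (-t2 - t3) + (-p2 - p3) * (t1 + t2) - (q1 + q2) * (-r2 - r3) -
        (-q2 - q3) * (r1 + r2) = 0
      exact o02
    · show (p1 + p3) * (t1 + t2) + (p1 + p2) * (t1 + t3) - (q1 + q3) * (r1 + r2) -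
        (q1 + q2) * (r1 + r3) = 0
      linear_combination o01
    · exact absurd rfl hij
    · show (p1 + p3) * (-t2 - t3) + (-p2 - p3) * (t1 + t3) - (q1 + q3) * (-r2 - r3) -
        (-q2 - q3) * (r1 + r3) = 0
      exact o12
    · show (-p2 - p3) * (t1 + t2) + (p1 + p2) * (-t2 - t3) - (-q2 - q3) * (r1 + r2) -
        (q1 + q2) * (-r2 - r3) = 0
      linear_combination o02
    · show (-p2 - p3) * (t1 + t3) + (p1 + p3) * (-t2 - t3) - (-q2 - q3) * (r1 + r3) -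
        (q1 + q3) * (-r2 - r3) = 0
      linear_combination o12
    · exact absurd rfl hij
  · show (p1 + p2) + (p1 + p3) + (-p2 - p3) = 2 * p1
    ring
  · show (q1 + q2) + (q1 + q3) + (-q2 - q3) = 2 * q1
    ring
  · show (r1 + r2) + (r1 + r3) + (-r2 - r3) = 2 * r1
    ring
  · show (t1 + t2) + (t1 + t3) + (-t2 - t3) = 2 * t1
    ring

/-- frame data of a triple -/
def phi (x : M2 × M2 × M2) : F4 :=
  (![x.1 0 0 + x.2.1 0 0, x.1 0 0 + x.2.2 0 0, -x.2.1 0 0 - x.2.2 0 0],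
   ![x.1 1 0 + x.2.1 1 0, x.1 1 0 + x.2.2 1 0, -x.2.1 1 0 - x.2.2 1 0],
   ![x.1 0 1 + x.2.1 0 1, x.1 0 1 + x.2.2 0 1, -x.2.1 0 1 - x.2.2 0 1],
   ![x.1 1 1 + x.2.1 1 1, x.1 1 1 + x.2.2 1 1, -x.2.1 1 1 - x.2.2 1 1])

/-- determinants of a triple -/
def sg (x : M2 × M2 × M2) : Fin 3 → ℤ :=
  ![(x.1 0 0 + x.2.1 0 0) * (x.1 1 1 + x.2.1 1 1) - (x.1 0 1 + x.2.1 0 1) * (x.1 1 0 + x.2.1 1 0),
    (x.1 0 0 + x.2.2 0 0) * (x.1 1 1 + x.2.2 1 1) - (x.1 0 1 + x.2.2 0 1) * (x.1 1 0 + x.2.2 1 0),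
    (-x.2.1 0 0 - x.2.2 0 0) * (-x.2.1 1 1 - x.2.2 1 1) -
      (-x.2.1 0 1 - x.2.2 0 1) * (-x.2.1 1 0 - x.2.2 1 0)]

theorem phi_inj : Function.Injective phi := by
  intro x y h
  simp only [phi, Prod.mk.injEq] at h
  obtain ⟨h1, h2, h3, h4⟩ := h
  have e := fun i => congrFun h1 i
  have f := fun i => congrFun h2 i
  have g := fun i => congrFun h3 i
  have k := fun i => congrFun h4 i
  have e0 := e 0; have e1 := e 1; have e2 := e 2
  have f0 := f 0; have f1 := f 1; have f2 := f 2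
  have g0 := g 0; have g1 := g 1; have g2 := g 2
  have k0 := k 0; have k1 := k 1; have k2 := k 2
  simp at e0 e1 e2 f0 f1 f2 g0 g1 g2 k0 k1 k2
  refine Prod.ext (m2_ext ?_ ?_ ?_ ?_) (Prod.ext (m2_ext ?_ ?_ ?_ ?_) (m2_ext ?_ ?_ ?_ ?_)) <;>
    linarith

theorem norm_le_of_natAbs (w : Fin 3 → ℤ) (n : ℕ) (h : ∀ i, (w i).natAbs ≤ n) : ‖w‖ ≤ n := by
  obtain ⟨i, hi, -⟩ := exists_norm_eq w
  rw [hi]
  have := absN (h i)
  exact_mod_cast this

/-- the main count of zero-sum quadruples -/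
theorem triple_count (K : ℕ) (hK : 3 ≤ K) (R T : ℕ) (hR : 1 ≤ R) (hT : 1 ≤ T)
    (hTd : ∀ n : ℕ, 0 < n → n ≤ 1024 * R ^ 6 → n.divisors.card ≤ T)
    (S : Finset (M2 × M2 × M2))
    (hS : ∀ x ∈ S, InB R x.1 ∧ InB R x.2.1 ∧ InB R x.2.2 ∧ InB R (-x.1 - x.2.1 - x.2.2)) :
    (S.card : ℝ) ≤ 61236 * T ^ 3 * R ^ 4 + (K + 1) * (2808 * T ^ 8 * ((K + 1) * (2 * R)) ^ 2 *
      (Nat.log 2 ⌊2 * ((K + 1) * (2 * (R:ℝ))) ^ 2⌋₊ + 1) *
      ((24 + 224 * (K:ℝ) ^ 3 * (K.factorial : ℝ) ^ 3 *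
        ((1024 * R ^ 6 : ℕ) : ℝ) ^ ((2:ℝ) / (K - 2))) * (516 * T * (8 * R ^ 2)))) := by
  classical
  have hR4 : 16 * R ^ 4 ≤ 1024 * R ^ 6 := by
    have : R ^ 4 ≤ R ^ 6 := Nat.pow_le_pow_right hR (by norm_num)
    omega
  have hTd4 : ∀ n : ℕ, 0 < n → n ≤ 16 * R ^ 4 → n.divisors.card ≤ T :=
    fun n h1 h2 => hTd n h1 (h2.trans hR4)
  set D1 := S.filter (fun x => sg x 0 = 0) with hD1
  set D2 := S.filter (fun x => sg x 1 = 0) with hD2
  set D3 := S.filter (fun x => sg x 2 = 0) with hD3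
  set Nd := S.filter (fun x => ∀ i, sg x i ≠ 0) with hNd
  have hcov : S ⊆ D1 ∪ (D2 ∪ (D3 ∪ Nd)) := by
    intro x hx
    simp only [hD1, hD2, hD3, hNd, Finset.mem_union, Finset.mem_filter, hx, true_and]
    by_cases h0 : sg x 0 = 0
    · left; exact h0
    · by_cases h1 : sg x 1 = 0
      · right; left; exact h1
      · by_cases h2 : sg x 2 = 0
        · right; right; left; exact h2
        · right; right; right; exact fin3_cases _ h0 h1 h2
  have hc : S.card ≤ D1.card + (D2.card + (D3.card + Nd.card)) := by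
    refine (Finset.card_le_card hcov).trans ((Finset.card_union_le _ _).trans ?_)
    gcongr
    refine (Finset.card_union_le _ _).trans ?_
    gcongr
    exact Finset.card_union_le _ _
  have c1 : D1.card ≤ 20412 * T ^ 3 * R ^ 4 := by
    apply deg_count R T hR hT hTd4 D1 (fun x hx => hS x (Finset.mem_filter.1 hx).1)
    intro x hx
    exact (Finset.mem_filter.1 hx).2
  have c2 : D2.card ≤ 20412 * T ^ 3 * R ^ 4 := by
    have hinj : Function.Injective (fun x : M2 × M2 × M2 => (x.1, x.2.2, x.2.1)) := by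
      intro x y h
      simp only [Prod.mk.injEq] at h
      exact Prod.ext h.1 (Prod.ext h.2.2 h.2.1)
    rw [← Finset.card_image_of_injective D2 hinj]
    apply deg_count R T hR hT hTd4
    · intro y hy
      obtain ⟨x, hx, rfl⟩ := Finset.mem_image.1 hy
      obtain ⟨a1, a2, a3, a4⟩ := hS x (Finset.mem_filter.1 hx).1
      refine ⟨a1, a3, a2, ?_⟩
      have e : -x.1 - x.2.2 - x.2.1 = -x.1 - x.2.1 - x.2.2 := by abel
      show InB R (-x.1 - x.2.2 - x.2.1)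
      rw [e]; exact a4
    · intro y hy
      obtain ⟨x, hx, rfl⟩ := Finset.mem_image.1 hy
      exact (Finset.mem_filter.1 hx).2
  have c3 : D3.card ≤ 20412 * T ^ 3 * R ^ 4 := by
    have hinj : Function.Injective (fun x : M2 × M2 × M2 => (x.2.1, x.2.2, x.1)) := by
      intro x y h
      simp only [Prod.mk.injEq] at h
      exact Prod.ext h.2.2 (Prod.ext h.1 h.2.1)
    rw [← Finset.card_image_of_injective D3 hinj]
    apply deg_count R T hR hT hTd4
    · intro y hy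
      obtain ⟨x, hx, rfl⟩ := Finset.mem_image.1 hy
      obtain ⟨a1, a2, a3, a4⟩ := hS x (Finset.mem_filter.1 hx).1
      refine ⟨a2, a3, a1, ?_⟩
      have e : -x.2.1 - x.2.2 - x.1 = -x.1 - x.2.1 - x.2.2 := by abel
      show InB R (-x.2.1 - x.2.2 - x.1)
      rw [e]; exact a4
    · intro y hy
      obtain ⟨x, hx, rfl⟩ := Finset.mem_image.1 hy
      have h : (-x.2.1 0 0 - x.2.2 0 0) * (-x.2.1 1 1 - x.2.2 1 1) -
        (-x.2.1 0 1 - x.2.2 0 1) * (-x.2.1 1 0 - x.2.2 1 0) = 0 := (Finset.mem_filter.1 hx).2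
      show (x.2.1 0 0 + x.2.2 0 0) * (x.2.1 1 1 + x.2.2 1 1) -
        (x.2.1 0 1 + x.2.2 0 1) * (x.2.1 1 0 + x.2.2 1 0) = 0
      linarith
  -- the nondegenerate part
  set E : ℝ := ((1024 * R ^ 6 : ℕ) : ℝ) ^ ((2:ℝ) / (K - 2)) with hE
  set Cst : ℝ := (K + 1) * (2808 * (T:ℝ) ^ 8 * ((K + 1) * (2 * R)) ^ 2 *
      (Nat.log 2 ⌊2 * ((K + 1) * (2 * (R:ℝ))) ^ 2⌋₊ + 1) *
      (24 + 224 * (K:ℝ) ^ 3 * (K.factorial : ℝ) ^ 3 * E)) with hCst
  have hCst0 : 0 ≤ Cst := by positivity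
  have hfr : ∀ x ∈ Nd, Frame (phi x).1 (phi x).2.2.1 (phi x).2.1 (phi x).2.2.2 (sg x) := by
    intro x hx
    obtain ⟨a1, a2, a3, a4⟩ := hS x (Finset.mem_filter.1 hx).1
    exact quad_frame _ _ _ _ _ _ _ _ _ _ _ _ a1.1 a2.1 a3.1 a4.1
  have hent : ∀ x ∈ Nd, (∀ i, ((phi x).1 i).natAbs ≤ 2 * R) ∧ (∀ i, ((phi x).2.1 i).natAbs ≤ 2 * R) ∧
      (∀ i, ((phi x).2.2.1 i).natAbs ≤ 2 * R) ∧ (∀ i, ((phi x).2.2.2 i).natAbs ≤ 2 * R) := by
    intro x hx
    obtain ⟨a1, a2, a3, a4⟩ := hS x (Finset.mem_filter.1 hx).1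
    have b1 := a1.2; have b2 := a2.2; have b3 := a3.2
    refine ⟨?_, ?_, ?_, ?_⟩
    · apply fin3_cases
      · show (x.1 0 0 + x.2.1 0 0).natAbs ≤ 2 * R
        have := b1 0 0; have := b2 0 0; omega
      · show (x.1 0 0 + x.2.2 0 0).natAbs ≤ 2 * R
        have := b1 0 0; have := b3 0 0; omega
      · show (-x.2.1 0 0 - x.2.2 0 0).natAbs ≤ 2 * R
        have := b2 0 0; have := b3 0 0; omega
    · apply fin3_cases
      · show (x.1 1 0 + x.2.1 1 0).natAbs ≤ 2 * R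
        have := b1 1 0; have := b2 1 0; omega
      · show (x.1 1 0 + x.2.2 1 0).natAbs ≤ 2 * R
        have := b1 1 0; have := b3 1 0; omega
      · show (-x.2.1 1 0 - x.2.2 1 0).natAbs ≤ 2 * R
        have := b2 1 0; have := b3 1 0; omega
    · apply fin3_cases
      · show (x.1 0 1 + x.2.1 0 1).natAbs ≤ 2 * R
        have := b1 0 1; have := b2 0 1; omega
      · show (x.1 0 1 + x.2.2 0 1).natAbs ≤ 2 * R
        have := b1 0 1; have := b3 0 1; omega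
      · show (-x.2.1 0 1 - x.2.2 0 1).natAbs ≤ 2 * R
        have := b2 0 1; have := b3 0 1; omega
    · apply fin3_cases
      · show (x.1 1 1 + x.2.1 1 1).natAbs ≤ 2 * R
        have := b1 1 1; have := b2 1 1; omega
      · show (x.1 1 1 + x.2.2 1 1).natAbs ≤ 2 * R
        have := b1 1 1; have := b3 1 1; omega
      · show (-x.2.1 1 1 - x.2.2 1 1).natAbs ≤ 2 * R
        have := b2 1 1; have := b3 1 1; omega
  have hsM : ∀ x ∈ Nd, ∀ i, (sg x i).natAbs ≤ 8 * R ^ 2 := by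
    intro x hx i
    obtain ⟨u1, u2, u3, u4⟩ := hent x hx
    rw [← (hfr x hx).hs i]
    have v1 := absN (u1 i); have v2 := absN (u2 i); have v3 := absN (u3 i); have v4 := absN (u4 i)
    have key : |(phi x).1 i * (phi x).2.2.2 i - (phi x).2.2.1 i * (phi x).2.1 i| ≤ 8 * (R:ℤ) ^ 2 := by
      calc |(phi x).1 i * (phi x).2.2.2 i - (phi x).2.2.1 i * (phi x).2.1 i|
          ≤ |(phi x).1 i * (phi x).2.2.2 i| + |(phi x).2.2.1 i * (phi x).2.1 i| := abs_sub _ _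
        _ ≤ ((2 * R : ℕ) : ℤ) * ((2 * R : ℕ) : ℤ) + ((2 * R : ℕ) : ℤ) * ((2 * R : ℕ) : ℤ) := by
            rw [abs_mul, abs_mul]
            exact add_le_add (mul_le_mul v1 v4 (abs_nonneg _) (by positivity))
              (mul_le_mul v3 v2 (abs_nonneg _) (by positivity))
        _ = 8 * (R:ℤ) ^ 2 := by push_cast; ring
    have : (((phi x).1 i * (phi x).2.2.2 i - (phi x).2.2.1 i * (phi x).2.1 i).natAbs : ℤ) ≤
        ((8 * R ^ 2 : ℕ) : ℤ) := by
      rw [Int.natCast_natAbs]; push_cast; exact key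
    exact_mod_cast this
  have hsne : ∀ x ∈ Nd, ∀ i, sg x i ≠ 0 := fun x hx => (Finset.mem_filter.1 hx).2
  have hssum : ∀ x ∈ Nd, sg x 0 + sg x 1 + sg x 2 = 4 := by
    intro x hx
    obtain ⟨a1, a2, a3, a4⟩ := hS x (Finset.mem_filter.1 hx).1
    have b1 := a1.1; have b2 := a2.1; have b3 := a3.1; have b4 := a4.1
    simp only [Pi.sub_apply, Pi.neg_apply] at b4
    show ((x.1 0 0 + x.2.1 0 0) * (x.1 1 1 + x.2.1 1 1) -
      (x.1 0 1 + x.2.1 0 1) * (x.1 1 0 + x.2.1 1 0)) +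
      ((x.1 0 0 + x.2.2 0 0) * (x.1 1 1 + x.2.2 1 1) -
      (x.1 0 1 + x.2.2 0 1) * (x.1 1 0 + x.2.2 1 0)) +
      ((-x.2.1 0 0 - x.2.2 0 0) * (-x.2.1 1 1 - x.2.2 1 1) -
      (-x.2.1 0 1 - x.2.2 0 1) * (-x.2.1 1 0 - x.2.2 1 0)) = 4
    linear_combination b1 + b2 + b3 + b4
  set Q := Nd.image sg with hQ
  have hsum := Finset.card_eq_sum_card_fiberwise (f := sg) (s := Nd) (t := Q)
    (fun x hx => Finset.mem_image_of_mem _ hx)
  have hQm : ∀ s ∈ Q, (∀ i, s i ≠ 0) ∧ (∀ i, (s i).natAbs ≤ 8 * R ^ 2) ∧ s 0 + s 1 + s 2 = 4 := by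
    intro s hs
    obtain ⟨x, hx, rfl⟩ := Finset.mem_image.1 hs
    exact ⟨hsne x hx, hsM x hx, hssum x hx⟩
  have hfib : ∀ s ∈ Q, (((Nd.filter (fun x => sg x = s)).card : ℕ) : ℝ) ≤
      Cst * (Real.sqrt (XX (s 0) (s 1) (s 2)) * PP (s 0) (s 1) (s 2)) := by
    intro s hs
    obtain ⟨s1, s2, s3⟩ := hQm s hs
    rw [← Finset.card_image_of_injective _ phi_inj]
    have hΔ : (2 * (s 0 * s 1 * s 2)).natAbs ≤ 1024 * R ^ 6 := by
      rw [Int.natAbs_mul, Int.natAbs_mul, Int.natAbs_mul]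
      have : (2:ℤ).natAbs = 2 := rfl
      rw [this]
      calc 2 * ((s 0).natAbs * (s 1).natAbs * (s 2).natAbs) ≤
            2 * ((8 * R ^ 2) * (8 * R ^ 2) * (8 * R ^ 2)) :=
            Nat.mul_le_mul_left _ (Nat.mul_le_mul (Nat.mul_le_mul (s2 0) (s2 1)) (s2 2))
        _ = 1024 * R ^ 6 := by ring
    have hΔ0 : 0 < (2 * (s 0 * s 1 * s 2)).natAbs := Int.natAbs_pos.2
      (mul_ne_zero (by norm_num) (mul_ne_zero (mul_ne_zero (s1 0) (s1 1)) (s1 2)))
    have hK2 : (0:ℝ) ≤ (2:ℝ) / (K - 2) := by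
      have : (3:ℝ) ≤ K := by exact_mod_cast hK
      apply div_nonneg (by norm_num); linarith
    have := frame_count s s1 K hK (2 * R) T E (by positivity) (by positivity)
      (by
        rw [hE]
        apply Real.rpow_le_rpow (by positivity) _ hK2
        exact_mod_cast hΔ)
      (by
        intro n hn
        have hnpos : 0 < n := Nat.pos_of_dvd_of_pos hn hΔ0
        have hnle : n ≤ 1024 * R ^ 6 := (Nat.le_of_dvd hΔ0 hn).trans hΔ
        exact_mod_cast hTd n hnpos hnle)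
      ((Nd.filter (fun x => sg x = s)).image phi) (by
        intro y hy
        obtain ⟨x, hx, rfl⟩ := Finset.mem_image.1 hy
        obtain ⟨h1, h2⟩ := Finset.mem_filter.1 hx
        obtain ⟨u1, u2, u3, u4⟩ := hent x h1
        rw [← h2]
        refine ⟨hfr x h1, ?_, ?_, ?_, ?_⟩
        · have := norm_le_of_natAbs _ _ u1; push_cast at this; exact this
        · have := norm_le_of_natAbs _ _ u2; push_cast at this; exact this
        · have := norm_le_of_natAbs _ _ u3; push_cast at this; exact this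
        · have := norm_le_of_natAbs _ _ u4; push_cast at this; exact this)
    refine this.trans (le_of_eq ?_)
    rw [hCst]; ring
  have hts := triple_sum (8 * R ^ 2) (by nlinarith) T (by exact_mod_cast hT) (by
    intro n h1 h2
    have : n ≤ 1024 * R ^ 6 := by
      refine h2.trans ?_
      have e1 : R ^ 2 ≤ R ^ 4 := Nat.pow_le_pow_right hR (by norm_num)
      have e2 : R ^ 4 ≤ R ^ 6 := Nat.pow_le_pow_right hR (by norm_num)
      calc 8 * R ^ 2 * (8 * R ^ 2 + 4) = 64 * R ^ 4 + 32 * R ^ 2 := by ring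
        _ ≤ 1024 * R ^ 6 := by omega
    exact_mod_cast hTd n h1 this) Q (fun s hs => ⟨(hQm s hs).2.2, fun i => ⟨(hQm s hs).1 i,
      (hQm s hs).2.1 i⟩⟩)
  have cN : (Nd.card : ℝ) ≤ Cst * (516 * T * (8 * R ^ 2)) := by
    calc (Nd.card : ℝ) = ∑ s ∈ Q, (((Nd.filter (fun x => sg x = s)).card : ℕ) : ℝ) := by
          exact_mod_cast hsum
      _ ≤ ∑ s ∈ Q, Cst * (Real.sqrt (XX (s 0) (s 1) (s 2)) * PP (s 0) (s 1) (s 2)) :=
          Finset.sum_le_sum hfib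
      _ = Cst * ∑ s ∈ Q, (Real.sqrt (XX (s 0) (s 1) (s 2)) * PP (s 0) (s 1) (s 2)) := by
          rw [Finset.mul_sum]
      _ ≤ Cst * (516 * T * ((8 * R ^ 2 : ℕ) : ℝ)) := mul_le_mul_of_nonneg_left hts hCst0
      _ = _ := by push_cast; ring
  have hc' : (S.card : ℝ) ≤ D1.card + (D2.card + (D3.card + Nd.card)) := by exact_mod_cast hc
  have c1' : (D1.card : ℝ) ≤ 20412 * T ^ 3 * R ^ 4 := by exact_mod_cast c1
  have c2' : (D2.card : ℝ) ≤ 20412 * T ^ 3 * R ^ 4 := by exact_mod_cast c2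
  have c3' : (D3.card : ℝ) ≤ 20412 * T ^ 3 * R ^ 4 := by exact_mod_cast c3
  have e : Cst * (516 * T * (8 * R ^ 2)) = (K + 1) * (2808 * T ^ 8 * ((K + 1) * (2 * R)) ^ 2 *
      (Nat.log 2 ⌊2 * ((K + 1) * (2 * (R:ℝ))) ^ 2⌋₊ + 1) *
      ((24 + 224 * (K:ℝ) ^ 3 * (K.factorial : ℝ) ^ 3 * E) * (516 * T * (8 * R ^ 2)))) := by
    rw [hCst]; ring
  rw [← e]
  linarith

end Pool.Agent.E8helper43.SL
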