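import Pool.Agent.E8helper43.SL.Pair

set_option autoImplicit false

namespace Pool.Agent.E8helper43.SL

open Finset

/-- cross product of two integer vectors -/
def cr (r r' : Fin 3 → ℤ) : Fin 3 → ℤ := fun i => r (i + 1) * r' (i + 2) - r (i + 2) * r' (i + 1)

/-- primitive vectors (Bezout form) -/
def Prim (w : Fin 3 → ℤ) : Prop := ∃ u : Fin 3 → ℤ, u 0 * w 0 + u 1 * w 1 + u 2 * w 2 = 1

theorem fin3_cases (P : Fin 3 → Prop) (h0 : P 0) (h1 : P 1) (h2 : P 2) : ∀ i, P i := by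
  intro i; fin_cases i <;> assumption

theorem fin3_split : ∀ i j : Fin 3, j = i ∨ j = i + 1 ∨ j = i + 2 := by decide

theorem Prim.shift {w : Fin 3 → ℤ} (h : Prim w) (i : Fin 3) :
    ∃ x y z : ℤ, x * w i + y * w (i + 1) + z * w (i + 2) = 1 := by
  obtain ⟨u, hu⟩ := h
  fin_cases i
  · exact ⟨u 0, u 1, u 2, hu⟩
  · refine ⟨u 1, u 2, u 0, ?_⟩
    show u 1 * w 1 + u 2 * w 2 + u 0 * w 0 = 1
    linarith
  · refine ⟨u 2, u 0, u 1, ?_⟩
    show u 2 * w 2 + u 0 * w 0 + u 1 * w 1 = 1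
    linarith

theorem cr_dot (r r' : Fin 3 → ℤ) (i : Fin 3) :
    r i * cr r r' i + r (i + 1) * cr r r' (i + 1) + r (i + 2) * cr r r' (i + 2) = 0 := by
  fin_cases i
  · show r 0 * (r 1 * r' 2 - r 2 * r' 1) + r 1 * (r 2 * r' 0 - r 0 * r' 2) +
      r 2 * (r 0 * r' 1 - r 1 * r' 0) = 0
    ring
  · show r 1 * (r 2 * r' 0 - r 0 * r' 2) + r 2 * (r 0 * r' 1 - r 1 * r' 0) +
      r 0 * (r 1 * r' 2 - r 2 * r' 1) = 0
    ring
  · show r 2 * (r 0 * r' 1 - r 1 * r' 0) + r 0 * (r 1 * r' 2 - r 2 * r' 1) +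
      r 1 * (r 2 * r' 0 - r 0 * r' 2) = 0
    ring

theorem cr_dot' (r r' : Fin 3 → ℤ) (i : Fin 3) :
    r' i * cr r r' i + r' (i + 1) * cr r r' (i + 1) + r' (i + 2) * cr r r' (i + 2) = 0 := by
  fin_cases i
  · show r' 0 * (r 1 * r' 2 - r 2 * r' 1) + r' 1 * (r 2 * r' 0 - r 0 * r' 2) +
      r' 2 * (r 0 * r' 1 - r 1 * r' 0) = 0
    ring
  · show r' 1 * (r 2 * r' 0 - r 0 * r' 2) + r' 2 * (r 0 * r' 1 - r 1 * r' 0) +
      r' 0 * (r 1 * r' 2 - r 2 * r' 1) = 0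
    ring
  · show r' 2 * (r 0 * r' 1 - r 1 * r' 0) + r' 0 * (r 1 * r' 2 - r 2 * r' 1) +
      r' 1 * (r 2 * r' 0 - r 0 * r' 2) = 0
    ring

/-- the lattice of planar projections of vectors orthogonal to `w` -/
def Lam (w : Fin 3 → ℤ) (i : Fin 3) : AddSubgroup (ℤ × ℤ) where
  carrier := {p | w i ∣ w (i + 1) * p.1 + w (i + 2) * p.2}
  add_mem' := by
    intro a b ha hb
    simp only [Set.mem_ofPred_eq, Prod.fst_add, Prod.snd_add] at *
    have : w (i + 1) * (a.1 + b.1) + w (i + 2) * (a.2 + b.2) =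
      (w (i + 1) * a.1 + w (i + 2) * a.2) + (w (i + 1) * b.1 + w (i + 2) * b.2) := by ring
    rw [this]; exact dvd_add ha hb
  zero_mem' := by simp
  neg_mem' := by
    intro a ha
    simp only [Set.mem_ofPred_eq, Prod.fst_neg, Prod.snd_neg] at *
    have : w (i + 1) * (-a.1) + w (i + 2) * (-a.2) = -(w (i + 1) * a.1 + w (i + 2) * a.2) := by ring
    rw [this]; exact (dvd_neg).2 ha

theorem mem_Lam (w : Fin 3 → ℤ) (i : Fin 3) (p : ℤ × ℤ) :
    p ∈ Lam w i ↔ w i ∣ w (i + 1) * p.1 + w (i + 2) * p.2 := Iff.rfl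

theorem Lam_dt (w : Fin 3 → ℤ) (hw : Prim w) (i : Fin 3) :
    ∀ r ∈ Lam w i, ∀ s ∈ Lam w i, |w i| ∣ dt r s := by
  intro r hr s hs
  rw [mem_Lam] at hr hs
  rw [abs_dvd]
  obtain ⟨x, y, z, h⟩ := hw.shift i
  have h1 : w i ∣ w (i + 1) * dt r s := by
    have : w (i + 1) * dt r s = (w (i + 1) * r.1 + w (i + 2) * r.2) * s.2 -
      (w (i + 1) * s.1 + w (i + 2) * s.2) * r.2 := by simp only [dt]; ring
    rw [this]
    exact dvd_sub (Dvd.dvd.mul_right hr _) (Dvd.dvd.mul_right hs _)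
  have h2 : w i ∣ w (i + 2) * dt r s := by
    have : w (i + 2) * dt r s = (w (i + 1) * s.1 + w (i + 2) * s.2) * r.1 -
      (w (i + 1) * r.1 + w (i + 2) * r.2) * s.1 := by simp only [dt]; ring
    rw [this]
    exact dvd_sub (Dvd.dvd.mul_right hs _) (Dvd.dvd.mul_right hr _)
  have h3 : dt r s = x * dt r s * w i + y * (w (i + 1) * dt r s) + z * (w (i + 2) * dt r s) := by
    have : dt r s = (x * w i + y * w (i + 1) + z * w (i + 2)) * dt r s := by rw [h, one_mul]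
    calc dt r s = (x * w i + y * w (i + 1) + z * w (i + 2)) * dt r s := this
      _ = _ := by ring
  rw [h3]
  exact dvd_add (dvd_add (Dvd.intro_left _ rfl) (Dvd.dvd.mul_left h1 _)) (Dvd.dvd.mul_left h2 _)

theorem exists_norm_eq (w : Fin 3 → ℤ) : ∃ i, ‖w‖ = |(w i : ℝ)| ∧ ∀ j, |(w j : ℝ)| ≤ |(w i : ℝ)| := by
  obtain ⟨i, hi⟩ := Finite.exists_max (fun i => ‖w i‖)
  refine ⟨i, le_antisymm ?_ ?_, fun j => by simpa [Int.norm_eq_abs] using hi j⟩
  · rw [pi_norm_le_iff_of_nonneg (abs_nonneg _)]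
    intro j
    simpa [Int.norm_eq_abs] using hi j
  · have := norm_le_pi_norm w i
    rwa [Int.norm_eq_abs] at this

theorem abs_le_norm (w : Fin 3 → ℤ) (i : Fin 3) : |(w i : ℝ)| ≤ ‖w‖ := by
  have := norm_le_pi_norm w i
  rwa [Int.norm_eq_abs] at this

/-- the number of pairs of rows with given cross product -/
theorem vcount (w : Fin 3 → ℤ) (hw : Prim w) (g : ℤ) (hg : 0 < g) (R : ℝ) (hR : 0 ≤ R)
    (S : Finset ((Fin 3 → ℤ) × (Fin 3 → ℤ)))
    (hS : ∀ x ∈ S, cr x.1 x.2 = g • w ∧ ‖x.1‖ ≤ R ∧ ‖x.2‖ ≤ R) :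
    (S.card : ℝ) ≤ g.natAbs.divisors.card * (108 * R ^ 2 / ‖w‖) := by
  classical
  obtain ⟨i, hi, hmax⟩ := exists_norm_eq w
  have hwi : w i ≠ 0 := by
    intro h
    rw [h] at hmax
    have h0 : ∀ j, w j = 0 := by
      intro j
      have := hmax j
      simp only [Int.cast_zero, abs_zero] at this
      have := abs_nonpos_iff.1 this
      exact_mod_cast this
    obtain ⟨u, hu⟩ := hw
    rw [h0 0, h0 1, h0 2] at hu
    simp at hu
  set π : (Fin 3 → ℤ) × (Fin 3 → ℤ) → (ℤ × ℤ) × (ℤ × ℤ) :=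
    fun x => ((x.1 (i + 1), x.1 (i + 2)), (x.2 (i + 1), x.2 (i + 2))) with hπ
  have hdot : ∀ x ∈ S, x.1 i * w i + x.1 (i + 1) * w (i + 1) + x.1 (i + 2) * w (i + 2) = 0 ∧
      x.2 i * w i + x.2 (i + 1) * w (i + 1) + x.2 (i + 2) * w (i + 2) = 0 := by
    intro x hx
    obtain ⟨h1, -, -⟩ := hS x hx
    have d1 := cr_dot x.1 x.2 i
    have d2 := cr_dot' x.1 x.2 i
    rw [h1] at d1 d2
    simp only [Pi.smul_apply, smul_eq_mul] at d1 d2
    constructor
    · apply mul_left_cancel₀ hg.ne'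
      rw [mul_zero, ← d1]; ring
    · apply mul_left_cancel₀ hg.ne'
      rw [mul_zero, ← d2]; ring
  have hfin : ∀ j : Fin 3, j = i ∨ j = i + 1 ∨ j = i + 2 := fin3_split i
  have hinj : Set.InjOn π S := by
    intro x hx y hy hxy
    obtain ⟨d1, d2⟩ := hdot x hx
    obtain ⟨d3, d4⟩ := hdot y hy
    simp only [hπ, Prod.mk.injEq] at hxy
    obtain ⟨⟨e1, e2⟩, e3, e4⟩ := hxy
    have a1 : x.1 i = y.1 i := by
      apply mul_right_cancel₀ hwi
      rw [e1, e2] at d1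
      linarith
    have a2 : x.2 i = y.2 i := by
      apply mul_right_cancel₀ hwi
      rw [e3, e4] at d2
      linarith
    apply Prod.ext
    · funext j
      rcases hfin j with h | h | h
      · rw [h]; exact a1
      · rw [h]; exact e1
      · rw [h]; exact e2
    · funext j
      rcases hfin j with h | h | h
      · rw [h]; exact a2
      · rw [h]; exact e3
      · rw [h]; exact e4
  have hmain := pair_count (Lam w i) |w i| (abs_pos.2 hwi) (Lam_dt w hw i) g hg (g * w i)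
    (by rw [abs_mul, abs_of_pos hg]) R hR (S.image π) ?_
  · rw [Finset.card_image_of_injOn hinj] at hmain
    rw [hi]
    push_cast at hmain
    exact hmain
  · intro y hy
    obtain ⟨x, hx, rfl⟩ := Finset.mem_image.1 hy
    obtain ⟨h1, h2, h3⟩ := hS x hx
    obtain ⟨d1, d2⟩ := hdot x hx
    refine ⟨?_, ?_, ?_, ?_, ?_⟩
    · rw [mem_Lam]; exact ⟨- x.1 i, by simp only [hπ]; linarith⟩
    · rw [mem_Lam]; exact ⟨- x.2 i, by simp only [hπ]; linarith⟩
    · have := congrFun h1 i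
      simp only [Pi.smul_apply, smul_eq_mul] at this
      rw [← this]; rfl
    · simp only [hπ, nm]
      push_cast
      exact max_le ((abs_le_norm _ _).trans h2) ((abs_le_norm _ _).trans h2)
    · simp only [hπ, nm]
      push_cast
      exact max_le ((abs_le_norm _ _).trans h3) ((abs_le_norm _ _).trans h3)

end Pool.Agent.E8helper43.SL
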